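import Pool.Agent.Ratios.GammaBound

/-! Stirling type bound for `Γ` in the strip `1/2 ≤ Re s ≤ 3/2`, with the exact exponent. -/

set_option autoImplicit false

open Complex MeasureTheory Set Filter Topology

namespace Pool.Agent.H23.GLH

lemma norm_Gamma_half_sq (y : ℝ) :
    ‖Gamma (1 / 2 + y * I)‖ ^ 2 = Real.pi / Real.cosh (Real.pi * y) := by
  have hconj : (starRingEnd ℂ) (Gamma (1 / 2 + y * I)) = Gamma (1 - (1 / 2 + y * I)) := by
    rw [← Gamma_conj]
    congr 1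
    rw [map_add, map_mul, conj_I, conj_ofReal]
    have : (starRingEnd ℂ) (1 / 2 : ℂ) = 1 / 2 := by
      rw [map_div₀, map_one, map_ofNat]
    rw [this]; ring
  have h2 : ((‖Gamma (1 / 2 + y * I)‖ ^ 2 : ℝ) : ℂ) =
      ((Real.pi / Real.cosh (Real.pi * y) : ℝ) : ℂ) := by
    rw [← Complex.normSq_eq_norm_sq, ← Complex.mul_conj, hconj, Gamma_mul_Gamma_one_sub]
    have e : (Real.pi : ℂ) * (1 / 2 + y * I) = ((Real.pi * y : ℝ) : ℂ) * I + Real.pi / 2 := by
      push_cast; ring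
    rw [e, Complex.sin_add_pi_div_two, Complex.cos_mul_I]
    push_cast
    rfl
  exact_mod_cast h2

lemma norm_Gamma_half_le (y : ℝ) :
    ‖Gamma (1 / 2 + y * I)‖ ≤ Real.sqrt (2 * Real.pi) * Real.exp (-(Real.pi * |y| / 2)) := by
  have hpi := Real.pi_pos
  have h := norm_Gamma_half_sq y
  have hpos : 0 ≤ Real.sqrt (2 * Real.pi) * Real.exp (-(Real.pi * |y| / 2)) := by positivity
  refine le_of_sq_le_sq ?_ hpos
  rw [h, mul_pow, Real.sq_sqrt (by positivity), ← Real.exp_nat_mul]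
  have h1 : Real.cosh (Real.pi * y) = Real.cosh (Real.pi * |y|) := by
    rcases abs_cases y with ⟨h, _⟩ | ⟨h, _⟩
    · rw [h]
    · rw [h, mul_neg, Real.cosh_neg]
  rw [h1, div_le_iff₀ (Real.cosh_pos _), Real.cosh_eq]
  have e1 : ((2 : ℕ) : ℝ) * -(Real.pi * |y| / 2) = -(Real.pi * |y|) := by push_cast; ring
  rw [e1]
  have h2 : Real.exp (-(Real.pi * |y|)) * Real.exp (Real.pi * |y|) = 1 := by
    rw [← Real.exp_add]; simp
  have h3 : 0 < Real.exp (-(Real.pi * |y|)) := Real.exp_pos _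
  calc Real.pi = Real.pi * (Real.exp (-(Real.pi * |y|)) * Real.exp (Real.pi * |y|)) := by
        rw [h2, mul_one]
    _ ≤ Real.pi * (Real.exp (-(Real.pi * |y|)) * Real.exp (Real.pi * |y|)) +
        Real.pi * (Real.exp (-(Real.pi * |y|)) * Real.exp (-(Real.pi * |y|))) := by
        have : 0 ≤ Real.pi * (Real.exp (-(Real.pi * |y|)) * Real.exp (-(Real.pi * |y|))) := by
          positivity
        linarith
    _ = _ := by ring

lemma norm_Gamma_three_half_le (y : ℝ) :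
    ‖Gamma (3 / 2 + y * I)‖ ≤
      (1 / 2 + |y|) * (Real.sqrt (2 * Real.pi) * Real.exp (-(Real.pi * |y| / 2))) := by
  have e : (3 / 2 + y * I : ℂ) = (1 / 2 + y * I) + 1 := by ring
  have hne : (1 / 2 + y * I : ℂ) ≠ 0 := by
    intro h
    have := congrArg Complex.re h
    simp at this
  rw [e, Gamma_add_one _ hne, norm_mul]
  have h1 : ‖(1 / 2 : ℂ) + y * I‖ ≤ 1 / 2 + |y| := by
    refine (norm_add_le _ _).trans ?_
    simp
  have h2 := norm_Gamma_half_le y
  gcongr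

lemma one_add_mul_exp_le (w : ℝ) : (1 + |w|) * Real.exp (-w ^ 2) ≤ 2 := by
  have h1 : 1 + |w| ≤ Real.exp |w| := by linarith [Real.add_one_le_exp |w|]
  calc (1 + |w|) * Real.exp (-w ^ 2) ≤ Real.exp |w| * Real.exp (-w ^ 2) := by gcongr
    _ = Real.exp (|w| - |w| ^ 2) := by rw [← Real.exp_add, sq_abs]; ring_nf
    _ ≤ Real.exp (1 / 4) := by
        apply Real.exp_le_exp.mpr
        nlinarith [sq_nonneg (|w| - 1 / 2)]
    _ ≤ 2 := by
        have h2 : Real.exp (1 / 4) ^ 4 = Real.exp 1 := by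
          rw [← Real.exp_nat_mul]; norm_num
        have h3 := Real.exp_one_lt_d9
        by_contra hlt
        push Not at hlt
        have h4 : (2:ℝ) ^ 4 < Real.exp (1 / 4) ^ 4 := by gcongr
        rw [h2] at h4
        linarith

lemma one_add_sq_mul_exp_le (w : ℝ) : (1 + |w|) ^ 2 * Real.exp (-w ^ 2) ≤ 3 := by
  have h1 : 1 + |w| ≤ Real.exp |w| := by linarith [Real.add_one_le_exp |w|]
  calc (1 + |w|) ^ 2 * Real.exp (-w ^ 2) ≤ Real.exp |w| ^ 2 * Real.exp (-w ^ 2) := by gcongr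
    _ = Real.exp (2 * |w| - |w| ^ 2) := by
        rw [← Real.exp_nat_mul, ← Real.exp_add, sq_abs]; push_cast; ring_nf
    _ ≤ Real.exp 1 := by
        apply Real.exp_le_exp.mpr
        nlinarith [sq_nonneg (|w| - 1)]
    _ ≤ 3 := by linarith [Real.exp_one_lt_d9]

/-- Stirling bound for `t ≥ 0`. -/
lemma norm_Gamma_strip_nonneg (σ t : ℝ) (hσ : 1 / 2 ≤ σ) (hσ2 : σ ≤ 3 / 2) (ht : 0 ≤ t) :
    ‖Gamma (σ + t * I)‖ ≤ 4 * Real.sqrt (2 * Real.pi) * Real.exp (9 / 4) *
      (1 + t) ^ (σ - 1 / 2) * Real.exp (-(Real.pi * t / 2)) := by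
  have hpi := Real.pi_pos
  set ℓ := Real.log (2 + t) with hℓ
  have hℓ0 : 0 ≤ ℓ := Real.log_nonneg (by linarith)
  have hexpℓ : Real.exp ℓ = 2 + t := Real.exp_log (by linarith)
  set S := Real.sqrt (2 * Real.pi) with hS
  have hS0 : 0 ≤ S := Real.sqrt_nonneg _
  set h : ℂ → ℂ := fun s => Gamma s *
    cexp (-(I * Real.pi * s / 2) + (s - t * I) ^ 2 - ℓ * (s - 1 / 2)) with hh
  have hnorm : ∀ x y : ℝ, ‖h (x + y * I)‖ = ‖Gamma (x + y * I)‖ *
      Real.exp (Real.pi * y / 2 + (x ^ 2 - (y - t) ^ 2) - ℓ * (x - 1 / 2)) := by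
    intro x y
    rw [hh]
    simp only
    rw [norm_mul, Complex.norm_exp]
    congr 2
    have e : (-(I * Real.pi * ((x : ℂ) + y * I) / 2) + ((x : ℂ) + y * I - t * I) ^ 2 -
        ℓ * ((x : ℂ) + y * I - 1 / 2)) =
        ((Real.pi * y / 2 + (x ^ 2 - (y - t) ^ 2) - ℓ * (x - 1 / 2) : ℝ) : ℂ) +
        ((-(Real.pi * x / 2) + 2 * x * (y - t) - ℓ * y : ℝ) : ℂ) * I := by
      push_cast
      have := I_sq
      linear_combination (-(Real.pi : ℂ) * y / 2 + ((y : ℂ) - t) ^ 2) * this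
    rw [e, add_re, ofReal_re, re_ofReal_mul, I_re, mul_zero, add_zero]
  set M := 2 * S * Real.exp (9 / 4) with hM
  have hM0 : 0 < M := by
    rw [hM, hS]; positivity
  have hleft : ∀ z ∈ re ⁻¹' {(1 / 2 : ℝ)}, ‖h z‖ ≤ M := by
    intro z hz
    have hz1 : z.re = 1 / 2 := hz
    have hz' : z = ((1 / 2 : ℝ) : ℂ) + z.im * I := by
      rw [← hz1]; exact (re_add_im z).symm
    rw [hz', hnorm]
    set y := z.im
    have h1 := norm_Gamma_half_le y
    have e1 : (((1 / 2 : ℝ) : ℂ) + y * I) = 1 / 2 + y * I := by push_cast; ring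
    rw [e1]
    have h2 : Real.pi * y ≤ Real.pi * |y| := by
      have := le_abs_self y
      gcongr
    calc ‖Gamma (1 / 2 + y * I)‖ *
          Real.exp (Real.pi * y / 2 + ((1 / 2) ^ 2 - (y - t) ^ 2) - ℓ * (1 / 2 - 1 / 2))
        ≤ (S * Real.exp (-(Real.pi * |y| / 2))) *
          Real.exp (Real.pi * |y| / 2 + 9 / 4) := by
          have : Real.exp (Real.pi * y / 2 + ((1 / 2) ^ 2 - (y - t) ^ 2) - ℓ * (1 / 2 - 1 / 2)) ≤
              Real.exp (Real.pi * |y| / 2 + 9 / 4) := by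
            apply Real.exp_le_exp.mpr
            nlinarith [sq_nonneg (y - t)]
          gcongr
      _ = S * (Real.exp (-(Real.pi * |y| / 2)) * Real.exp (Real.pi * |y| / 2 + 9 / 4)) := by ring
      _ = S * Real.exp (9 / 4) := by rw [← Real.exp_add]; ring_nf
      _ ≤ M := by
          rw [hM]
          have : 0 ≤ S * Real.exp (9 / 4) := by positivity
          linarith
  have hright : ∀ z ∈ re ⁻¹' {(3 / 2 : ℝ)}, ‖h z‖ ≤ M := by
    intro z hz
    have hz1 : z.re = 3 / 2 := hz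
    have hz' : z = ((3 / 2 : ℝ) : ℂ) + z.im * I := by
      rw [← hz1]; exact (re_add_im z).symm
    rw [hz', hnorm]
    set y := z.im
    have h1 := norm_Gamma_three_half_le y
    have e1 : (((3 / 2 : ℝ) : ℂ) + y * I) = 3 / 2 + y * I := by push_cast; ring
    rw [e1]
    have h2 : Real.pi * y ≤ Real.pi * |y| := by
      have := le_abs_self y
      gcongr
    have h3 : 1 / 2 + |y| ≤ (2 + t) * (1 + |y - t|) := by
      have h4 : |y| ≤ |y - t| + t := by
        calc |y| = |(y - t) + t| := by ring_nf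
          _ ≤ |y - t| + |t| := abs_add_le _ _
          _ = _ := by rw [abs_of_nonneg ht]
      have := abs_nonneg (y - t)
      nlinarith
    have h5 := one_add_mul_exp_le (y - t)
    have h6 : Real.exp (Real.pi * y / 2 + ((3 / 2) ^ 2 - (y - t) ^ 2) - ℓ * (3 / 2 - 1 / 2)) ≤
        Real.exp (Real.pi * |y| / 2) * Real.exp (9 / 4) * Real.exp (-(y - t) ^ 2) *
          (2 + t)⁻¹ := by
      have : (2 + t)⁻¹ = Real.exp (-ℓ) := by rw [Real.exp_neg, hexpℓ]
      rw [this, ← Real.exp_add, ← Real.exp_add, ← Real.exp_add]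
      apply Real.exp_le_exp.mpr
      nlinarith
    have h2t : 0 < 2 + t := by linarith
    calc ‖Gamma (3 / 2 + y * I)‖ *
          Real.exp (Real.pi * y / 2 + ((3 / 2) ^ 2 - (y - t) ^ 2) - ℓ * (3 / 2 - 1 / 2))
        ≤ (((2 + t) * (1 + |y - t|)) * (S * Real.exp (-(Real.pi * |y| / 2)))) *
          (Real.exp (Real.pi * |y| / 2) * Real.exp (9 / 4) * Real.exp (-(y - t) ^ 2) *
          (2 + t)⁻¹) := by
          have h7 : ‖Gamma (3 / 2 + y * I)‖ ≤
              ((2 + t) * (1 + |y - t|)) * (S * Real.exp (-(Real.pi * |y| / 2))) := by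
            refine h1.trans ?_
            gcongr
          gcongr
      _ = S * Real.exp (9 / 4) * ((1 + |y - t|) * Real.exp (-(y - t) ^ 2)) *
          (Real.exp (-(Real.pi * |y| / 2)) * Real.exp (Real.pi * |y| / 2)) *
            ((2 + t) * (2 + t)⁻¹) := by ring
      _ = S * Real.exp (9 / 4) * ((1 + |y - t|) * Real.exp (-(y - t) ^ 2)) := by
          rw [← Real.exp_add, mul_inv_cancel₀ h2t.ne']
          simp
      _ ≤ S * Real.exp (9 / 4) * 2 := by gcongr
      _ = M := by rw [hM]; ring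
  have hdiff : DiffContOnCl ℂ h (Complex.HadamardThreeLines.verticalStrip (1 / 2) (3 / 2)) := by
    refine DifferentiableOn.diffContOnCl fun z hz => ?_
    have hz0 : 1 / 2 ≤ z.re := by
      have hcl : IsClosed {z : ℂ | 1 / 2 ≤ z.re} :=
        isClosed_le continuous_const Complex.continuous_re
      have hsub : Complex.HadamardThreeLines.verticalStrip (1 / 2) (3 / 2) ⊆
          {z : ℂ | 1 / 2 ≤ z.re} := by
        intro w hw
        have hw' : w.re ∈ Ioo (1 / 2 : ℝ) (3 / 2) := hw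
        exact hw'.1.le
      exact closure_minimal hsub hcl hz
    have h2 : DifferentiableAt ℂ Gamma z := by
      apply differentiableAt_Gamma
      intro m hm
      rw [hm] at hz0
      simp at hz0
      have : (0:ℝ) ≤ m := Nat.cast_nonneg m
      linarith
    have h3 : DifferentiableAt ℂ
      (fun s : ℂ => cexp (-(I * Real.pi * s / 2) + (s - t * I) ^ 2 - ℓ * (s - 1 / 2))) z := by
      fun_prop
    exact (h2.mul h3).differentiableWithinAt
  have hbdd : BddAbove ((norm ∘ h) ''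
      Complex.HadamardThreeLines.verticalClosedStrip (1 / 2) (3 / 2)) := by
    refine ⟨112 * (1 + t) ^ 2 * 3 * Real.exp (9 / 4), ?_⟩
    rintro _ ⟨z, hz, rfl⟩
    have hz' : z.re ∈ Icc (1 / 2 : ℝ) (3 / 2) := hz
    have e0 : z = (z.re : ℂ) + z.im * I := (re_add_im z).symm
    show ‖h z‖ ≤ _
    rw [e0, hnorm]
    set x := z.re
    set y := z.im
    have h1 := Pool.Agent.Ratios.norm_Gamma_le x y (by linarith [hz'.1]) (by linarith [hz'.2])
    have h2 := Pool.Agent.Ratios.Gamma_real_le x (by linarith [hz'.1]) (by linarith [hz'.2])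
    have h3 : Real.pi * y ≤ Real.pi * |y| := by
      have := le_abs_self y
      gcongr
    have h4 : 1 + |y| ≤ (1 + t) * (1 + |y - t|) := by
      have h4 : |y| ≤ |y - t| + t := by
        calc |y| = |(y - t) + t| := by ring_nf
          _ ≤ |y - t| + |t| := abs_add_le _ _
          _ = _ := by rw [abs_of_nonneg ht]
      have := abs_nonneg (y - t)
      nlinarith
    have h5 := one_add_sq_mul_exp_le (y - t)
    have h6 : Real.exp (Real.pi * y / 2 + (x ^ 2 - (y - t) ^ 2) - ℓ * (x - 1 / 2)) ≤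
        Real.exp (Real.pi * |y| / 2) * Real.exp (9 / 4) * Real.exp (-(y - t) ^ 2) := by
      rw [← Real.exp_add, ← Real.exp_add]
      apply Real.exp_le_exp.mpr
      have h7 : x ^ 2 ≤ 9 / 4 := by nlinarith [hz'.1, hz'.2]
      have h8 : 0 ≤ ℓ * (x - 1 / 2) := mul_nonneg hℓ0 (by linarith [hz'.1])
      linarith
    have hG0 : 0 ≤ Real.Gamma x := (Real.Gamma_pos_of_pos (by linarith [hz'.1])).le
    calc ‖Gamma (x + y * I)‖ *
          Real.exp (Real.pi * y / 2 + (x ^ 2 - (y - t) ^ 2) - ℓ * (x - 1 / 2))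
        ≤ (7 * 16 * ((1 + t) * (1 + |y - t|)) ^ 2 * Real.exp (-(Real.pi * |y| / 2))) *
          (Real.exp (Real.pi * |y| / 2) * Real.exp (9 / 4) * Real.exp (-(y - t) ^ 2)) := by
          have h7 : ‖Gamma (x + y * I)‖ ≤
              7 * 16 * ((1 + t) * (1 + |y - t|)) ^ 2 * Real.exp (-(Real.pi * |y| / 2)) := by
            refine h1.trans ?_
            gcongr
          gcongr
      _ = 112 * (1 + t) ^ 2 * ((1 + |y - t|) ^ 2 * Real.exp (-(y - t) ^ 2)) * Real.exp (9 / 4) *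
          (Real.exp (-(Real.pi * |y| / 2)) * Real.exp (Real.pi * |y| / 2)) := by ring
      _ = 112 * (1 + t) ^ 2 * ((1 + |y - t|) ^ 2 * Real.exp (-(y - t) ^ 2)) *
            Real.exp (9 / 4) := by
          rw [← Real.exp_add]; simp
      _ ≤ _ := by gcongr
  have hmem : ((σ : ℂ) + t * I) ∈
      Complex.HadamardThreeLines.verticalClosedStrip (1 / 2) (3 / 2) := by
    show ((σ : ℂ) + t * I).re ∈ Icc (1 / 2 : ℝ) (3 / 2)
    simp
    exact ⟨by linarith, hσ2⟩
  have hfin := Complex.HadamardThreeLines.norm_le_interp_of_mem_verticalClosedStrip'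
    (by norm_num : (1 / 2 : ℝ) < 3 / 2) hmem hdiff hbdd hleft hright
  rw [← Real.rpow_add hM0, sub_add_cancel, Real.rpow_one, hnorm, sub_self] at hfin
  -- conclude
  have hpos2 : 0 < 2 + t := by linarith
  have h1 : Real.exp (Real.pi * t / 2 + (σ ^ 2 - 0 ^ 2) - ℓ * (σ - 1 / 2)) ≥
      Real.exp (Real.pi * t / 2) * ((2 + t) ^ (σ - 1 / 2))⁻¹ := by
    rw [← Real.rpow_neg hpos2.le, Real.rpow_def_of_pos hpos2, ← hℓ, ← Real.exp_add]
    apply Real.exp_le_exp.mpr
    nlinarith [sq_nonneg σ]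
  have h2 : ‖Gamma (σ + t * I)‖ * (Real.exp (Real.pi * t / 2) * ((2 + t) ^ (σ - 1 / 2))⁻¹) ≤ M :=
    (mul_le_mul_of_nonneg_left h1 (norm_nonneg _)).trans hfin
  have h3 : (2 + t) ^ (σ - 1 / 2) ≤ 2 * (1 + t) ^ (σ - 1 / 2) := by
    calc (2 + t) ^ (σ - 1 / 2) ≤ (2 * (1 + t)) ^ (σ - 1 / 2) :=
          Real.rpow_le_rpow hpos2.le (by linarith) (by linarith)
      _ = 2 ^ (σ - 1 / 2) * (1 + t) ^ (σ - 1 / 2) := Real.mul_rpow (by norm_num) (by linarith)
      _ ≤ 2 ^ (1:ℝ) * (1 + t) ^ (σ - 1 / 2) := by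
          have : (2:ℝ) ^ (σ - 1 / 2) ≤ 2 ^ (1:ℝ) :=
            Real.rpow_le_rpow_of_exponent_le (by norm_num) (by linarith)
          gcongr
      _ = _ := by rw [Real.rpow_one]
  have hp1 : 0 < (2 + t) ^ (σ - 1 / 2) := by positivity
  have h4 : ‖Gamma (σ + t * I)‖ ≤ M * (2 + t) ^ (σ - 1 / 2) * Real.exp (-(Real.pi * t / 2)) := by
    have e : ‖Gamma (σ + t * I)‖ =
        (‖Gamma (σ + t * I)‖ * (Real.exp (Real.pi * t / 2) * ((2 + t) ^ (σ - 1 / 2))⁻¹)) *
          ((2 + t) ^ (σ - 1 / 2) * Real.exp (-(Real.pi * t / 2))) := by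
      rw [Real.exp_neg]
      have := Real.exp_pos (Real.pi * t / 2)
      field_simp
    rw [e]
    calc _ ≤ M * ((2 + t) ^ (σ - 1 / 2) * Real.exp (-(Real.pi * t / 2))) := by gcongr
      _ = _ := by ring
  refine h4.trans ?_
  calc M * (2 + t) ^ (σ - 1 / 2) * Real.exp (-(Real.pi * t / 2))
      ≤ M * (2 * (1 + t) ^ (σ - 1 / 2)) * Real.exp (-(Real.pi * t / 2)) := by gcongr
    _ = _ := by rw [hM]; ring

/-- Stirling bound, both signs of `t`. -/
theorem norm_Gamma_strip (σ t : ℝ) (hσ : 1 / 2 ≤ σ) (hσ2 : σ ≤ 3 / 2) :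
    ‖Gamma (σ + t * I)‖ ≤ 4 * Real.sqrt (2 * Real.pi) * Real.exp (9 / 4) *
      (1 + |t|) ^ (σ - 1 / 2) * Real.exp (-(Real.pi * |t| / 2)) := by
  rcases le_or_gt 0 t with ht | ht
  · rw [abs_of_nonneg ht]
    exact norm_Gamma_strip_nonneg σ t hσ hσ2 ht
  · rw [abs_of_neg ht]
    have h := norm_Gamma_strip_nonneg σ (-t) hσ hσ2 (by linarith)
    have e : Gamma (σ + ((-t : ℝ) : ℂ) * I) = (starRingEnd ℂ) (Gamma (σ + t * I)) := by
      rw [← Gamma_conj]
      congr 1
      rw [map_add, map_mul, conj_I, conj_ofReal, conj_ofReal]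
      push_cast; ring
    rw [e, RCLike.norm_conj] at h
    exact h

end Pool.Agent.H23.GLH
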