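import Pool.Agent.H23.GLH.Dirichlet
import Pool.Agent.H23.GLH.Defs

/-! The family of primitive Dirichlet `L`-functions is admissible. -/

set_option autoImplicit false

open Complex MeasureTheory Set Filter Topology

namespace Pool.Agent.H23.GLH

open DirichletCharacter Pool.Agent.Ratios

lemma norm_two_cpow_neg_le {s : ℂ} (hs : 1 / 4 ≤ s.re) : ‖(2 : ℂ) ^ (-s)‖ ≤ 7 / 8 := by
  have h : ‖(2 : ℂ) ^ (-s)‖ = (2 : ℝ) ^ (-s.re) := by
    have := Complex.norm_cpow_eq_rpow_re_of_pos (show (0:ℝ) < 2 by norm_num) (-s)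
    simpa using this
  rw [h]
  have h1 : (2 : ℝ) ^ (-s.re) ≤ 2 ^ (-(1 / 4) : ℝ) :=
    Real.rpow_le_rpow_of_exponent_le (by norm_num) (by linarith)
  refine h1.trans ?_
  rw [Real.rpow_neg (by norm_num), inv_le_comm₀ (by positivity) (by norm_num)]
  have h2 : ((8 / 7 : ℝ) ^ (4 : ℕ)) ≤ 2 := by norm_num
  have h3 : (8 / 7 : ℝ) = ((8 / 7 : ℝ) ^ (4 : ℕ)) ^ (1 / 4 : ℝ) := by
    rw [← Real.rpow_natCast, ← Real.rpow_mul (by norm_num)]; norm_num
  have h4 : ((7 / 8 : ℝ))⁻¹ = 8 / 7 := by norm_num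
  rw [h4, h3]
  exact Real.rpow_le_rpow (by norm_num) h2 (by norm_num)

lemma one_sub_two_cpow_ne {s : ℂ} (hs : 0 < s.re) : 1 - (2 : ℂ) ^ (-s) ≠ 0 := by
  intro h
  have h1 : (2 : ℂ) ^ (-s) = 1 := by linear_combination -h
  have h2 : ‖(2 : ℂ) ^ (-s)‖ = (2 : ℝ) ^ (-s.re) := by
    have := Complex.norm_cpow_eq_rpow_re_of_pos (show (0:ℝ) < 2 by norm_num) (-s)
    simpa using this
  rw [h1, norm_one] at h2
  have h3 : (2 : ℝ) ^ (-s.re) < 1 := Real.rpow_lt_one_of_one_lt_of_neg (by norm_num) (by linarith)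
  linarith

lemma norm_one_sub_two_cpow_ge {s : ℂ} (hs : 1 / 4 ≤ s.re) : 1 / 8 ≤ ‖1 - (2 : ℂ) ^ (-s)‖ := by
  have h1 := norm_two_cpow_neg_le hs
  have h2 := norm_sub_norm_le (1 : ℂ) ((2 : ℂ) ^ (-s))
  rw [norm_one] at h2
  linarith

/-- `ζ(s) (s - 1) / (s + 1)` for `Re s > 0`. -/
noncomputable def Fz (s : ℂ) : ℂ :=
  ((s - 1) * (s * gint BoddC s) + s / 2) / ((1 - (2 : ℂ) ^ (-s)) * (s + 1))

lemma add_one_ne {s : ℂ} (hs : 0 < s.re) : s + 1 ≠ 0 := by
  intro h
  have := congrArg Complex.re h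
  simp at this
  linarith

lemma Fz_eq {s : ℂ} (hs : 0 < s.re) (hs1 : s ≠ 1) :
    Fz s = riemannZeta s * ((s - 1) / (s + 1)) := by
  have h := Zf_eq s hs hs1
  rw [Zf] at h
  have h1 := one_sub_two_cpow_ne hs
  have h2 := add_one_ne hs
  have h3 : s - 1 ≠ 0 := sub_ne_zero.mpr hs1
  have h4 : (s - 1) * (s * gint BoddC s) + s / 2 =
      (s - 1) * ((1 - (2 : ℂ) ^ (-s)) * riemannZeta s) := by
    rw [h]
    field_simp
  rw [Fz, h4]
  field_simp

lemma differentiableOn_Fz : DifferentiableOn ℂ Fz {s | 0 < s.re} := by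
  intro s hs
  have hs' : 0 < s.re := hs
  have h1 := differentiableAt_gint _ measurable_BoddC (1 / 2) norm_BoddC_le s hs'
  have h2 : DifferentiableAt ℂ (fun s : ℂ => (s - 1) * (s * gint BoddC s) + s / 2) s :=
    ((differentiableAt_id.sub_const 1).mul (differentiableAt_id.mul h1)).add
      (differentiableAt_id.div_const 2)
  have h3 : DifferentiableAt ℂ (fun s : ℂ => (1 - (2 : ℂ) ^ (-s)) * (s + 1)) s := by
    have : DifferentiableAt ℂ (fun s : ℂ => (2 : ℂ) ^ (-s)) s :=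
      differentiableAt_id.neg.const_cpow (Or.inl two_ne_zero)
    exact (this.const_sub 1).mul (differentiableAt_id.add_const 1)
  exact (h2.div h3 (mul_ne_zero (one_sub_two_cpow_ne hs') (add_one_ne hs'))).differentiableWithinAt

lemma norm_div_re_le {s : ℂ} (hs : 1 / 4 ≤ s.re) : ‖s‖ / s.re ≤ 1 + 4 * |s.im| := by
  have hpos : 0 < s.re := by linarith
  rw [div_le_iff₀ hpos]
  have h1 := Complex.norm_le_abs_re_add_abs_im s
  rw [abs_of_pos hpos] at h1
  have h2 := abs_nonneg s.im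
  nlinarith

lemma norm_Fz_le {s : ℂ} (hs : 1 / 4 ≤ s.re) : ‖Fz s‖ ≤ 16 * (1 + |s.im|) := by
  have hpos : 0 < s.re := by linarith
  have h1 := norm_one_sub_two_cpow_ge hs
  have h2 := norm_gint_le BoddC (1 / 2) norm_BoddC_le s hpos
  have h3 : ‖s - 1‖ ≤ ‖s + 1‖ := by
    rw [← sq_le_sq₀ (norm_nonneg _) (norm_nonneg _), ← Complex.normSq_eq_norm_sq,
      ← Complex.normSq_eq_norm_sq, Complex.normSq_apply, Complex.normSq_apply]
    simp only [sub_re, one_re, sub_im, one_im, add_re, add_im]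
    nlinarith
  have h4 : ‖s‖ ≤ ‖s + 1‖ := by
    rw [← sq_le_sq₀ (norm_nonneg _) (norm_nonneg _), ← Complex.normSq_eq_norm_sq,
      ← Complex.normSq_eq_norm_sq, Complex.normSq_apply, Complex.normSq_apply]
    simp only [one_re, one_im, add_re, add_im]
    nlinarith
  have h5 : 0 < ‖s + 1‖ := norm_pos_iff.mpr (add_one_ne hpos)
  have h6 := norm_div_re_le hs
  have hnum : ‖(s - 1) * (s * gint BoddC s) + s / 2‖ ≤
      ‖s + 1‖ * (1 + 2 * |s.im|) := by
    refine (norm_add_le _ _).trans ?_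
    rw [norm_mul, norm_mul, norm_div]
    have e2 : ‖(2 : ℂ)‖ = 2 := by simp
    rw [e2]
    have h7 : ‖s‖ * ‖gint BoddC s‖ ≤ 1 / 2 * (1 + 4 * |s.im|) := by
      calc ‖s‖ * ‖gint BoddC s‖ ≤ ‖s‖ * (1 / 2 / s.re) := by gcongr
        _ = 1 / 2 * (‖s‖ / s.re) := by ring
        _ ≤ _ := by gcongr
    calc ‖s - 1‖ * (‖s‖ * ‖gint BoddC s‖) + ‖s‖ / 2
        ≤ ‖s + 1‖ * (1 / 2 * (1 + 4 * |s.im|)) + ‖s + 1‖ / 2 := by gcongr
      _ = _ := by ring
  rw [Fz, norm_div, norm_mul, div_le_iff₀ (by positivity)]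
  have h8 := abs_nonneg s.im
  calc ‖(s - 1) * (s * gint BoddC s) + s / 2‖ ≤ ‖s + 1‖ * (1 + 2 * |s.im|) := hnum
    _ ≤ ‖s + 1‖ * (2 * (1 + |s.im|)) := by gcongr; linarith
    _ = 16 * (1 + |s.im|) * (1 / 8 * ‖s + 1‖) := by ring
    _ ≤ _ := by gcongr

open scoped Classical in
/-- The entire (or polar-free) replacement of the `L`-function. -/
noncomputable def PrimChar.F (π : PrimChar) (s : ℂ) : ℂ :=
  if π.q = 1 then Fz s else π.L s

lemma PrimChar.F_of_one (π : PrimChar) (h : π.q = 1) (s : ℂ) : π.F s = Fz s := if_pos h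

lemma PrimChar.F_of_ne (π : PrimChar) (h : π.q ≠ 1) (s : ℂ) : π.F s = π.L s := if_neg h

lemma PrimChar.L_of_one (π : PrimChar) (h : π.q = 1) (s : ℂ) : π.L s = riemannZeta s := by
  obtain ⟨q, hq, χ, hp⟩ := π
  simp only at h
  subst h
  simp [PrimChar.L]

lemma PrimChar.χ_ne_one (π : PrimChar) (h : π.q ≠ 1) : π.χ ≠ 1 := by
  haveI := π.q_ne
  intro h1
  have h2 := π.prim
  rw [isPrimitive_def, h1, conductor_one] at h2
  exact h h2.symm

lemma PrimChar.one_le_q (π : PrimChar) : (1:ℝ) ≤ π.q := by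
  haveI := π.q_ne
  exact_mod_cast NeZero.pos π.q

lemma PrimChar.q_le_C (π : PrimChar) : (π.q : ℝ) ≤ π.C := by
  classical
  have h := π.one_le_q
  unfold PrimChar.C
  split_ifs <;> linarith

lemma PrimChar.one_le_C (π : PrimChar) : 1 ≤ π.C := π.one_le_q.trans π.q_le_C

lemma PrimChar.functional (π : PrimChar) (x t : ℝ) (hx : 0 < x) (hx4 : x ≤ 1 / 4) :
    ‖π.L (1 / 2 - x + t * I)‖ ≤ AΓ * (π.C * (1 + |t|)) ^ x *
      ‖π.L (1 / 2 + x + t * I)‖ := by
  haveI := π.q_ne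
  have h := functional_ineq' π.χ π.prim x t hx hx4
  have h1 := π.q_le_C
  have h2 := π.one_le_q
  have h3 := abs_nonneg t
  have hA := AΓ_pos
  refine h.trans ?_
  have h4 : ((π.q : ℝ) * (1 + |t|)) ^ x ≤ (π.C * (1 + |t|)) ^ x := by
    apply Real.rpow_le_rpow (by positivity) _ hx.le
    gcongr
  have h5 := norm_nonneg (LFunction π.χ (1 / 2 + x + t * I))
  show _ ≤ AΓ * (π.C * (1 + |t|)) ^ x * ‖LFunction π.χ (1 / 2 + x + t * I)‖
  gcongr

/-- The comparison of `ζ` and `Fz` near the critical line. -/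
lemma norm_ratio_le {s : ℂ} (h0 : 1 / 4 ≤ s.re) (h1 : s.re ≤ 3 / 4) :
    ‖(s - 1) / (s + 1)‖ ≤ 1 ∧ 1 / 7 ≤ ‖(s - 1) / (s + 1)‖ := by
  have hpos : 0 < ‖s + 1‖ := norm_pos_iff.mpr (add_one_ne (by linarith))
  rw [norm_div, div_le_one hpos, div_le_div_iff₀ (by norm_num) hpos]
  constructor
  · rw [← sq_le_sq₀ (norm_nonneg _) (norm_nonneg _), ← Complex.normSq_eq_norm_sq,
      ← Complex.normSq_eq_norm_sq, Complex.normSq_apply, Complex.normSq_apply]
    simp only [sub_re, one_re, sub_im, one_im, add_re, add_im]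
    nlinarith
  · rw [one_mul, ← sq_le_sq₀ (norm_nonneg _) (by positivity), mul_pow,
      ← Complex.normSq_eq_norm_sq, ← Complex.normSq_eq_norm_sq, Complex.normSq_apply,
      Complex.normSq_apply]
    simp only [sub_re, one_re, sub_im, one_im, add_re, add_im]
    nlinarith [sq_nonneg s.im, mul_nonneg (sub_nonneg.mpr h0) (sub_nonneg.mpr h1)]

lemma ne_one_of_re_lt {s : ℂ} (h : s.re < 1) : s ≠ 1 := by
  rintro rfl
  simp at h

/-- The admissible family. -/
theorem admissible (S : Set PrimChar) :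
    Admissible (fun π : S => (π : PrimChar).F) (fun π : S => (π : PrimChar).C) 1
      (7 * AΓ + 16) 1 where
  one_le_c := fun π => (π : PrimChar).one_le_C
  one_le_A := by have := AΓ_pos; linarith
  d_nonneg := zero_le_one
  diff := by
    rintro ⟨π, _⟩
    show DifferentiableOn ℂ π.F {s | 0 < s.re}
    by_cases h : π.q = 1
    · have : π.F = Fz := funext fun s => π.F_of_one h s
      rw [this]
      exact differentiableOn_Fz
    · have : π.F = π.L := funext fun s => π.F_of_ne h s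
      rw [this]
      haveI := π.q_ne
      exact (differentiable_LFunction (π.χ_ne_one h)).differentiableOn
  grow := by
    rintro ⟨π, _⟩ s hs
    show ‖π.F s‖ ≤ (7 * AΓ + 16) * (π.C * (1 + |s.im|)) ^ 1
    rw [pow_one]
    have hA := AΓ_pos
    have hC := π.one_le_C
    have him := abs_nonneg s.im
    by_cases h : π.q = 1
    · rw [π.F_of_one h]
      refine (norm_Fz_le hs).trans ?_
      calc 16 * (1 + |s.im|) = 16 * (1 * (1 + |s.im|)) := by ring
        _ ≤ (7 * AΓ + 16) * (π.C * (1 + |s.im|)) := by gcongr; linarith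
    · rw [π.F_of_ne h]
      haveI := π.q_ne
      have h1 := norm_LFunction_le π.χ (π.χ_ne_one h) s (by linarith)
      have h2 := norm_div_re_le hs
      have h3 := π.q_le_C
      have h4 := π.one_le_q
      calc ‖π.L s‖ ≤ π.q * ‖s‖ / s.re := h1
        _ = π.q * (‖s‖ / s.re) := by ring
        _ ≤ π.C * (1 + 4 * |s.im|) := by gcongr
        _ ≤ π.C * (16 * (1 + |s.im|)) := by gcongr; linarith
        _ = 16 * (π.C * (1 + |s.im|)) := by ring
        _ ≤ _ := by
            gcongr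
            linarith
  refl := by
    rintro ⟨π, _⟩ x t hx hx4
    show ‖π.F (1 / 2 - x + t * I)‖ ≤ (7 * AΓ + 16) * (π.C * (1 + |t|)) ^ (1 * x) *
      ‖π.F (1 / 2 + x + t * I)‖
    rw [one_mul]
    have hA := AΓ_pos
    have hC := π.one_le_C
    have hfun := π.functional x t hx hx4
    have ht := abs_nonneg t
    have hp : 0 ≤ (π.C * (1 + |t|)) ^ x := by positivity
    by_cases h : π.q = 1
    · have r1 : (1 / 2 - x + t * I : ℂ).re = 1 / 2 - x := by simp
      have r2 : (1 / 2 + x + t * I : ℂ).re = 1 / 2 + x := by simp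
      rw [π.F_of_one h, π.F_of_one h, Fz_eq (by rw [r1]; linarith)
        (ne_one_of_re_lt (by rw [r1]; linarith)), Fz_eq (by rw [r2]; linarith)
        (ne_one_of_re_lt (by rw [r2]; linarith)), norm_mul, norm_mul]
      rw [π.L_of_one h, π.L_of_one h] at hfun
      have h1 := (norm_ratio_le (s := 1 / 2 - x + t * I) (by rw [r1]; linarith)
        (by rw [r1]; linarith)).1
      have h2 := (norm_ratio_le (s := 1 / 2 + x + t * I) (by rw [r2]; linarith)
        (by rw [r2]; linarith)).2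
      have hz := norm_nonneg (riemannZeta (1 / 2 + x + t * I))
      calc ‖riemannZeta (1 / 2 - x + t * I)‖ *
            ‖(1 / 2 - x + t * I - 1 : ℂ) / (1 / 2 - x + t * I + 1)‖
          ≤ (AΓ * (π.C * (1 + |t|)) ^ x * ‖riemannZeta (1 / 2 + x + t * I)‖) * 1 := by gcongr
        _ = (7 * AΓ) * (π.C * (1 + |t|)) ^ x * (‖riemannZeta (1 / 2 + x + t * I)‖ * (1 / 7)) := by
            ring
        _ ≤ (7 * AΓ + 16) * (π.C * (1 + |t|)) ^ x * (‖riemannZeta (1 / 2 + x + t * I)‖ *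
            ‖(1 / 2 + x + t * I - 1 : ℂ) / (1 / 2 + x + t * I + 1)‖) := by
            gcongr
            linarith
    · rw [π.F_of_ne h, π.F_of_ne h]
      refine hfun.trans ?_
      have hL := norm_nonneg (π.L (1 / 2 + x + t * I))
      gcongr
      linarith

lemma norm_F_le_L (π : PrimChar) (t : ℝ) :
    ‖π.F (1 / 2 + t * I)‖ ≤ ‖π.L (1 / 2 + t * I)‖ ∧
      ‖π.L (1 / 2 + t * I)‖ ≤ 7 * ‖π.F (1 / 2 + t * I)‖ := by
  by_cases h : π.q = 1
  · have r1 : (1 / 2 + t * I : ℂ).re = 1 / 2 := by simp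
    rw [π.F_of_one h, π.L_of_one h, Fz_eq (by rw [r1]; norm_num)
      (ne_one_of_re_lt (by rw [r1]; norm_num)), norm_mul]
    have h1 := norm_ratio_le (s := 1 / 2 + t * I) (by rw [r1]; norm_num) (by rw [r1]; norm_num)
    have hz := norm_nonneg (riemannZeta (1 / 2 + t * I))
    constructor
    · nlinarith [h1.1]
    · nlinarith [h1.2]
  · rw [π.F_of_ne h]
    have := norm_nonneg (π.L (1 / 2 + t * I))
    constructor <;> linarith

lemma lindelofBound_of_bound {S : Set PrimChar} {a : ℝ}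
    (h : Bound (fun π : S => (π : PrimChar).F) (fun π : S => (π : PrimChar).C) a) :
    LindelofBound S a := by
  obtain ⟨B, hB⟩ := h
  refine ⟨7 * B, fun π hπ t => ?_⟩
  have h1 := hB ⟨π, hπ⟩ t
  simp only at h1
  have h2 := (norm_F_le_L π t).2
  rw [mul_comm (1 + |t|)]
  linarith

lemma windows_of_goodWindows {S : Set PrimChar} {a η m : ℝ} (hm : 0 ≤ m)
    (h : GoodWindows S a η m) :
    Windows (fun π : S => (π : PrimChar).F) (fun π : S => (π : PrimChar).C) 1 a η m := by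
  obtain ⟨K, hK⟩ := h
  refine ⟨K, fun π t ht => ?_⟩
  have h1 := hK π π.2 t (by rwa [mul_comm] at ht)
  rw [measureReal_def, ← ENNReal.ofReal_le_iff_le_toReal]
  · refine h1.trans (measure_mono ?_)
    rintro u ⟨hu1, hu2⟩
    refine ⟨hu1, ?_⟩
    simp only
    rw [one_mul, mul_comm (π : PrimChar).C]
    exact (norm_F_le_L π u).1.trans hu2
  · exact (lt_of_le_of_lt (measure_mono fun u hu => hu.1) measure_Icc_lt_top).ne

/-- Quantitative theorem for `GL(1)`. -/
theorem gl1_main {S : Set PrimChar} {e ρ η a : ℝ} (hη : 0 < η) (hη4 : η ≤ 1 / 4) (he : 0 ≤ e)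
    (hρ : 0 < ρ) (hρ1 : ρ ≤ 1) (hW : GoodWindows S e η (ρ * η))
    (ha : e + 18 * η / ρ < a) : LindelofBound S a := by
  apply lindelofBound_of_bound
  have h1 := windows_of_goodWindows (by positivity) hW
  refine family_main (admissible S) hη hη4 he hρ hρ1 h1 ?_
  have h2 : 87 / 16 * Real.pi * (1 * η / ρ) ≤ 18 * η / ρ := by
    have := Real.pi_lt_d2
    rw [one_mul, mul_div_assoc 18]
    have : 0 ≤ η / ρ := by positivity
    have h3 : 87 / 16 * Real.pi ≤ 18 := by linarith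
    gcongr
  linarith

end Pool.Agent.H23.GLH
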