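import Pool.Agent.H23.GLH.Step

/-! The improvement step for a function with conductor, and the iteration for families. -/

set_option autoImplicit false

open Complex MeasureTheory Set Filter Topology

namespace Pool.Agent.H23.GLH

/-- The constant produced by one step. -/
noncomputable def Kst (A B a e0 ρ : ℝ) (k D : ℕ) : ℝ :=
  B * Real.exp (a / ((a - e0) * (ρ / (29 / 4 * Real.pi)) / 3)) +
    A * B * 4 ^ k * (2 ^ (D + 1) + Real.exp (((k + D : ℕ) : ℝ) ^ 2 / 16))

section step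

variable {F : ℂ → ℂ} {c d A A0 B a e0 ρ η : ℝ} {k D : ℕ}

theorem step (hF : DifferentiableOn ℂ F {s | 0 < s.re}) (hc : 1 ≤ c) (hA : 1 ≤ A)
    (hgrow : ∀ s : ℂ, 1 / 4 ≤ s.re → ‖F s‖ ≤ A * (c * (1 + |s.im|)) ^ k)
    (hη : 0 < η) (hη4 : η ≤ 1 / 4) (hd : 0 ≤ d) (hD : d * η ≤ D)
    (hrefl : ∀ t : ℝ, ‖F (1 / 2 - η + t * I)‖ ≤
      A * (c * (1 + |t|)) ^ (d * η) * ‖F (1 / 2 + η + t * I)‖)
    (he0 : 0 ≤ e0) (hea : e0 < a) (hak : a ≤ k) (hA0 : A0 ≤ B) (hB : 1 ≤ B) (hρ : 0 < ρ)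
    (hρ1 : ρ ≤ 1)
    (hline : ∀ t : ℝ, ‖F (1 / 2 + t * I)‖ ≤ B * (c * (1 + |t|)) ^ a)
    (t₀ : ℝ)
    (hG : ρ * η ≤ volume.real {v : ℝ | v ∈ Icc (-(η / 2)) (η / 2) ∧
      ‖F (1 / 2 + ((t₀ + v : ℝ) : ℂ) * I)‖ ≤ A0 * (c * (1 + |t₀ + v|)) ^ e0}) :
    ‖F (1 / 2 + t₀ * I)‖ ≤ Kst A B a e0 ρ k D *
      (c * (1 + |t₀|)) ^ (a - 2 / 3 * (ρ / (29 / 4 * Real.pi)) * (a - e0) + d * η / 2) := by
  have hpi := Real.pi_pos
  set Q := c * (1 + |t₀|) with hQ
  have ht0 : 0 ≤ |t₀| := abs_nonneg _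
  have hQ1 : 1 ≤ Q := by nlinarith
  have hQ0 : 0 < Q := by linarith
  set ω := ρ / (29 / 4 * Real.pi) with hω
  have hω0 : 0 < ω := by positivity
  have hω1 : ω ≤ 1 := by
    rw [hω, div_le_one (by positivity)]
    have := Real.pi_gt_three
    nlinarith
  set κ := (a - e0) * ω / 3 with hκ
  have hae : 0 < a - e0 := by linarith
  have hκ0 : 0 < κ := by positivity
  set Λ := Real.log Q with hΛ
  have hΛ0 : 0 ≤ Λ := Real.log_nonneg hQ1
  set a' := a - 2 / 3 * ω * (a - e0) + d * η / 2 with ha'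
  have ha'κ : a' = a - 2 * κ + d * η / 2 := by rw [ha', hκ]; ring
  have ha'0 : 0 ≤ a' := by
    have h1 : 2 / 3 * ω * (a - e0) ≤ a - e0 := by nlinarith
    have h2 : 0 ≤ d * η / 2 := by positivity
    rw [ha']; linarith
  have hB0 : 0 < B := by linarith
  have hk2 : 0 ≤ A * B * 4 ^ k * (2 ^ (D + 1) + Real.exp (((k + D : ℕ) : ℝ) ^ 2 / 16)) := by
    positivity
  have hk1 : 0 ≤ B * Real.exp (a / κ) := by positivity
  have hQa' : 1 ≤ Q ^ a' := Real.one_le_rpow hQ1 ha'0
  have hcomp : ∀ v : ℝ, c * (1 + |t₀ + v|) ≤ Q * (1 + |v|) := by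
    intro v
    rw [hQ, mul_assoc]
    have := one_add_abs_add_le t₀ v
    gcongr
  rcases lt_or_ge (κ * Λ) 1 with hsmall | hlarge
  · -- bounded conductor
    have h1 := hline t₀
    have h2 : Q ^ a ≤ Real.exp (a / κ) := by
      rw [Real.rpow_def_of_pos hQ0]
      apply Real.exp_le_exp.mpr
      rw [le_div_iff₀ hκ0]
      have : 0 ≤ a := by linarith
      calc Real.log Q * a * κ = a * (κ * Λ) := by rw [hΛ]; ring
        _ ≤ a * 1 := by gcongr
        _ = a := mul_one a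
    calc ‖F (1 / 2 + t₀ * I)‖ ≤ B * Q ^ a := h1
      _ ≤ B * Real.exp (a / κ) := by gcongr
      _ = B * Real.exp (a / κ) * 1 := (mul_one _).symm
      _ ≤ Kst A B a e0 ρ k D * Q ^ a' := by
          have h3 : B * Real.exp (a / κ) ≤ Kst A B a e0 ρ k D := by
            unfold Kst
            rw [← hω, ← hκ]
            linarith
          exact mul_le_mul h3 hQa' zero_le_one (hk1.trans h3)
  · -- the main case
    set f : ℂ → ℂ := fun z => F (1 / 2 + t₀ * I + z) with hf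
    have hf_diff : ∀ z : ℂ, -(1 / 2) < z.re → DifferentiableAt ℂ f z := by
      intro z hz
      have h1 : 0 < (1 / 2 + t₀ * I + z : ℂ).re := by simp; linarith
      have hU : IsOpen {s : ℂ | 0 < s.re} := isOpen_lt continuous_const Complex.continuous_re
      have h2 : DifferentiableAt ℂ F (1 / 2 + t₀ * I + z) :=
        (hF _ h1).differentiableAt (hU.mem_nhds h1)
      exact h2.comp z ((differentiableAt_const _).add differentiableAt_id)
    have hfgrow : ∀ z : ℂ, -(1 / 4) ≤ z.re → ‖f z‖ ≤ A * (Q * (1 + |z.im|)) ^ k := by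
      intro z hz
      have h1 := hgrow (1 / 2 + t₀ * I + z) (by simp; linarith)
      have h2 : (1 / 2 + t₀ * I + z : ℂ).im = t₀ + z.im := by simp
      rw [h2] at h1
      refine h1.trans ?_
      have := hcomp z.im
      gcongr
    have hfv : ∀ v : ℝ, f (v * I) = F (1 / 2 + ((t₀ + v : ℝ) : ℂ) * I) := by
      intro v
      simp only [hf]
      congr 1
      push_cast
      ring
    have ha0 : 0 ≤ a := by linarith
    have hfline : ∀ v : ℝ, ‖f (v * I)‖ ≤ B * (Q * (1 + |v|)) ^ a := by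
      intro v
      rw [hfv]
      refine (hline _).trans ?_
      have := hcomp v
      gcongr
    set G : Set ℝ := {v : ℝ | v ∈ Icc (-(η / 2)) (η / 2) ∧
      ‖F (1 / 2 + ((t₀ + v : ℝ) : ℂ) * I)‖ ≤ A0 * (c * (1 + |t₀ + v|)) ^ e0} with hGdef
    have hGs : G ⊆ Icc (-(η / 2)) (η / 2) := fun v hv => hv.1
    have hGc : IsCompact G := by
      refine isCompact_Icc.of_isClosed_subset ?_ hGs
      have h1 : Continuous fun v : ℝ => F (1 / 2 + ((t₀ + v : ℝ) : ℂ) * I) := by
        have hFc : ContinuousOn F {s : ℂ | 0 < s.re} := hF.continuousOn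
        refine hFc.comp_continuous (by fun_prop) fun v => ?_
        show 0 < (1 / 2 + ((t₀ + v : ℝ) : ℂ) * I : ℂ).re
        simp
      have h2 : Continuous fun v : ℝ => A0 * (c * (1 + |t₀ + v|)) ^ e0 := by
        refine continuous_const.mul (Continuous.rpow_const (by fun_prop) fun v => Or.inl ?_)
        positivity
      exact isClosed_Icc.inter (isClosed_le h1.norm h2)
    have hGp : ∀ v ∈ G, ‖f (v * I)‖ ≤ B * (Q * (1 + |v|)) ^ e0 := by
      intro v hv
      rw [hfv]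
      refine hv.2.trans ?_
      have := hcomp v
      gcongr
    have hR1 := fun u => right_line hf_diff hQ1 (by linarith : (0:ℝ) ≤ A) hfgrow hη hη4 he0 hea
      hak hB0 hfline hGc hGs hGp hG u
    have hb : a - (a - e0) * (ρ / (29 / 4 * Real.pi)) = a - 3 * κ := by
      rw [hκ, hω]; ring
    set Cst : ℝ := 2 ^ (D + 1) + Real.exp (((k + D : ℕ) : ℝ) ^ 2 / 16) with hCst
    have hR := fun u => right_line_gauss (f := f) (D := D) hQ1 hΛ hη hη4 hB0 hκ0 hlarge rfl hb hCst
      u (hR1 u).1 (hR1 u).2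
    have hL : ∀ u : ℝ, ‖f (((-η : ℝ) : ℂ) + u * I)‖ ≤
          A * (Q ^ (d * η) * (1 + |u|) ^ D) * ‖f (η + u * I)‖ := by
      intro u
      have h3 := hrefl (t₀ + u)
      have e3 : (1 / 2 - η + ((t₀ + u : ℝ) : ℂ) * I : ℂ) =
          1 / 2 + t₀ * I + (((-η : ℝ) : ℂ) + u * I) := by push_cast; ring
      have e4 : (1 / 2 + η + ((t₀ + u : ℝ) : ℂ) * I : ℂ) =
          1 / 2 + t₀ * I + ((η : ℂ) + u * I) := by push_cast; ring
      rw [e3, e4] at h3
      have h5 := hcomp u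
      have hu1 : 1 ≤ 1 + |u| := by have := abs_nonneg u; linarith
      have hdη : 0 ≤ d * η := by positivity
      have h6 : (c * (1 + |t₀ + u|)) ^ (d * η) ≤ Q ^ (d * η) * (1 + |u|) ^ D := by
        calc (c * (1 + |t₀ + u|)) ^ (d * η) ≤ (Q * (1 + |u|)) ^ (d * η) :=
              Real.rpow_le_rpow (by positivity) h5 hdη
          _ = Q ^ (d * η) * (1 + |u|) ^ (d * η) := Real.mul_rpow hQ0.le (by linarith)
          _ ≤ Q ^ (d * η) * (1 + |u|) ^ D := by
              rw [← Real.rpow_natCast (1 + |u|) D]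
              have := Real.rpow_le_rpow_of_exponent_le hu1 hD
              gcongr
      calc ‖f (((-η : ℝ) : ℂ) + u * I)‖ ≤
            A * (c * (1 + |t₀ + u|)) ^ (d * η) * ‖f (η + u * I)‖ := h3
        _ ≤ _ := by gcongr
    have hCst0 : 0 < Cst := by rw [hCst]; positivity
    have hfin := strip_part hf_diff hQ1 hA hfgrow hΛ hd hη hη4 hB0 hκ0 hlarge rfl hCst0 hR hL
    have e0 : f 0 = F (1 / 2 + t₀ * I) := by simp [hf]
    rw [e0] at hfin
    refine hfin.trans ?_
    rw [ha'κ]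
    refine mul_le_mul_of_nonneg_right ?_ (by positivity)
    unfold Kst
    rw [← hω, ← hκ, ← hCst]
    linarith

end step

section family

variable {ι : Type*} {F : ι → ℂ → ℂ} {c : ι → ℝ}

/-- Hypotheses on a family of functions: holomorphy, polynomial growth and the consequence of a
functional equation of degree `d`. -/
structure Admissible (F : ι → ℂ → ℂ) (c : ι → ℝ) (d A : ℝ) (k : ℕ) : Prop where
  one_le_c : ∀ i, 1 ≤ c i
  one_le_A : 1 ≤ A
  d_nonneg : 0 ≤ d
  diff : ∀ i, DifferentiableOn ℂ (F i) {s | 0 < s.re}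
  grow : ∀ i, ∀ s : ℂ, 1 / 4 ≤ s.re → ‖F i s‖ ≤ A * (c i * (1 + |s.im|)) ^ k
  refl : ∀ i, ∀ x t : ℝ, 0 < x → x ≤ 1 / 4 → ‖F i (1 / 2 - x + t * I)‖ ≤
      A * (c i * (1 + |t|)) ^ (d * x) * ‖F i (1 / 2 + x + t * I)‖

/-- The Lindelof bound with exponent `a` for all members of the family. -/
def Bound (F : ι → ℂ → ℂ) (c : ι → ℝ) (a : ℝ) : Prop :=
  ∃ B : ℝ, ∀ (i : ι) (t : ℝ), ‖F i (1 / 2 + t * I)‖ ≤ B * (c i * (1 + |t|)) ^ a

/-- Every interval of length `η` has a subset of measure at least `m` on which the bound with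
exponent `e` (and constant `A0`) holds, for large analytic conductor. -/
def Windows (F : ι → ℂ → ℂ) (c : ι → ℝ) (A0 e η m : ℝ) : Prop :=
  ∃ K : ℝ, ∀ (i : ι) (t : ℝ), K ≤ c i * (1 + |t|) →
    m ≤ volume.real {u : ℝ | u ∈ Icc t (t + η) ∧
      ‖F i (1 / 2 + u * I)‖ ≤ A0 * (c i * (1 + |u|)) ^ e}

lemma Q_ge_one {d A : ℝ} {k : ℕ} (h : Admissible F c d A k) (i : ι) (t : ℝ) :
    1 ≤ c i * (1 + |t|) := by
  have h1 := h.one_le_c i
  have h2 := abs_nonneg t
  nlinarith

lemma Bound.mono {d A : ℝ} {k : ℕ} (h : Admissible F c d A k) {a b : ℝ} (hab : a ≤ b)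
    (hB : Bound F c a) : Bound F c b := by
  obtain ⟨B, hB⟩ := hB
  refine ⟨max B 0, fun i t => (hB i t).trans ?_⟩
  have h1 := Q_ge_one h i t
  have h2 := Real.rpow_le_rpow_of_exponent_le h1 hab
  calc B * (c i * (1 + |t|)) ^ a ≤ max B 0 * (c i * (1 + |t|)) ^ a := by
        have : 0 ≤ (c i * (1 + |t|)) ^ a := by positivity
        gcongr
        exact le_max_left _ _
    _ ≤ _ := by
        have : 0 ≤ max B 0 := le_max_right _ _
        gcongr

lemma vol_shift (S : Set ℝ) (t₀ : ℝ) :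
    volume.real {v : ℝ | t₀ + v ∈ S} = volume.real S := by
  have h : {v : ℝ | t₀ + v ∈ S} = (fun v => t₀ + v) ⁻¹' S := rfl
  rw [h, measureReal_def, measure_preimage_add, measureReal_def]

theorem family_step {d A A0 e0 ρ η a : ℝ} {k : ℕ} (h : Admissible F c d A k)
    (hη : 0 < η) (hη4 : η ≤ 1 / 4) (he0 : 0 ≤ e0) (hea : e0 < a) (hak : a ≤ k) (hρ : 0 < ρ)
    (hρ1 : ρ ≤ 1) (hW : Windows F c A0 e0 η (ρ * η)) (hB : Bound F c a) :
    Bound F c (a - 2 / 3 * (ρ / (29 / 4 * Real.pi)) * (a - e0) + d * η / 2) := by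
  obtain ⟨B, hB⟩ := hB
  obtain ⟨K, hK⟩ := hW
  set B' := max (max B A0) 1 with hB'
  have hB'1 : 1 ≤ B' := le_max_right _ _
  have hBB' : B ≤ B' := (le_max_left _ _).trans (le_max_left _ _)
  have hAB' : A0 ≤ B' := (le_max_right _ _).trans (le_max_left _ _)
  set D := ⌈d * η⌉₊ with hD
  have hDη : d * η ≤ D := Nat.le_ceil _
  set a' := a - 2 / 3 * (ρ / (29 / 4 * Real.pi)) * (a - e0) + d * η / 2 with ha'
  have hpi := Real.pi_pos
  have hω1 : ρ / (29 / 4 * Real.pi) ≤ 1 := by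
    rw [div_le_one (by positivity)]
    have := Real.pi_gt_three
    nlinarith
  have hω0 : 0 < ρ / (29 / 4 * Real.pi) := by positivity
  have ha'0 : 0 ≤ a' := by
    have h1 : 2 / 3 * (ρ / (29 / 4 * Real.pi)) * (a - e0) ≤ a - e0 := by
      have : 0 < a - e0 := by linarith
      nlinarith
    have h2 : 0 ≤ d * η / 2 := by have := h.d_nonneg; positivity
    rw [ha']; linarith
  set K1 := Kst A B' a e0 ρ k D with hK1
  set K2 := B' * (2 * max K 0 + 1) ^ a with hK2
  have hA := h.one_le_A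
  have ha0 : 0 ≤ a := by linarith
  have hK10 : 0 ≤ K1 := by
    rw [hK1]; unfold Kst; positivity
  have hK20 : 0 ≤ K2 := by
    rw [hK2]
    have : 0 ≤ max K 0 := le_max_right _ _
    positivity
  have hline : ∀ (i : ι) (t : ℝ), ‖F i (1 / 2 + t * I)‖ ≤ B' * (c i * (1 + |t|)) ^ a := by
    intro i t
    refine (hB i t).trans ?_
    have h1 := Q_ge_one h i t
    gcongr
  refine ⟨K1 + K2, fun i t => ?_⟩
  have hQ1 := Q_ge_one h i t
  have hQa' : 1 ≤ (c i * (1 + |t|)) ^ a' := Real.one_le_rpow hQ1 ha'0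
  rcases le_or_gt (2 * max K 0) (c i * (1 + |t|)) with hbig | hsmall
  · -- the windows hypothesis applies at `t - η/2`
    have hc := h.one_le_c i
    have hKt : K ≤ c i * (1 + |t - η / 2|) := by
      have h1 : |t| ≤ |t - η / 2| + η / 2 := by
        calc |t| = |(t - η / 2) + η / 2| := by ring_nf
          _ ≤ |t - η / 2| + |η / 2| := abs_add_le _ _
          _ = _ := by rw [abs_of_pos (by linarith : 0 < η / 2)]
      have h2 : 1 + |t| ≤ 2 * (1 + |t - η / 2|) := by
        have := abs_nonneg (t - η / 2)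
        linarith
      have h3 : c i * (1 + |t|) ≤ c i * (2 * (1 + |t - η / 2|)) := by gcongr
      have h4 : K ≤ max K 0 := le_max_left _ _
      linarith
    have hw := hK i (t - η / 2) hKt
    have hset : {v : ℝ | t + v ∈ {u : ℝ | u ∈ Icc (t - η / 2) (t - η / 2 + η) ∧
        ‖F i (1 / 2 + u * I)‖ ≤ A0 * (c i * (1 + |u|)) ^ e0}} =
        {v : ℝ | v ∈ Icc (-(η / 2)) (η / 2) ∧
        ‖F i (1 / 2 + ((t + v : ℝ) : ℂ) * I)‖ ≤ A0 * (c i * (1 + |t + v|)) ^ e0} := by
      ext v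
      constructor
      · rintro ⟨⟨h1, h2⟩, h3⟩
        exact ⟨⟨by linarith, by linarith⟩, h3⟩
      · rintro ⟨⟨h1, h2⟩, h3⟩
        exact ⟨⟨by linarith, by linarith⟩, h3⟩
    rw [← vol_shift _ t, hset] at hw
    have hst := step (h.diff i) hc hA (h.grow i) hη hη4 h.d_nonneg hDη
      (fun s => h.refl i η s hη hη4) he0 hea hak hAB' hB'1 hρ hρ1 (hline i) t hw
    refine hst.trans ?_
    rw [← hK1]
    refine mul_le_mul_of_nonneg_right (by linarith) (by positivity)
  · have h1 := hline i t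
    have h2 : (c i * (1 + |t|)) ^ a ≤ (2 * max K 0 + 1) ^ a := by
      apply Real.rpow_le_rpow (by linarith) (by linarith) ha0
    calc ‖F i (1 / 2 + t * I)‖ ≤ B' * (c i * (1 + |t|)) ^ a := h1
      _ ≤ K2 := by rw [hK2]; gcongr
      _ ≤ (K1 + K2) * 1 := by linarith
      _ ≤ _ := by gcongr

/-- **Main theorem for families.** -/
theorem family_main {d A A0 e0 ρ η a : ℝ} {k : ℕ} (h : Admissible F c d A k)
    (hη : 0 < η) (hη4 : η ≤ 1 / 4) (he0 : 0 ≤ e0) (hρ : 0 < ρ)
    (hρ1 : ρ ≤ 1) (hW : Windows F c A0 e0 η (ρ * η))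
    (ha : e0 + 87 / 16 * Real.pi * (d * η / ρ) < a) : Bound F c a := by
  have hpi := Real.pi_pos
  set θ := 2 / 3 * (ρ / (29 / 4 * Real.pi)) with hθ
  have hθ0 : 0 < θ := by positivity
  have hθ1 : θ ≤ 2 / 3 := by
    have hω1 : ρ / (29 / 4 * Real.pi) ≤ 1 := by
      rw [div_le_one (by positivity)]
      have := Real.pi_gt_three
      nlinarith
    rw [hθ]; linarith
  set as := e0 + 87 / 16 * Real.pi * (d * η / ρ) with has
  have hdη : 0 ≤ d * η := by have := h.d_nonneg; positivity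
  have hase : e0 ≤ as := by
    rw [has]
    have : 0 ≤ 87 / 16 * Real.pi * (d * η / ρ) := by positivity
    linarith
  -- fixed point equation
  have hfix : ∀ x : ℝ, x - θ * (x - e0) + d * η / 2 = as + (1 - θ) * (x - as) := by
    intro x
    have : θ * (as - e0) = d * η / 2 := by
      rw [has, hθ]
      field_simp
      ring
    linear_combination (-1 : ℝ) * this
  have hB0 : Bound F c k := by
    refine ⟨A, fun i t => ?_⟩
    have := h.grow i (1 / 2 + t * I) (by simp; norm_num)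
    simpa using this
  by_cases hk : (k : ℝ) ≤ a
  · exact hB0.mono h hk
  push Not at hk
  -- the sequence of exponents
  set x : ℕ → ℝ := fun n => as + (1 - θ) ^ n * (k - as) with hx
  have hkas : 0 < (k : ℝ) - as := by linarith
  have hxas : ∀ n, as < x n := by
    intro n
    have : 0 < (1 - θ) ^ n * ((k : ℝ) - as) := by
      have : 0 < 1 - θ := by linarith
      positivity
    simp only [hx]; linarith
  have hxk : ∀ n, x n ≤ k := by
    intro n
    have h1 : (1 - θ) ^ n ≤ 1 := pow_le_one₀ (by linarith) (by linarith)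
    simp only [hx]
    nlinarith
  have hall : ∀ n, Bound F c (x n) := by
    intro n
    induction n with
    | zero => simpa [hx] using hB0
    | succ n ih =>
      have h1 := family_step h hη hη4 he0 (lt_of_le_of_lt hase (hxas n)) (hxk n) hρ hρ1 hW ih
      have h2 : x n - 2 / 3 * (ρ / (29 / 4 * Real.pi)) * (x n - e0) + d * η / 2 = x (n + 1) := by
        rw [← hθ, hfix]
        simp only [hx]
        ring
      rwa [h2] at h1
  have hlim : Tendsto x atTop (𝓝 as) := by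
    have h1 : Tendsto (fun n : ℕ => (1 - θ) ^ n) atTop (𝓝 0) :=
      tendsto_pow_atTop_nhds_zero_of_lt_one (by linarith) (by linarith)
    have h2 := (h1.mul_const ((k : ℝ) - as)).const_add as
    simpa [hx] using h2
  obtain ⟨n, hn⟩ := (hlim.eventually (gt_mem_nhds ha)).exists
  exact (hall n).mono h hn.le

end family

end Pool.Agent.H23.GLH
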