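import Pool.Agent.H23.GLH.GammaStrip
import Pool.Agent.H23.GLH.Family
import Pool.Agent.Ratios.ZetaPart

/-! Primitive Dirichlet `L`-functions: the functional equation as an inequality. -/

set_option autoImplicit false

open Complex MeasureTheory Set Filter Topology

namespace Pool.Agent.H23.GLH

open DirichletCharacter

section

variable {N : ℕ} [NeZero N] (χ : DirichletCharacter ℂ N)

lemma isPrimitive_inv (hχ : χ.IsPrimitive) : (χ⁻¹).IsPrimitive := by
  rw [isPrimitive_def, conductor_inv]; exact hχ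

lemma completed_two_ne_zero : completedLFunction χ 2 ≠ 0 := by
  intro h0
  have hL : χ.LFunction 2 ≠ 0 :=
    DirichletCharacter.LFunction_ne_zero_of_one_le_re _ (Or.inr (by norm_num)) (by norm_num)
  have h3 := LFunction_eq_completed_div_gammaFactor χ 2 (Or.inl two_ne_zero)
  rw [h0, zero_div] at h3
  exact hL h3

lemma rootNumber_mul_inv (hχ : χ.IsPrimitive) : rootNumber χ * rootNumber χ⁻¹ = 1 := by
  have hN : (N : ℂ) ≠ 0 := Nat.cast_ne_zero.mpr (NeZero.ne N)
  have h1 := hχ.completedLFunction_one_sub (-1)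
  have h2 := (isPrimitive_inv χ hχ).completedLFunction_one_sub 2
  rw [inv_inv] at h2
  rw [show (1 : ℂ) - -1 = 2 by norm_num] at h1
  rw [show (1 : ℂ) - 2 = -1 by norm_num] at h2
  rw [h2] at h1
  have hpow : (N : ℂ) ^ ((-1 : ℂ) - 1 / 2) * (N : ℂ) ^ ((2 : ℂ) - 1 / 2) = 1 := by
    rw [← cpow_add _ _ hN]
    norm_num
  have h4 : completedLFunction χ 2 * 1 =
      completedLFunction χ 2 * (rootNumber χ * rootNumber χ⁻¹) := by
    linear_combination h1 + hpow * (completedLFunction χ 2 * (rootNumber χ * rootNumber χ⁻¹))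
  exact (mul_left_cancel₀ (completed_two_ne_zero χ) h4).symm

lemma norm_gaussSum_inv : ‖gaussSum χ⁻¹ (ZMod.stdAddChar (N := N))‖ =
    ‖gaussSum χ (ZMod.stdAddChar (N := N))‖ := by
  have h1 := star_gaussSum_eq χ (ZMod.stdAddChar (N := N))
  have h2 : gaussSum χ⁻¹ (ZMod.stdAddChar (N := N))⁻¹ =
      χ (-1) * gaussSum χ⁻¹ (ZMod.stdAddChar (N := N)) := by
    have h := gaussSum_mulShift_eq χ⁻¹ (ZMod.stdAddChar (N := N)) (-1 : (ZMod N)ˣ)
    rw [AddChar.inv_mulShift]
    simpa using h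
  have h3 : ‖χ (-1)‖ = 1 := by
    have := DirichletCharacter.unit_norm_eq_one χ (-1 : (ZMod N)ˣ)
    simpa using this
  rw [h2] at h1
  have h4 := congrArg norm h1
  rw [norm_star, norm_mul, h3, one_mul] at h4
  exact h4.symm

lemma norm_rootNumber_inv : ‖rootNumber χ⁻¹‖ = ‖rootNumber χ‖ := by
  classical
  unfold rootNumber
  rw [norm_div, norm_div, norm_div, norm_div, norm_gaussSum_inv]
  congr 2
  rw [norm_pow, norm_pow, Complex.norm_I, one_pow, one_pow]

lemma norm_rootNumber (hχ : χ.IsPrimitive) : ‖rootNumber χ‖ = 1 := by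
  have h := congrArg norm (rootNumber_mul_inv χ hχ)
  rw [norm_mul, norm_rootNumber_inv, norm_one] at h
  have h0 := norm_nonneg (rootNumber χ)
  nlinarith

lemma norm_cos_le (z : ℂ) : ‖Complex.cos z‖ ≤ Real.exp |z.im| := by
  rw [Complex.cos, norm_div]
  have h1 : ‖cexp (z * I)‖ ≤ Real.exp |z.im| := by
    rw [Complex.norm_exp]
    apply Real.exp_le_exp.mpr
    simp only [mul_re, I_re, mul_zero, I_im, mul_one, zero_sub]
    exact neg_le_abs _
  have h2 : ‖cexp (-z * I)‖ ≤ Real.exp |z.im| := by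
    rw [Complex.norm_exp]
    apply Real.exp_le_exp.mpr
    simp only [neg_mul, neg_re, mul_re, I_re, mul_zero, I_im, mul_one, zero_sub, neg_neg]
    exact le_abs_self _
  have h3 := norm_add_le (cexp (z * I)) (cexp (-z * I))
  have h4 : ‖(2 : ℂ)‖ = 2 := by simp
  rw [h4, div_le_iff₀ (by norm_num)]
  linarith

lemma norm_sin_le (z : ℂ) : ‖Complex.sin z‖ ≤ Real.exp |z.im| := by
  rw [← Complex.cos_pi_div_two_sub]
  refine (norm_cos_le _).trans (le_of_eq ?_)
  congr 1
  have : ((Real.pi : ℂ) / 2 - z).im = -z.im := by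
    rw [sub_im]
    have : ((Real.pi : ℂ) / 2).im = 0 := by
      rw [show (Real.pi : ℂ) / 2 = ((Real.pi / 2 : ℝ) : ℂ) by push_cast; ring, ofReal_im]
    rw [this]; ring
  rw [this, abs_neg]

/-- The asymmetric functional equation. -/
lemma LFunction_one_sub_eq (hχ : χ.IsPrimitive) {s : ℂ} (hs : 0 < s.re) (hs1 : s.re < 1) :
    ∃ T : ℂ, ‖T‖ ≤ Real.exp |(Real.pi * s / 2 : ℂ).im| ∧
      χ.LFunction (1 - s) = (N : ℂ) ^ (s - 1 / 2) * rootNumber χ * (Gammaℂ s * T) *
        (χ⁻¹).LFunction s := by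
  have hs0 : s ≠ 0 := by rintro rfl; simp at hs
  have h1s : 1 - s ≠ 0 := by
    intro h
    have := congrArg Complex.re h
    simp at this
    linarith
  have hfe := hχ.completedLFunction_one_sub s
  have h1 := LFunction_eq_completed_div_gammaFactor χ (1 - s) (Or.inl h1s)
  have h2 := LFunction_eq_completed_div_gammaFactor χ⁻¹ s (Or.inl hs0)
  have hsn : ∀ n : ℕ, s ≠ -n := by
    intro n h
    rw [h] at hs
    simp at hs
    have : (0:ℝ) ≤ n := Nat.cast_nonneg n
    linarith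
  rcases χ.even_or_odd with he | ho
  · have he' : (χ⁻¹).Even := by
      rw [DirichletCharacter.Even] at he ⊢
      rw [MulChar.inv_apply_eq_inv', he, inv_one]
    refine ⟨Complex.cos (Real.pi * s / 2), norm_cos_le _, ?_⟩
    have hγ0 : Gammaℝ s ≠ 0 := Gammaℝ_ne_zero_of_re_pos hs
    rw [he.gammaFactor_def] at h1
    rw [he'.gammaFactor_def] at h2
    have h3 : completedLFunction χ⁻¹ s = (χ⁻¹).LFunction s * Gammaℝ s := by
      rw [h2, div_mul_cancel₀ _ hγ0]
    rw [h1, hfe, h3, div_eq_mul_inv, inv_Gammaℝ_one_sub hsn]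
    field_simp
  · have ho' : (χ⁻¹).Odd := by
      rw [DirichletCharacter.Odd] at ho ⊢
      rw [MulChar.inv_apply_eq_inv', ho, inv_neg, inv_one]
    refine ⟨Complex.sin (Real.pi * s / 2), norm_sin_le _, ?_⟩
    have hγ0 : Gammaℝ (s + 1) ≠ 0 := Gammaℝ_ne_zero_of_re_pos (by simp; linarith)
    rw [ho.gammaFactor_def, show (1 : ℂ) - s + 1 = 2 - s by ring] at h1
    rw [ho'.gammaFactor_def] at h2
    have h3 : completedLFunction χ⁻¹ s = (χ⁻¹).LFunction s * Gammaℝ (s + 1) := by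
      rw [h2, div_mul_cancel₀ _ hγ0]
    rw [h1, hfe, h3, div_eq_mul_inv, inv_Gammaℝ_two_sub hsn]
    field_simp

/-- The constant in the functional inequality. -/
noncomputable def AΓ : ℝ := 8 * Real.sqrt (2 * Real.pi) * Real.exp (9 / 4)

lemma AΓ_pos : 0 < AΓ := by
  unfold AΓ
  have := Real.pi_pos
  positivity

lemma functional_ineq (hχ : χ.IsPrimitive) (x t : ℝ) (hx : 0 < x) (hx4 : x ≤ 1 / 4) :
    ‖χ.LFunction (1 / 2 - x + t * I)‖ ≤ AΓ * (N * (1 + |t|)) ^ x *
      ‖(χ⁻¹).LFunction (1 / 2 + x - t * I)‖ := by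
  set s : ℂ := 1 / 2 + x - t * I with hs
  have hre : s.re = 1 / 2 + x := by simp [hs]
  have him : s.im = -t := by simp [hs]
  have e1 : (1 / 2 - x + t * I : ℂ) = 1 - s := by rw [hs]; ring
  obtain ⟨T, hT, hfe⟩ := LFunction_one_sub_eq χ hχ (s := s) (by rw [hre]; linarith)
    (by rw [hre]; linarith)
  rw [e1, hfe, norm_mul, norm_mul, norm_mul, norm_mul, norm_rootNumber χ hχ, mul_one]
  have hN : (0:ℝ) < N := by exact_mod_cast NeZero.pos N
  have h1 : ‖(N : ℂ) ^ (s - 1 / 2)‖ = (N : ℝ) ^ x := by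
    rw [Complex.norm_natCast_cpow_of_pos (NeZero.pos N)]
    congr 1
    rw [sub_re, hre]; simp
  have him2 : (Real.pi * s / 2 : ℂ).im = -(Real.pi * t / 2) := by
    have : (Real.pi * s / 2 : ℂ) = ((Real.pi / 2 : ℝ) : ℂ) * s := by push_cast; ring
    rw [this, im_ofReal_mul, him]; ring
  have hpi := Real.pi_pos
  have hT' : ‖T‖ ≤ Real.exp (Real.pi * |t| / 2) := by
    refine hT.trans (le_of_eq ?_)
    rw [him2, abs_neg, abs_div, abs_mul, abs_of_pos hpi, abs_of_pos (by norm_num : (0:ℝ) < 2)]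
  have hΓ : ‖Gammaℂ s‖ ≤ 2 * (4 * Real.sqrt (2 * Real.pi) * Real.exp (9 / 4) *
      (1 + |t|) ^ x * Real.exp (-(Real.pi * |t| / 2))) := by
    rw [Gammaℂ_def, norm_mul, norm_mul]
    have h2 : ‖(2 : ℂ)‖ = 2 := by simp
    have h3 : ‖(2 * (Real.pi : ℂ)) ^ (-s)‖ ≤ 1 := by
      have : (2 * (Real.pi : ℂ)) = ((2 * Real.pi : ℝ) : ℂ) := by push_cast; ring
      rw [this, Complex.norm_cpow_eq_rpow_re_of_pos (by positivity), neg_re, hre]
      apply Real.rpow_le_one_of_one_le_of_nonpos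
      · have := Real.pi_gt_three; linarith
      · linarith
    have h4 : s = ((1 / 2 + x : ℝ) : ℂ) + ((-t : ℝ) : ℂ) * I := by
      rw [hs]; push_cast; ring
    have h5 := norm_Gamma_strip (1 / 2 + x) (-t) (by linarith) (by linarith)
    rw [← h4, abs_neg] at h5
    have e5 : 1 / 2 + x - 1 / 2 = x := by ring
    rw [e5] at h5
    rw [h2]
    calc 2 * ‖(2 * (Real.pi : ℂ)) ^ (-s)‖ * ‖Gamma s‖ ≤ 2 * 1 * ‖Gamma s‖ := by gcongr
      _ = 2 * ‖Gamma s‖ := by ring
      _ ≤ _ := by gcongr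
  have ht := abs_nonneg t
  rw [h1]
  have hprod : ‖Gammaℂ s‖ * ‖T‖ ≤ AΓ * (1 + |t|) ^ x := by
    calc ‖Gammaℂ s‖ * ‖T‖ ≤ (2 * (4 * Real.sqrt (2 * Real.pi) * Real.exp (9 / 4) *
          (1 + |t|) ^ x * Real.exp (-(Real.pi * |t| / 2)))) * Real.exp (Real.pi * |t| / 2) := by
          gcongr
      _ = AΓ * (1 + |t|) ^ x * (Real.exp (-(Real.pi * |t| / 2)) * Real.exp (Real.pi * |t| / 2)) := by
          unfold AΓ; ring
      _ = _ := by rw [← Real.exp_add]; simp
  rw [Real.mul_rpow hN.le (by linarith)]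
  have hL := norm_nonneg ((χ⁻¹).LFunction s)
  calc (N : ℝ) ^ x * (‖Gammaℂ s‖ * ‖T‖) * ‖(χ⁻¹).LFunction s‖
      ≤ (N : ℝ) ^ x * (AΓ * (1 + |t|) ^ x) * ‖(χ⁻¹).LFunction s‖ := by gcongr
    _ = _ := by ring

/-- Complex conjugation. -/
lemma LFunction_conj {s : ℂ} (hs : s ≠ 1) :
    (χ⁻¹).LFunction ((starRingEnd ℂ) s) = (starRingEnd ℂ) (χ.LFunction s) := by
  set U : Set ℂ := {1}ᶜ with hU
  have hUo : IsOpen U := isOpen_compl_singleton
  have hconn : IsPreconnected U := by
    have : IsConnected U := isConnected_compl_singleton_of_one_lt_rank (by simp) 1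
    exact this.isPreconnected
  set f : ℂ → ℂ := fun s => (starRingEnd ℂ) ((χ⁻¹).LFunction ((starRingEnd ℂ) s)) with hf
  have hfd : DifferentiableOn ℂ f U := by
    intro z hz
    have hz1 : (starRingEnd ℂ) z ≠ 1 := by
      intro h
      apply hz
      have := congrArg (starRingEnd ℂ) h
      simpa using this
    have h1 : DifferentiableAt ℂ (χ⁻¹).LFunction ((starRingEnd ℂ) z) :=
      differentiableAt_LFunction _ _ (Or.inl hz1)
    have h2 := h1.conj_conj
    have e : (starRingEnd ℂ) ((starRingEnd ℂ) z) = z := conj_conj z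
    rw [e] at h2
    exact h2.differentiableWithinAt
  have hgd : DifferentiableOn ℂ χ.LFunction U := fun z hz =>
    (differentiableAt_LFunction _ _ (Or.inl hz)).differentiableWithinAt
  have hev : f =ᶠ[𝓝 (2 : ℂ)] χ.LFunction := by
    have hopen : {s : ℂ | 1 < s.re} ∈ 𝓝 (2 : ℂ) :=
      (isOpen_lt continuous_const Complex.continuous_re).mem_nhds (by simp)
    filter_upwards [hopen] with z hz
    have hz' : 1 < z.re := hz
    simp only [hf]
    rw [LFunction_eq_LSeries χ hz', LFunction_eq_LSeries χ⁻¹ (by simpa using hz')]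
    unfold LSeries
    have hc : (starRingEnd ℂ) (∑' n, LSeries.term (fun n => (χ⁻¹) (n : ZMod N))
        ((starRingEnd ℂ) z) n) = ∑' n, (starRingEnd ℂ) (LSeries.term
        (fun n => (χ⁻¹) (n : ZMod N)) ((starRingEnd ℂ) z) n) :=
      Complex.conjCLE.map_tsum
    rw [hc]
    congr 1
    funext n
    rcases Nat.eq_zero_or_pos n with rfl | hn
    · simp
    · rw [LSeries.term_of_ne_zero hn.ne', LSeries.term_of_ne_zero hn.ne', map_div₀]
      congr 1
      · have := MulChar.star_apply' χ (n : ZMod N)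
        rw [← this]
        simp
      · rw [cpow_conj (n : ℂ) z (by rw [Complex.natCast_arg]; exact Real.pi_pos.ne), conj_conj]
        simp
  have key := (hfd.analyticOnNhd hUo).eqOn_of_preconnected_of_eventuallyEq
    (hgd.analyticOnNhd hUo) hconn (show (2 : ℂ) ∈ U by simp [hU]) hev (show s ∈ U from hs)
  have := congrArg (starRingEnd ℂ) key
  simpa [hf] using this

/-- The functional inequality for one character. -/
theorem functional_ineq' (hχ : χ.IsPrimitive) (x t : ℝ) (hx : 0 < x) (hx4 : x ≤ 1 / 4) :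
    ‖χ.LFunction (1 / 2 - x + t * I)‖ ≤ AΓ * (N * (1 + |t|)) ^ x *
      ‖χ.LFunction (1 / 2 + x + t * I)‖ := by
  have h := functional_ineq χ hχ x t hx hx4
  have hs : (1 / 2 + x + t * I : ℂ) ≠ 1 := by
    intro h
    have := congrArg Complex.re h
    simp at this
    linarith
  have hc := LFunction_conj χ hs
  have e : (starRingEnd ℂ) (1 / 2 + x + t * I : ℂ) = 1 / 2 + x - t * I := by
    rw [map_add, map_add, map_mul, conj_I, conj_ofReal, conj_ofReal, map_div₀, map_one,
      map_ofNat]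
    ring
  rw [e] at hc
  rw [hc, RCLike.norm_conj] at h
  exact h

end

end Pool.Agent.H23.GLH
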