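import Mathlib

/-! Choice of well spaced points in windows. -/

set_option autoImplicit false

open Set MeasureTheory

namespace Pool.Agent.H23.GLH

/-- The sum `∑_{j ≤ J} log (J / j) = J log J - log J!`. -/
noncomputable def ell (J : ℕ) : ℝ := ∑ j ∈ Finset.range J, Real.log ((J : ℝ) / (j + 1))

lemma ell_nonneg (J : ℕ) : 0 ≤ ell J := by
  refine Finset.sum_nonneg fun j hj => Real.log_nonneg ?_
  rw [one_le_div (by positivity)]
  have := Finset.mem_range.mp hj
  exact_mod_cast this

lemma ell_succ {J : ℕ} (hJ : 0 < J) :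
    ell (J + 1) = ell J + J * (Real.log (J + 1) - Real.log J) := by
  unfold ell
  rw [Finset.sum_range_succ]
  have hJ' : (0:ℝ) < J := by exact_mod_cast hJ
  have h1 : Real.log (((J + 1 : ℕ) : ℝ) / ((J : ℝ) + 1)) = 0 := by
    push_cast
    rw [div_self (by positivity), Real.log_one]
  rw [h1, add_zero]
  have h2 : ∀ j ∈ Finset.range J, Real.log (((J + 1 : ℕ) : ℝ) / ((j : ℝ) + 1)) =
      Real.log ((J : ℝ) / (j + 1)) + (Real.log (J + 1) - Real.log J) := by
    intro j _
    rw [Real.log_div (by positivity) (by positivity), Real.log_div (by positivity) (by positivity)]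
    push_cast
    ring
  rw [Finset.sum_congr rfl h2, Finset.sum_add_distrib, Finset.sum_const, Finset.card_range,
    nsmul_eq_mul]

lemma ell_ge {J : ℕ} (hJ : 0 < J) : (J : ℝ) - 1 - Real.log J ≤ ell J := by
  induction J, hJ using Nat.le_induction with
  | base => simp [ell]
  | succ J hJ ih =>
    have hJ' : (0:ℝ) < J := by exact_mod_cast hJ
    rw [ell_succ hJ]
    push_cast
    have h1 : Real.log ((J : ℝ) / (J + 1)) ≤ (J : ℝ) / (J + 1) - 1 :=
      Real.log_le_sub_one_of_pos (by positivity)
    rw [Real.log_div (by positivity) (by positivity)] at h1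
    have h2 : (J : ℝ) / (J + 1) - 1 = -(1 / (J + 1)) := by field_simp; ring
    rw [h2] at h1
    have h3 : 1 / ((J : ℝ) + 1) * (J + 1) = 1 := by field_simp
    nlinarith

/-- The left end points of the windows. -/
noncomputable def wstart (η η' : ℝ) (p : ℕ × Bool) : ℝ :=
  if p.2 then (p.1 + 1) * η' - η else -((p.1 + 1) * η')

lemma abs_window {η η' : ℝ} (hη : 0 < η) (hη' : η < η') {p : ℕ × Bool} {v : ℝ}
    (hv : v ∈ Icc (wstart η η' p) (wstart η η' p + η)) :
    |v| ≤ (p.1 + 1) * η' ∧ η' - η ≤ |v| := by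
  obtain ⟨j, b⟩ := p
  have hj : (0:ℝ) ≤ j := Nat.cast_nonneg j
  have hη'0 : 0 < η' := by linarith
  have h0 : 0 ≤ (j : ℝ) * η' := by positivity
  cases b
  · simp only [wstart, Bool.false_eq_true, if_false] at hv
    have hneg : v ≤ 0 := by linarith [hv.2]
    rw [abs_of_nonpos hneg]
    simp only
    constructor <;> linarith [hv.1, hv.2]
  · simp only [wstart, if_true] at hv
    have hpos : 0 ≤ v := by linarith [hv.1]
    rw [abs_of_nonneg hpos]
    simp only
    constructor <;> linarith [hv.1, hv.2]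

lemma sep_window {η η' : ℝ} (hη : 0 < η) (hη' : η < η') {p q : ℕ × Bool} (hpq : p ≠ q) {u v : ℝ}
    (hu : u ∈ Icc (wstart η η' p) (wstart η η' p + η))
    (hv : v ∈ Icc (wstart η η' q) (wstart η η' q + η)) : η' - η ≤ |u - v| := by
  obtain ⟨j, b⟩ := p
  obtain ⟨l, b'⟩ := q
  have hj : (0:ℝ) ≤ j := Nat.cast_nonneg j
  have hl : (0:ℝ) ≤ l := Nat.cast_nonneg l
  have hη'0 : 0 < η' := by linarith
  have h0 : 0 ≤ (j : ℝ) * η' := by positivity
  have h1 : 0 ≤ (l : ℝ) * η' := by positivity
  cases b <;> cases b'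
  · simp only [wstart, Bool.false_eq_true, if_false] at hu hv
    have hjl : j ≠ l := fun h => hpq (by rw [h])
    rcases lt_or_gt_of_ne hjl with h | h
    · have h2 : (j : ℝ) + 1 ≤ l := by exact_mod_cast h
      have h3 : ((j : ℝ) + 1) * η' ≤ l * η' := by gcongr
      rw [abs_of_nonneg (by linarith [hu.1, hv.2])]
      linarith [hu.1, hv.2]
    · have h2 : (l : ℝ) + 1 ≤ j := by exact_mod_cast h
      have h3 : ((l : ℝ) + 1) * η' ≤ j * η' := by gcongr
      rw [abs_of_nonpos (by linarith [hu.2, hv.1])]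
      linarith [hu.2, hv.1]
  · simp only [wstart, Bool.false_eq_true, if_false, if_true] at hu hv
    rw [abs_of_nonpos (by linarith [hu.2, hv.1])]
    linarith [hu.2, hv.1]
  · simp only [wstart, Bool.false_eq_true, if_false, if_true] at hu hv
    rw [abs_of_nonneg (by linarith [hu.1, hv.2])]
    linarith [hu.1, hv.2]
  · simp only [wstart, if_true] at hu hv
    have hjl : j ≠ l := fun h => hpq (by rw [h])
    rcases lt_or_gt_of_ne hjl with h | h
    · have h2 : (j : ℝ) + 1 ≤ l := by exact_mod_cast h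
      have h3 : ((j : ℝ) + 1) * η' ≤ l * η' := by gcongr
      rw [abs_of_nonpos (by linarith [hu.2, hv.1])]
      linarith [hu.2, hv.1]
    · have h2 : (l : ℝ) + 1 ≤ j := by exact_mod_cast h
      have h3 : ((l : ℝ) + 1) * η' ≤ j * η' := by gcongr
      rw [abs_of_nonneg (by linarith [hu.1, hv.2])]
      linarith [hu.1, hv.2]

/-- Union of the point sets of all windows. -/
theorem union_windows {J N : ℕ} (hJ : 0 < J) {η η' γ : ℝ} (hη : 0 < η) (hη' : η < η')
    (hγ : γ ≤ η' - η)
    (P : ℝ → Prop)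
    (h : ∀ p : ℕ × Bool, p.1 < J → ∃ Z : Finset ℝ, Z.card = N ∧
      (∀ v ∈ Z, v ∈ Icc (wstart η η' p) (wstart η η' p + η) ∧ P v) ∧
      ∀ u ∈ Z, ∀ v ∈ Z, u ≠ v → γ ≤ |u - v|) :
    ∃ Z : Finset ℝ, Z.card = 2 * J * N ∧ (∀ v ∈ Z, |v| ≤ J * η' ∧ 0 < |v| ∧ P v) ∧
      (∀ u ∈ Z, ∀ v ∈ Z, u ≠ v → γ ≤ |u - v|) ∧
      2 * N * ell J ≤ ∑ v ∈ Z, Real.log (J * η' / |v|) := by
  classical
  have hη'0 : 0 < η' := by linarith
  choose! W hW using h
  set T : Finset (ℕ × Bool) := Finset.range J ×ˢ Finset.univ with hT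
  have hTm : ∀ p ∈ T, p.1 < J := by
    intro p hp
    rw [hT, Finset.mem_product] at hp
    exact Finset.mem_range.mp hp.1
  have hdisj : ((T : Set (ℕ × Bool))).PairwiseDisjoint W := by
    intro p hp q hq hpq
    rw [Function.onFun, Finset.disjoint_left]
    intro v hv hv'
    have h1 := ((hW p (hTm p hp)).2.1 v hv).1
    have h2 := ((hW q (hTm q hq)).2.1 v hv').1
    have := sep_window hη hη' hpq h1 h2
    rw [sub_self, abs_zero] at this
    linarith
  refine ⟨T.biUnion W, ?_, ?_, ?_, ?_⟩
  · rw [Finset.card_biUnion fun p hp q hq hpq => hdisj hp hq hpq,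
      Finset.sum_congr rfl fun p hp => (hW p (hTm p hp)).1, Finset.sum_const, hT,
      Finset.card_product, Finset.card_range, Finset.card_univ, Fintype.card_bool, smul_eq_mul]
    ring
  · intro v hv
    obtain ⟨p, hp, hvp⟩ := Finset.mem_biUnion.mp hv
    obtain ⟨h1, h2⟩ := (hW p (hTm p hp)).2.1 v hvp
    obtain ⟨h3, h4⟩ := abs_window hη hη' h1
    refine ⟨h3.trans ?_, by linarith, h2⟩
    have : (p.1 : ℝ) + 1 ≤ J := by exact_mod_cast hTm p hp
    gcongr
  · intro u hu v hv huv
    obtain ⟨p, hp, hup⟩ := Finset.mem_biUnion.mp hu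
    obtain ⟨q, hq, hvq⟩ := Finset.mem_biUnion.mp hv
    by_cases hpq : p = q
    · subst hpq
      exact (hW p (hTm p hp)).2.2 u hup v hvq huv
    · have h1 := ((hW p (hTm p hp)).2.1 u hup).1
      have h2 := ((hW q (hTm q hq)).2.1 v hvq).1
      exact hγ.trans (sep_window hη hη' hpq h1 h2)
  · rw [Finset.sum_biUnion hdisj]
    have h1 : ∀ p ∈ T, (N : ℝ) * Real.log ((J : ℝ) / (p.1 + 1)) ≤
        ∑ v ∈ W p, Real.log (J * η' / |v|) := by
      intro p hp
      obtain ⟨hc, hv, _⟩ := hW p (hTm p hp)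
      have hJ' : (0:ℝ) < J := by exact_mod_cast hJ
      calc (N : ℝ) * Real.log ((J : ℝ) / (p.1 + 1))
          = ∑ v ∈ W p, Real.log ((J : ℝ) / (p.1 + 1)) := by
            rw [Finset.sum_const, hc, nsmul_eq_mul]
        _ ≤ _ := by
            apply Finset.sum_le_sum
            intro v hv'
            obtain ⟨h3, h4⟩ := abs_window hη hη' (hv v hv').1
            have hvpos : 0 < |v| := by linarith
            apply Real.log_le_log (by positivity)
            rw [div_le_div_iff₀ (by positivity) hvpos]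
            calc (J : ℝ) * |v| ≤ J * ((p.1 + 1) * η') := by gcongr
              _ = _ := by ring
    refine le_trans (le_of_eq ?_) (Finset.sum_le_sum h1)
    rw [hT, Finset.sum_product]
    simp only [Finset.sum_const, Finset.card_univ, Fintype.card_bool, nsmul_eq_mul]
    unfold ell
    rw [Finset.mul_sum]
    refine Finset.sum_congr rfl fun j _ => ?_
    push_cast
    ring

/-- Greedy choice of spaced points in a compact set of given measure. -/
theorem exists_points {γ : ℝ} (hγ : 0 < γ) (N : ℕ) : ∀ S : Set ℝ, IsCompact S →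
    N * γ ≤ volume.real S → ∃ Z : Finset ℝ, (∀ u ∈ Z, u ∈ S) ∧ Z.card = N ∧
      ∀ u ∈ Z, ∀ v ∈ Z, u ≠ v → γ ≤ |u - v| := by
  classical
  induction N with
  | zero =>
    intro S _ _
    exact ⟨∅, by simp, rfl, by simp⟩
  | succ N ih =>
    intro S hS hvol
    have hpos : 0 < volume.real S := by
      have : 0 < ((N + 1 : ℕ) : ℝ) * γ := by positivity
      linarith
    have hne : S.Nonempty := by
      rcases S.eq_empty_or_nonempty with h | h
      · rw [h] at hpos; simp at hpos
      · exact h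
    set u := sInf S with hu
    have huS : u ∈ S := hS.sInf_mem hne
    have hulb : ∀ v ∈ S, u ≤ v := fun v hv => csInf_le hS.bddBelow hv
    set S' := S ∩ Ici (u + γ) with hS'
    have hS'c : IsCompact S' := hS.inter_right isClosed_Ici
    have hsub : S ⊆ S' ∪ Ico u (u + γ) := by
      intro v hv
      rcases le_or_gt (u + γ) v with h | h
      · exact Or.inl ⟨hv, h⟩
      · exact Or.inr ⟨hulb v hv, h⟩
    have hfin : volume (S' ∪ Ico u (u + γ)) ≠ ⊤ := by
      refine (lt_of_le_of_lt (measure_union_le _ _) ?_).ne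
      rw [ENNReal.add_lt_top]
      exact ⟨hS'c.measure_lt_top, measure_Ico_lt_top⟩
    have hle : volume.real S ≤ volume.real S' + γ := by
      calc volume.real S ≤ volume.real (S' ∪ Ico u (u + γ)) := measureReal_mono hsub hfin
        _ ≤ volume.real S' + volume.real (Ico u (u + γ)) := measureReal_union_le _ _
        _ = volume.real S' + γ := by
            rw [Real.volume_real_Ico_of_le (by linarith)]
            ring
    have hvol' : (N : ℝ) * γ ≤ volume.real S' := by
      push_cast at hvol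
      linarith
    obtain ⟨Z, hZ1, hZ2, hZ3⟩ := ih S' hS'c hvol'
    have huZ : u ∉ Z := by
      intro h
      have : u + γ ≤ u := (hZ1 u h).2
      linarith
    have key : ∀ v ∈ Z, γ ≤ |u - v| := by
      intro v hv
      have : u + γ ≤ v := (hZ1 v hv).2
      rw [abs_sub_comm, abs_of_nonneg (by linarith)]
      linarith
    refine ⟨insert u Z, ?_, ?_, ?_⟩
    · intro v hv
      rcases Finset.mem_insert.mp hv with rfl | h
      · exact huS
      · exact (hZ1 v h).1
    · rw [Finset.card_insert_of_notMem huZ, hZ2]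
    · intro v hv v' hv' hne'
      rcases Finset.mem_insert.mp hv with rfl | h
      · rcases Finset.mem_insert.mp hv' with rfl | h'
        · exact absurd rfl hne'
        · exact key v' h'
      · rcases Finset.mem_insert.mp hv' with rfl | h'
        · rw [abs_sub_comm]; exact key v h
        · exact hZ3 v h v' h' hne'

end Pool.Agent.H23.GLH
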