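import Pool.Agent.H23.GLH.Conv
import Pool.Agent.H23.GLH.Points
import Pool.Agent.H23.GLH.Family

/-! The improvement step from sample points. -/

set_option autoImplicit false

open Complex MeasureTheory Set Filter Topology Metric

namespace Pool.Agent.H23.GLH

section point

variable {F : ℂ → ℂ} {c d A A0 B a w : ℝ} {k D : ℕ}

/-- The estimate at one point. -/
theorem sample_point (hF : DifferentiableOn ℂ F {s | 0 < s.re}) (hc : 1 ≤ c) (hA : 1 ≤ A)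
    (hgrow : ∀ s : ℂ, 1 / 4 ≤ s.re → ‖F s‖ ≤ A * (c * (1 + |s.im|)) ^ k)
    (hd : 0 ≤ d) (hD : d ≤ D)
    (hrefl : ∀ x t : ℝ, 0 < x → x ≤ 1 / 4 → ‖F (1 / 2 - x + t * I)‖ ≤
      A * (c * (1 + |t|)) ^ (d * x) * ‖F (1 / 2 + x + t * I)‖)
    (ha : 0 ≤ a) (hak : a ≤ k) (hB : 1 ≤ B) (hw : 1 / 4 ≤ w)
    (hline : ∀ t : ℝ, ‖F (1 / 2 + t * I)‖ ≤ B * (c * (1 + |t|)) ^ a)
    (hedge : ∀ s : ℂ, s.re = 1 / 2 + w → ‖F s‖ ≤ B) (hA0 : 0 ≤ A0)
    (t₀ : ℝ) {R e γ E C₀ : ℝ} (hR : 0 < R) (hR4 : R ≤ 1 / 4) (he : 0 ≤ e) (hγ : 0 < γ)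
    (Z : Finset ℝ) (hcard : 2 ≤ Z.card)
    (hZ : ∀ v ∈ Z, |v| ≤ R ∧
      ‖F (1 / 2 + ((t₀ + v : ℝ) : ℂ) * I)‖ ≤ A0 * (c * (1 + |t₀ + v|)) ^ e)
    (hgap : ∀ u ∈ Z, ∀ v ∈ Z, u ≠ v → γ ≤ |u - v|)
    (hC₀ : 0 ≤ C₀)
    (hP : Z.card * (A0 * (2 * (c * (1 + |t₀|))) ^ e *
      ((R + R) / (γ * ((Z.card - 1 : ℕ) : ℝ) / (2 * Real.exp 1))) ^ (Z.card - 1)) ≤
      C₀ * (c * (1 + |t₀|)) ^ E)
    (hE : 0 ≤ E) (hEa : E + |d / 2 - a / w| * R ≤ a) :
    ‖F (1 / 2 + t₀ * I)‖ ≤ (A * 2 ^ D * (4 ^ k * B) + C₀) *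
        (c * (1 + |t₀|)) ^ (a + (d / 2 - a / w) * (2 * R / Real.pi)) *
      Real.exp (-∑ v ∈ Z, Real.log (R / |v|)) + C₀ * (c * (1 + |t₀|)) ^ E := by
  classical
  set Q := c * (1 + |t₀|) with hQ
  have ht0 : 0 ≤ |t₀| := abs_nonneg _
  have hQ1 : 1 ≤ Q := by nlinarith
  have hQ0 : 0 < Q := by linarith
  have hA' : 0 ≤ A := by linarith
  have hB0 : 0 < B := by linarith
  have hcomp : ∀ v : ℝ, c * (1 + |t₀ + v|) ≤ Q * (1 + |v|) := by
    intro v
    rw [hQ, mul_assoc]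
    have := one_add_abs_add_le t₀ v
    gcongr
  set f : ℂ → ℂ := fun z => F (1 / 2 + t₀ * I + z) with hf
  have hU : IsOpen {s : ℂ | 0 < s.re} := isOpen_lt continuous_const Complex.continuous_re
  have hf_diff : ∀ z : ℂ, -(1 / 2) < z.re → DifferentiableAt ℂ f z := by
    intro z hz
    have h1 : 0 < (1 / 2 + t₀ * I + z : ℂ).re := by simp; linarith
    have h2 : DifferentiableAt ℂ F (1 / 2 + t₀ * I + z) :=
      (hF _ h1).differentiableAt (hU.mem_nhds h1)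
    exact h2.comp z ((differentiableAt_const _).add differentiableAt_id)
  have hfgrow : ∀ z : ℂ, -(1 / 4) ≤ z.re → ‖f z‖ ≤ A * (Q * (1 + |z.im|)) ^ k := by
    intro z hz
    have h1 := hgrow (1 / 2 + t₀ * I + z) (by simp; linarith)
    have h2 : (1 / 2 + t₀ * I + z : ℂ).im = t₀ + z.im := by simp
    rw [h2] at h1
    refine h1.trans ?_
    have := hcomp z.im
    gcongr
  have hfv : ∀ v : ℝ, f (v * I) = F (1 / 2 + ((t₀ + v : ℝ) : ℂ) * I) := by
    intro v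
    simp only [hf]
    congr 1
    push_cast
    ring
  have hfline : ∀ v : ℝ, ‖f (v * I)‖ ≤ B * (Q * (1 + |v|)) ^ a := by
    intro v
    rw [hfv]
    refine (hline _).trans ?_
    have := hcomp v
    gcongr
  have hfedge : ∀ z : ℂ, z.re = w → ‖f z‖ ≤ B := by
    intro z hz
    exact hedge _ (by simp; exact hz)
  have hfrefl : ∀ x y : ℝ, 0 < x → x ≤ 1 / 4 → ‖f (((-x : ℝ) : ℂ) + y * I)‖ ≤
      A * (Q * (1 + |y|)) ^ (d * x) * ‖f (x + y * I)‖ := by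
    intro x y hx hx4
    have h3 := hrefl x (t₀ + y) hx hx4
    have e3 : (1 / 2 - x + ((t₀ + y : ℝ) : ℂ) * I : ℂ) =
        1 / 2 + t₀ * I + (((-x : ℝ) : ℂ) + y * I) := by push_cast; ring
    have e4 : (1 / 2 + x + ((t₀ + y : ℝ) : ℂ) * I : ℂ) =
        1 / 2 + t₀ * I + ((x : ℂ) + y * I) := by push_cast; ring
    rw [e3, e4] at h3
    refine h3.trans ?_
    have h5 := hcomp y
    have hdx : 0 ≤ d * x := by positivity
    have h6 : (c * (1 + |t₀ + y|)) ^ (d * x) ≤ (Q * (1 + |y|)) ^ (d * x) :=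
      Real.rpow_le_rpow (by positivity) h5 hdx
    gcongr
  set K₁ := A * 2 ^ D * (4 ^ k * B) with hK₁
  have hK₁1 : 1 ≤ K₁ := by
    have h1 : 1 ≤ A * 2 ^ D := one_le_mul_of_one_le_of_one_le hA (one_le_pow₀ (by norm_num))
    have h2 : 1 ≤ 4 ^ k * B := one_le_mul_of_one_le_of_one_le (one_le_pow₀ (by norm_num)) hB
    exact one_le_mul_of_one_le_of_one_le h1 h2
  set G : ℂ → ℂ := fun z => f z * cexp (((d / 2 * Real.log Q : ℝ) : ℂ) * z) with hGdef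
  have hnG : ∀ z : ℂ, ‖G z‖ = ‖f z‖ * Q ^ (d / 2 * z.re) := by
    intro z
    rw [hGdef]
    simp only
    rw [norm_mul, norm_cexp_real_mul hQ0]
  set s := d / 2 - a / w with hs
  have hGb : ∀ z ∈ closedBall (0:ℂ) R, ‖G z‖ ≤ K₁ * Q ^ (a + s * |z.re|) := by
    intro z hz
    have hz' : ‖z‖ ≤ 1 / 4 := by
      have : ‖z‖ ≤ R := by simpa using hz
      linarith
    rw [hnG]
    exact two_sided hf_diff hQ1 hA hfgrow ha hak hB0 hw hfline hfedge hd hD hfrefl hz'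
  set U : Set ℂ := {z : ℂ | -(1 / 2) < z.re} with hUdef
  have hUo : IsOpen U := isOpen_lt continuous_const Complex.continuous_re
  have hsub : closedBall (0:ℂ) R ⊆ U := by
    intro z hz
    have h1 : ‖z‖ ≤ R := by simpa using hz
    have h2 := (abs_le.mp ((Complex.abs_re_le_norm z).trans h1)).1
    show -(1 / 2) < z.re
    linarith
  have hGd : DifferentiableOn ℂ G U := by
    intro z hz
    have h2 : DifferentiableAt ℂ
        (fun z : ℂ => cexp (((d / 2 * Real.log Q : ℝ) : ℂ) * z)) z := by fun_prop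
    exact ((hf_diff z hz).mul h2).differentiableWithinAt
  have hinj : Function.Injective fun v : ℝ => (v : ℂ) * I := by
    intro u v huv
    simpa using huv
  set Z' : Finset ℂ := Z.image fun v : ℝ => (v : ℂ) * I with hZ'
  have hcard' : Z'.card = Z.card := Finset.card_image_of_injective _ hinj
  have hZ'B : ∀ z ∈ Z', z ∈ closedBall (0:ℂ) R := by
    intro z hz
    obtain ⟨v, hv, rfl⟩ := Finset.mem_image.mp hz
    have := (hZ v hv).1
    simpa using this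
  have hM : ∀ z ∈ Z', ‖G z‖ ≤ A0 * (2 * Q) ^ e := by
    intro z hz
    obtain ⟨v, hv, rfl⟩ := Finset.mem_image.mp hz
    obtain ⟨h1, h2⟩ := hZ v hv
    have hre : ((v : ℂ) * I).re = 0 := by simp
    rw [hnG, hre, mul_zero, Real.rpow_zero, mul_one, hfv]
    refine h2.trans ?_
    have h3 := hcomp v
    have h4 : Q * (1 + |v|) ≤ 2 * Q := by nlinarith
    have h5 : (c * (1 + |t₀ + v|)) ^ e ≤ (2 * Q) ^ e :=
      Real.rpow_le_rpow (by positivity) (h3.trans h4) he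
    gcongr
  set g := γ * ((Z.card - 1 : ℕ) : ℝ) / (2 * Real.exp 1) with hg
  have hcard1 : (0:ℝ) < ((Z.card - 1 : ℕ) : ℝ) := by
    have : 0 < Z.card - 1 := by omega
    exact_mod_cast this
  have hg0 : 0 < g := by rw [hg]; positivity
  have hsep : ∀ j ∈ Z', g ^ (Z'.card - 1) ≤ ∏ i ∈ Z'.erase j, ‖j - i‖ := by
    intro j hj
    obtain ⟨v, hv, rfl⟩ := Finset.mem_image.mp hj
    have h1 := prod_dist_ge hγ.le Z hgap hv
    rw [hcard']
    refine h1.trans (le_of_eq ?_)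
    have h2 : Z'.erase ((v : ℂ) * I) = (Z.erase v).image fun v : ℝ => (v : ℂ) * I := by
      rw [Finset.image_erase hinj]
    rw [h2, Finset.prod_image fun x _ y _ hxy => hinj hxy]
    refine Finset.prod_congr rfl fun u _ => ?_
    rw [← sub_mul, norm_mul, Complex.norm_I, mul_one, ← Complex.ofReal_sub, Complex.norm_real,
      Real.norm_eq_abs]
  have hP' : Z'.card * (A0 * (2 * Q) ^ e * ((R + R) / g) ^ (Z'.card - 1)) ≤ C₀ * Q ^ E := by
    rw [hcard']; exact hP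
  have hcore := sample_core hQ1 hR hUo hsub hGd hK₁1 hGb Z' hZ'B hM hg0 hsep hC₀ hP' hE hEa
  have hG0 : ‖G 0‖ = ‖F (1 / 2 + t₀ * I)‖ := by
    rw [hnG]
    simp [hf]
  have hsum : ∑ z ∈ Z', Real.log (R / ‖z‖) = ∑ v ∈ Z, Real.log (R / |v|) := by
    rw [hZ', Finset.sum_image fun x _ y _ hxy => hinj hxy]
    refine Finset.sum_congr rfl fun v _ => ?_
    rw [norm_mul, Complex.norm_I, mul_one, Complex.norm_real, Real.norm_eq_abs]
  rw [hG0, hsum] at hcore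
  exact hcore

end point

section numbers

/-- The bound for the interpolation polynomial. -/
lemma interp_bound {Λ κ η η' m M : ℝ} {J N n : ℕ} (hJ : 0 < J) (hη : 0 < η) (hη'0 : 0 < η')
    (hη' : η' ≤ 2 * η) (hκ : 0 < κ) (hκ1 : κ ≤ 1) (hm : 0 < m) (hm1 : m ≤ 1) (hM : 0 ≤ M)
    (hΛ1 : 1 ≤ κ * η * Λ)
    (hN1 : κ * η * Λ / 2 ≤ N) (hN2 : (N : ℝ) ≤ 2 * (κ * η * Λ)) (hN : 1 ≤ N)
    (hn : n = 2 * J * N) (hΛ : 0 < Λ) :
    n * (M * ((J * η' + J * η') / (m / (2 * Λ) * ((n - 1 : ℕ) : ℝ) / (2 * Real.exp 1))) ^ (n - 1)) ≤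
      M * Real.exp (4 * J * κ * η * Real.log (32 * Real.exp 1 ^ 2 / (m * κ)) * Λ) := by
  have he1 : 1 ≤ Real.exp 1 := Real.one_le_exp (by norm_num)
  have he : 0 < Real.exp 1 := Real.exp_pos 1
  have hJ1 : (1:ℝ) ≤ J := by exact_mod_cast hJ
  have hJN : 1 ≤ J * N := Nat.one_le_iff_ne_zero.mpr (by positivity)
  have hn2 : 2 ≤ n := by rw [hn, mul_assoc]; omega
  have hn1 : J * N ≤ n - 1 := by rw [hn, mul_assoc]; omega
  have hn1' : (J : ℝ) * N ≤ ((n - 1 : ℕ) : ℝ) := by exact_mod_cast hn1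
  have hκηΛ : 0 < κ * η * Λ := by linarith
  have hnlow : (J : ℝ) * (κ * η * Λ / 2) ≤ ((n - 1 : ℕ) : ℝ) := by
    refine le_trans ?_ hn1'
    gcongr
  have hnup : ((n - 1 : ℕ) : ℝ) ≤ 4 * J * κ * η * Λ := by
    have h1 : ((n - 1 : ℕ) : ℝ) ≤ n := by exact_mod_cast Nat.sub_le n 1
    have h2 : (n : ℝ) = 2 * J * N := by rw [hn]; push_cast; ring
    rw [h2] at h1
    calc ((n - 1 : ℕ) : ℝ) ≤ 2 * J * N := h1
      _ ≤ 2 * J * (2 * (κ * η * Λ)) := by gcongr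
      _ = _ := by ring
  set L := Real.log (32 * Real.exp 1 ^ 2 / (m * κ)) with hL
  have hbase : 0 < 32 * Real.exp 1 ^ 2 / (m * κ) := by positivity
  have hL0 : 0 ≤ L := by
    apply Real.log_nonneg
    rw [one_le_div (by positivity)]
    have h1 : m * κ ≤ 1 := by nlinarith
    nlinarith
  have hbound : (J * η' + J * η') / (m / (2 * Λ) * ((n - 1 : ℕ) : ℝ) / (2 * Real.exp 1)) ≤
      32 * Real.exp 1 / (m * κ) := by
    have hpos : 0 < ((n - 1 : ℕ) : ℝ) := lt_of_lt_of_le (by positivity) hnlow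
    rw [div_le_div_iff₀ (by positivity) (by positivity)]
    have h1 : (J * η' + J * η') * (m * κ) ≤ 4 * J * η * (m * κ) := by
      have : J * η' + J * η' ≤ 4 * J * η := by nlinarith
      gcongr
    have h2 : 4 * J * η * (m * κ) = 32 * Real.exp 1 *
        (m / (2 * Λ) * (J * (κ * η * Λ / 2)) / (2 * Real.exp 1)) := by
      field_simp
      ring
    calc (J * η' + J * η') * (m * κ) ≤ 4 * J * η * (m * κ) := h1
      _ = 32 * Real.exp 1 * (m / (2 * Λ) * (J * (κ * η * Λ / 2)) / (2 * Real.exp 1)) := h2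
      _ ≤ _ := by gcongr
  have hnexp : (n : ℝ) ≤ Real.exp 1 ^ (n - 1) := by
    have h1 : ((n - 1 : ℕ) : ℝ) + 1 ≤ Real.exp ((n - 1 : ℕ) : ℝ) := Real.add_one_le_exp _
    have h2 : ((n - 1 : ℕ) : ℝ) + 1 = n := by
      have : n - 1 + 1 = n := by omega
      exact_mod_cast this
    rw [h2] at h1
    have h3 : Real.exp ((n - 1 : ℕ) : ℝ) = Real.exp 1 ^ (n - 1) := by
      rw [← Real.exp_nat_mul, mul_one]
    rwa [h3] at h1
  have hb0 : 0 ≤ (J * η' + J * η') / (m / (2 * Λ) * ((n - 1 : ℕ) : ℝ) / (2 * Real.exp 1)) := by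
    positivity
  calc n * (M * ((J * η' + J * η') / (m / (2 * Λ) * ((n - 1 : ℕ) : ℝ) / (2 * Real.exp 1))) ^ (n - 1))
      ≤ Real.exp 1 ^ (n - 1) * (M * (32 * Real.exp 1 / (m * κ)) ^ (n - 1)) := by gcongr
    _ = M * (32 * Real.exp 1 ^ 2 / (m * κ)) ^ (n - 1) := by
        rw [mul_left_comm, ← mul_pow]
        congr 2
        ring
    _ = M * Real.exp (((n - 1 : ℕ) : ℝ) * L) := by
        rw [Real.exp_nat_mul, hL, Real.exp_log hbase]
    _ ≤ _ := by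
        apply mul_le_mul_of_nonneg_left _ hM
        apply Real.exp_le_exp.mpr
        calc ((n - 1 : ℕ) : ℝ) * L ≤ (4 * J * κ * η * Λ) * L := by gcongr
          _ = _ := by ring

end numbers

end Pool.Agent.H23.GLH
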