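import Pool.Agent.H23.GLH.Sample

/-! The improvement step for families of functions, and the limit. -/

set_option autoImplicit false

open Complex MeasureTheory Set Filter Topology Metric

namespace Pool.Agent.H23.GLH

variable {ι : Type*} {F : ι → ℂ → ℂ} {c : ι → ℝ}

/-- Every window `[t, t + η]` contains at least `κ η log Q` points with mutual distances at least
`m / log Q`, `Q = c (1 + |t|)`, at which the bound with exponent `e` holds. -/
def Samples (F : ι → ℂ → ℂ) (c : ι → ℝ) (A0 e κ η m : ℝ) : Prop :=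
  ∃ K : ℝ, ∀ (i : ι) (t : ℝ), K ≤ c i * (1 + |t|) → ∃ Z : Finset ℝ,
    κ * η * Real.log (c i * (1 + |t|)) ≤ Z.card ∧
    (∀ u ∈ Z, u ∈ Icc t (t + η) ∧ ‖F i (1 / 2 + u * I)‖ ≤ A0 * (c i * (1 + |u|)) ^ e) ∧
    ∀ u ∈ Z, ∀ v ∈ Z, u ≠ v → m / Real.log (c i * (1 + |t|)) ≤ |u - v|

/-- The exponent of the interpolation term. -/
noncomputable def Eexp (e κ η m : ℝ) (J : ℕ) : ℝ :=
  e + 4 * J * κ * η * Real.log (32 * Real.exp 1 ^ 2 / (m * κ))

lemma Eexp_nonneg {e κ η m : ℝ} {J : ℕ} (he : 0 ≤ e) (hκ : 0 < κ) (hκ1 : κ ≤ 1) (hη : 0 < η)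
    (hm : 0 < m) (hm1 : m ≤ 1) : 0 ≤ Eexp e κ η m J := by
  have he1 : 1 ≤ Real.exp 1 := Real.one_le_exp (by norm_num)
  have hL0 : 0 ≤ Real.log (32 * Real.exp 1 ^ 2 / (m * κ)) := by
    apply Real.log_nonneg
    rw [one_le_div (by positivity)]
    have h1 : m * κ ≤ 1 := by nlinarith
    nlinarith
  unfold Eexp
  positivity

/-- The sample points near `t₀`, for large conductor. -/
lemma collect {i : ι} {t₀ Λ A0 e κ η η' m K : ℝ} {J : ℕ} (hc : 1 ≤ c i) (hJ : 0 < J) (hη : 0 < η)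
    (hηη' : η < η') (hJη : J * η' ≤ 1 / 4) (hκ : 0 < κ) (hm : 0 < m)
    (hS : ∀ t : ℝ, K ≤ c i * (1 + |t|) → ∃ Z : Finset ℝ,
      κ * η * Real.log (c i * (1 + |t|)) ≤ Z.card ∧
      (∀ u ∈ Z, u ∈ Icc t (t + η) ∧ ‖F i (1 / 2 + u * I)‖ ≤ A0 * (c i * (1 + |u|)) ^ e) ∧
      ∀ u ∈ Z, ∀ v ∈ Z, u ≠ v → m / Real.log (c i * (1 + |t|)) ≤ |u - v|)
    (hΛ : Λ = Real.log (c i * (1 + |t₀|))) (hΛ2 : 2 ≤ Λ) (hΛgap : m / (2 * Λ) ≤ η' - η)
    (hK : 2 * K ≤ c i * (1 + |t₀|)) {N : ℕ} (hN : N = ⌈κ * η * (Λ - Real.log 2)⌉₊) :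
    ∃ Z : Finset ℝ, Z.card = 2 * J * N ∧
      (∀ v ∈ Z, |v| ≤ J * η' ∧ 0 < |v| ∧
        ‖F i (1 / 2 + ((t₀ + v : ℝ) : ℂ) * I)‖ ≤ A0 * (c i * (1 + |t₀ + v|)) ^ e) ∧
      (∀ u ∈ Z, ∀ v ∈ Z, u ≠ v → m / (2 * Λ) ≤ |u - v|) ∧
      2 * N * ell J ≤ ∑ v ∈ Z, Real.log (J * η' / |v|) := by
  classical
  set Q := c i * (1 + |t₀|) with hQ
  have ht0 := abs_nonneg t₀
  have hQ1 : 1 ≤ Q := by nlinarith
  have hQ0 : 0 < Q := by linarith
  have hlog2 := Real.log_two_lt_d9
  have hlog2' := Real.log_two_gt_d9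
  have hη'0 : 0 < η' := by linarith
  refine union_windows hJ hη hηη' hΛgap _ ?_
  intro p hp
  set x := wstart η η' p with hx
  have hxabs : |x| ≤ 1 / 4 := by
    have h1 := (abs_window hη hηη' (p := p) (v := x) ⟨le_rfl, by linarith⟩).1
    have h2 : (p.1 : ℝ) + 1 ≤ J := by exact_mod_cast hp
    calc |x| ≤ (p.1 + 1) * η' := h1
      _ ≤ J * η' := by gcongr
      _ ≤ 1 / 4 := hJη
  have hlow : Q / 2 ≤ c i * (1 + |t₀ + x|) := by
    have h1 : |t₀| ≤ |t₀ + x| + |x| := by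
      have := abs_sub (t₀ + x) x
      rwa [add_sub_cancel_right] at this
    have h2 : (1 + |t₀|) / 2 ≤ 1 + |t₀ + x| := by linarith
    calc Q / 2 = c i * ((1 + |t₀|) / 2) := by rw [hQ]; ring
      _ ≤ _ := by gcongr
  have hup : c i * (1 + |t₀ + x|) ≤ 2 * Q := by
    have h1 := one_add_abs_add_le t₀ x
    have h2 : (1 + |t₀|) * (1 + |x|) ≤ (1 + |t₀|) * 2 := by gcongr; linarith
    calc c i * (1 + |t₀ + x|) ≤ c i * ((1 + |t₀|) * 2) := by
          have := h1.trans h2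
          gcongr
      _ = _ := by rw [hQ]; ring
  have hpos : 0 < c i * (1 + |t₀ + x|) := by positivity
  have hlogl : Λ - Real.log 2 ≤ Real.log (c i * (1 + |t₀ + x|)) := by
    rw [hΛ, ← Real.log_div hQ0.ne' (by norm_num)]
    exact Real.log_le_log (by positivity) hlow
  have hlogu : Real.log (c i * (1 + |t₀ + x|)) ≤ 2 * Λ := by
    have : Real.log (c i * (1 + |t₀ + x|)) ≤ Real.log (2 * Q) := Real.log_le_log hpos hup
    rw [Real.log_mul (by norm_num) hQ0.ne', ← hΛ] at this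
    linarith
  obtain ⟨W, hW1, hW2, hW3⟩ := hS (t₀ + x) (by linarith)
  have hNW : N ≤ W.card := by
    rw [hN]
    apply Nat.ceil_le.mpr
    refine le_trans ?_ hW1
    have : 0 ≤ κ * η := by positivity
    gcongr
  obtain ⟨W', hW's, hW'c⟩ := Finset.exists_subset_card_eq hNW
  have hinj : Function.Injective fun u : ℝ => u - t₀ := sub_left_injective
  refine ⟨W'.image fun u : ℝ => u - t₀, ?_, ?_, ?_⟩
  · rw [Finset.card_image_of_injective _ hinj, hW'c]
  · intro v hv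
    obtain ⟨u, hu, rfl⟩ := Finset.mem_image.mp hv
    obtain ⟨⟨h1, h2⟩, h3⟩ := hW2 u (hW's hu)
    refine ⟨⟨by linarith, by linarith⟩, ?_⟩
    have e1 : t₀ + (u - t₀) = u := by ring
    rw [e1]
    exact h3
  · intro v hv v' hv' hne
    obtain ⟨u, hu, rfl⟩ := Finset.mem_image.mp hv
    obtain ⟨u', hu', rfl⟩ := Finset.mem_image.mp hv'
    have h1 := hW3 u (hW's hu) u' (hW's hu') (fun h => hne (by rw [h]))
    have e1 : u - t₀ - (u' - t₀) = u - u' := by ring
    rw [e1]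
    refine le_trans ?_ h1
    have h2 : 0 < Real.log (c i * (1 + |t₀ + x|)) := by linarith
    gcongr

theorem sample_family_step {d A A0 B1 e κ η η' m a w : ℝ} {k J : ℕ} (h : Admissible F c d A k)
    (hedge : ∀ (i : ι) (s : ℂ), s.re = 1 / 2 + w → ‖F i s‖ ≤ B1) (hw : 1 / 4 ≤ w) (hJ : 0 < J)
    (hη : 0 < η) (hηη' : η < η') (hη'2 : η' ≤ 2 * η) (hJη : J * η' ≤ 1 / 4) (he : 0 ≤ e)
    (hκ : 0 < κ) (hκ1 : κ ≤ 1) (hm : 0 < m) (hm1 : m ≤ 1) (hS : Samples F c A0 e κ η m)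
    (ha : 0 ≤ a) (hak : a ≤ k) (hEa : Eexp e κ η m J + |d / 2 - a / w| * (J * η') ≤ a)
    (hB : Bound F c a) :
    Bound F c (max (Eexp e κ η m J)
      (a + (d / 2 - a / w) * (2 * (J * η') / Real.pi) - 2 * κ * η * ell J)) := by
  obtain ⟨B0, hB⟩ := hB
  obtain ⟨K, hK⟩ := hS
  set B := max (max B0 B1) 1 with hBdef
  have hB1 : 1 ≤ B := le_max_right _ _
  have hB0B : B0 ≤ B := (le_max_left _ _).trans (le_max_left _ _)
  have hB1B : B1 ≤ B := (le_max_right _ _).trans (le_max_left _ _)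
  set A0' := max A0 0 with hA0'
  have hA0'0 : 0 ≤ A0' := le_max_right _ _
  set D := ⌈d⌉₊ with hD
  have hDd : d ≤ D := Nat.le_ceil _
  have hA := h.one_le_A
  have hd := h.d_nonneg
  have hη'0 : 0 < η' := by linarith
  have hJ0 : (0:ℝ) < J := by exact_mod_cast hJ
  have hR0 : 0 < J * η' := by positivity
  set E := Eexp e κ η m J with hEdef
  have hE0 : 0 ≤ E := Eexp_nonneg he hκ hκ1 hη hm hm1
  set s := d / 2 - a / w with hs
  set a' := max E (a + s * (2 * (J * η') / Real.pi) - 2 * κ * η * ell J) with ha'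
  have ha'0 : 0 ≤ a' := hE0.trans (le_max_left _ _)
  set K₁ := A * 2 ^ D * (4 ^ k * B) with hK₁
  set C₀ := A0' * 2 ^ e with hC₀
  have hC₀0 : 0 ≤ C₀ := by positivity
  have hA1 : 0 ≤ A := by linarith
  have hK₁0 : 0 ≤ K₁ := by positivity
  set Λ₀ := 2 + 2 / (κ * η) + 1 / (η' - η) + Real.log (2 * max K 1) with hΛ₀
  have hθ : 0 < η' - η := by linarith
  have hmaxK : 1 ≤ max K 1 := le_max_right _ _
  have hlogK : 0 ≤ Real.log (2 * max K 1) := Real.log_nonneg (by linarith)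
  have hκη : 0 < κ * η := by positivity
  have hΛ₀0 : 0 ≤ Λ₀ := by positivity
  set X := Real.exp (2 * κ * η * Real.log 2 * ell J) with hX
  have hell := ell_nonneg J
  have hline : ∀ (i : ι) (t : ℝ), ‖F i (1 / 2 + t * I)‖ ≤ B * (c i * (1 + |t|)) ^ a := by
    intro i t
    refine (hB i t).trans ?_
    have h1 := Q_ge_one h i t
    gcongr
  refine ⟨B * Real.exp (Λ₀ * a) + ((K₁ + C₀) * X + C₀), fun i t₀ => ?_⟩
  have hQ1 := Q_ge_one h i t₀
  set Q := c i * (1 + |t₀|) with hQ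
  have hQ0 : 0 < Q := by linarith
  have hQa' : 1 ≤ Q ^ a' := Real.one_le_rpow hQ1 ha'0
  set Λ := Real.log Q with hΛ
  rcases lt_or_ge Λ Λ₀ with hsmall | hlarge
  · have h1 : Q ^ a ≤ Real.exp (Λ₀ * a) := by
      rw [Real.rpow_def_of_pos hQ0]
      apply Real.exp_le_exp.mpr
      gcongr
    calc ‖F i (1 / 2 + t₀ * I)‖ ≤ B * Q ^ a := hline i t₀
      _ ≤ B * Real.exp (Λ₀ * a) := by gcongr
      _ ≤ B * Real.exp (Λ₀ * a) + ((K₁ + C₀) * X + C₀) := by
          have : 0 ≤ (K₁ + C₀) * X + C₀ := by positivity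
          linarith
      _ = (B * Real.exp (Λ₀ * a) + ((K₁ + C₀) * X + C₀)) * 1 := (mul_one _).symm
      _ ≤ _ := by gcongr
  · have hlog2 := Real.log_two_lt_d9
    have hlog2' := Real.log_two_gt_d9
    have p1 : 0 < 2 / (κ * η) := by positivity
    have p2 : 0 < 1 / (η' - η) := by positivity
    have hΛ2 : 2 ≤ Λ := by rw [hΛ₀] at hlarge; linarith
    have hΛκ : 2 ≤ κ * η * Λ := by
      have h1 : 2 / (κ * η) ≤ Λ := by rw [hΛ₀] at hlarge; linarith
      rw [div_le_iff₀ hκη] at h1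
      linarith
    have hΛgap : m / (2 * Λ) ≤ η' - η := by
      have h1 : 1 / (η' - η) ≤ Λ := by rw [hΛ₀] at hlarge; linarith
      rw [div_le_iff₀ hθ] at h1
      rw [div_le_iff₀ (by linarith)]
      nlinarith
    have hKQ : 2 * K ≤ Q := by
      have h1 : Real.log (2 * max K 1) ≤ Λ := by rw [hΛ₀] at hlarge; linarith
      have h2 : 2 * max K 1 ≤ Q := (Real.log_le_log_iff (by linarith) hQ0).mp h1
      have h3 : K ≤ max K 1 := le_max_left _ _
      linarith
    have hS' : ∀ t : ℝ, K ≤ c i * (1 + |t|) → ∃ Z : Finset ℝ,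
        κ * η * Real.log (c i * (1 + |t|)) ≤ Z.card ∧
        (∀ u ∈ Z, u ∈ Icc t (t + η) ∧ ‖F i (1 / 2 + u * I)‖ ≤ A0' * (c i * (1 + |u|)) ^ e) ∧
        ∀ u ∈ Z, ∀ v ∈ Z, u ≠ v → m / Real.log (c i * (1 + |t|)) ≤ |u - v| := by
      intro t ht
      obtain ⟨Z, h1, h2, h3⟩ := hK i t ht
      refine ⟨Z, h1, fun u hu => ⟨(h2 u hu).1, (h2 u hu).2.trans ?_⟩, h3⟩
      have : A0 ≤ A0' := le_max_left _ _
      have h4 := Q_ge_one h i u
      gcongr
    set N := ⌈κ * η * (Λ - Real.log 2)⌉₊ with hN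
    obtain ⟨Z, hZc, hZ1, hZ2, hZ3⟩ := collect (F := F) (c := c) (i := i) (t₀ := t₀) (Λ := Λ)
      (A0 := A0') (e := e) (m := m) (K := K) (N := N) (h.one_le_c i) hJ hη hηη' hJη hκ hm
      hS' hΛ hΛ2 hΛgap hKQ hN
    have hNlow : κ * η * (Λ - Real.log 2) ≤ N := Nat.le_ceil _
    have hNup : (N : ℝ) < κ * η * (Λ - Real.log 2) + 1 := Nat.ceil_lt_add_one (by
      have : 0 ≤ Λ - Real.log 2 := by linarith
      positivity)
    have hN1 : κ * η * Λ / 2 ≤ N := by
      refine le_trans ?_ hNlow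
      have : Λ / 2 ≤ Λ - Real.log 2 := by linarith
      calc κ * η * Λ / 2 = κ * η * (Λ / 2) := by ring
        _ ≤ _ := by gcongr
    have hN2 : (N : ℝ) ≤ 2 * (κ * η * Λ) := by
      have : κ * η * (Λ - Real.log 2) ≤ κ * η * Λ := by
        have : Λ - Real.log 2 ≤ Λ := by linarith
        gcongr
      linarith
    have hNpos : 1 ≤ N := by
      have : (0:ℝ) < N := by linarith
      exact_mod_cast this
    have hcard2 : 2 ≤ Z.card := by
      rw [hZc, mul_assoc]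
      have : 1 ≤ J * N := Nat.one_le_iff_ne_zero.mpr (by positivity)
      omega
    have hinterp := interp_bound (M := A0' * (2 * Q) ^ e) (n := Z.card) hJ hη hη'0 hη'2 hκ hκ1 hm
      hm1 (by positivity) (by linarith) hN1 hN2 hNpos hZc (by linarith)
    have hP : Z.card * (A0' * (2 * Q) ^ e *
        ((J * η' + J * η') / (m / (2 * Λ) * ((Z.card - 1 : ℕ) : ℝ) / (2 * Real.exp 1))) ^
          (Z.card - 1)) ≤ C₀ * Q ^ E := by
      refine hinterp.trans (le_of_eq ?_)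
      rw [hEdef, Eexp, Real.rpow_add hQ0, Real.mul_rpow (by norm_num) hQ0.le, hC₀,
        Real.rpow_def_of_pos hQ0 (4 * J * κ * η * Real.log (32 * Real.exp 1 ^ 2 / (m * κ))),
        ← hΛ]
      rw [mul_comm Λ]
      ring
    have hpt := sample_point (h.diff i) (h.one_le_c i) hA (h.grow i) hd hDd (h.refl i) ha hak hB1
      hw (hline i) (fun z hz => (hedge i z hz).trans hB1B) hA0'0 t₀ (R := J * η') (e := e)
      (γ := m / (2 * Λ)) (E := E) (C₀ := C₀) hR0 hJη he (by positivity) Z hcard2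
      (fun v hv => ⟨(hZ1 v hv).1, (hZ1 v hv).2.2⟩) hZ2 hC₀0 hP hE0 hEa
    rw [← hQ, ← hs, ← hK₁] at hpt
    have hexp : Real.exp (-∑ v ∈ Z, Real.log (J * η' / |v|)) ≤ X * Q ^ (-(2 * κ * η * ell J)) := by
      rw [hX, Real.rpow_def_of_pos hQ0, ← Real.exp_add]
      apply Real.exp_le_exp.mpr
      have h1 : 2 * (κ * η * (Λ - Real.log 2)) * ell J ≤ 2 * N * ell J := by gcongr
      rw [← hΛ]
      calc -∑ v ∈ Z, Real.log (J * η' / |v|) ≤ -(2 * (κ * η * (Λ - Real.log 2)) * ell J) := by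
            linarith
        _ = _ := by ring
    have hQE : Q ^ E ≤ Q ^ a' := Real.rpow_le_rpow_of_exponent_le hQ1 (le_max_left _ _)
    have hQa2 : Q ^ (a + s * (2 * (J * η') / Real.pi)) * Q ^ (-(2 * κ * η * ell J)) ≤ Q ^ a' := by
      rw [← Real.rpow_add hQ0]
      apply Real.rpow_le_rpow_of_exponent_le hQ1
      refine le_trans (le_of_eq ?_) (le_max_right _ _)
      ring
    calc ‖F i (1 / 2 + t₀ * I)‖ ≤ (K₁ + C₀) * Q ^ (a + s * (2 * (J * η') / Real.pi)) *
          Real.exp (-∑ v ∈ Z, Real.log (J * η' / |v|)) + C₀ * Q ^ E := hpt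
      _ ≤ (K₁ + C₀) * Q ^ (a + s * (2 * (J * η') / Real.pi)) *
          (X * Q ^ (-(2 * κ * η * ell J))) + C₀ * Q ^ E := by gcongr
      _ = (K₁ + C₀) * X * (Q ^ (a + s * (2 * (J * η') / Real.pi)) *
          Q ^ (-(2 * κ * η * ell J))) + C₀ * Q ^ E := by ring
      _ ≤ (K₁ + C₀) * X * Q ^ a' + C₀ * Q ^ a' := by gcongr
      _ = ((K₁ + C₀) * X + C₀) * Q ^ a' := by ring
      _ ≤ _ := by
          have : 0 ≤ B * Real.exp (Λ₀ * a) := by positivity
          exact mul_le_mul_of_nonneg_right (by linarith) (by positivity)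

/-- The limit of the improvement steps. -/
theorem exponent_inf {d A A0 B1 e κ η η' m w b : ℝ} {k J : ℕ} (h : Admissible F c d A k)
    (hedge : ∀ (i : ι) (s : ℂ), s.re = 1 / 2 + w → ‖F i s‖ ≤ B1) (hw : 1 / 4 ≤ w) (hJ : 0 < J)
    (hη : 0 < η) (hηη' : η < η') (hη'2 : η' ≤ 2 * η) (hJη : J * η' ≤ 1 / 4) (he : 0 ≤ e)
    (hκ : 0 < κ) (hκ1 : κ ≤ 1) (hm : 0 < m) (hm1 : m ≤ 1) (hS : Samples F c A0 e κ η m)
    (hb1 : Eexp e κ η m J + (d / 2 + 4 * k) * (J * η') < b)
    (hb2 : w * (d / 2 - Real.pi * κ * η * ell J / (J * η')) < b) : Bound F c b := by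
  have hd := h.d_nonneg
  have hpi := Real.pi_pos
  have hE0 : 0 ≤ Eexp e κ η m J := Eexp_nonneg he hκ hκ1 hη hm hm1
  have hη'0 : 0 < η' := by linarith
  have hJ0 : (0:ℝ) < J := by exact_mod_cast hJ
  have hR0 : 0 < J * η' := by positivity
  set R := J * η' with hR
  set S := {a : ℝ | 0 ≤ a ∧ a ≤ k ∧ Bound F c a} with hSdef
  have hk0 : (0:ℝ) ≤ k := Nat.cast_nonneg k
  have hkS : (k : ℝ) ∈ S := by
    refine ⟨hk0, le_rfl, A, fun i t => ?_⟩
    have := h.grow i (1 / 2 + t * I) (by simp; norm_num)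
    simpa using this
  have hbdd : BddBelow S := ⟨0, fun a ha => ha.1⟩
  set x := sInf S with hx
  by_contra hcon
  have hbx : b ≤ x := by
    by_contra hlt
    push Not at hlt
    obtain ⟨a, haS, hab⟩ := exists_lt_of_csInf_lt (s := S) ⟨_, hkS⟩ (hx ▸ hlt)
    exact hcon (haS.2.2.mono h hab.le)
  have hxk : x ≤ k := csInf_le hbdd hkS
  have hslope : ∀ a : ℝ, 0 ≤ a → a ≤ k → |d / 2 - a / w| ≤ d / 2 + 4 * k := by
    intro a ha hak
    have h1 : a / w ≤ 4 * k := by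
      rw [div_le_iff₀ (by linarith)]
      nlinarith
    have h2 : 0 ≤ a / w := div_nonneg ha (by linarith)
    rw [abs_le]
    constructor <;> linarith
  have hstep : ∀ a ∈ S, x ≤ a + (d / 2 - a / w) * (2 * R / Real.pi) - 2 * κ * η * ell J := by
    intro a haS
    obtain ⟨ha0, hak, hBa⟩ := haS
    have hxa : x ≤ a := csInf_le hbdd ⟨ha0, hak, hBa⟩
    have h1 : Eexp e κ η m J + |d / 2 - a / w| * R ≤ a := by
      have := hslope a ha0 hak
      have : |d / 2 - a / w| * R ≤ (d / 2 + 4 * k) * R := by gcongr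
      linarith
    have h2 := sample_family_step h hedge hw hJ hη hηη' hη'2 hJη he hκ hκ1 hm hm1 hS ha0 hak h1 hBa
    by_contra hlt
    push Not at hlt
    have hEx : Eexp e κ η m J < x := by
      have : 0 ≤ (d / 2 + 4 * k) * R := by positivity
      linarith
    have h3 : max (Eexp e κ η m J)
        (a + (d / 2 - a / w) * (2 * R / Real.pi) - 2 * κ * η * ell J) < x := max_lt hEx hlt
    have h4 : max (Eexp e κ η m J)
        (a + (d / 2 - a / w) * (2 * R / Real.pi) - 2 * κ * η * ell J) ∈ S :=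
      ⟨hE0.trans (le_max_left _ _), (h3.le.trans hxk), h2⟩
    exact absurd (csInf_le hbdd h4) (not_le.mpr h3)
  have hmain : 0 ≤ (d / 2 - x / w) * (2 * R / Real.pi) - 2 * κ * η * ell J := by
    apply le_of_forall_pos_le_add
    intro δ hδ
    obtain ⟨a, haS, hab⟩ := exists_lt_of_csInf_lt (s := S) ⟨_, hkS⟩
      (show sInf S < x + δ by rw [← hx]; linarith)
    have h1 := hstep a haS
    have hxa : x ≤ a := csInf_le hbdd haS
    have h2 : x / w ≤ a / w := by
      have : 0 < w := by linarith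
      gcongr
    have h3 : (d / 2 - a / w) * (2 * R / Real.pi) ≤ (d / 2 - x / w) * (2 * R / Real.pi) := by
      have : 0 ≤ 2 * R / Real.pi := by positivity
      gcongr
    linarith
  have hw0 : 0 < w := by linarith
  have h5 : x ≤ w * (d / 2 - Real.pi * κ * η * ell J / R) := by
    have h6 : x / w ≤ d / 2 - Real.pi * κ * η * ell J / R := by
      have h7 : 2 * κ * η * ell J ≤ (d / 2 - x / w) * (2 * R / Real.pi) := by linarith
      have h8 : 2 * κ * η * ell J * (Real.pi / (2 * R)) ≤ d / 2 - x / w := by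
        calc 2 * κ * η * ell J * (Real.pi / (2 * R))
            ≤ (d / 2 - x / w) * (2 * R / Real.pi) * (Real.pi / (2 * R)) := by gcongr
          _ = d / 2 - x / w := by field_simp
      have h9 : 2 * κ * η * ell J * (Real.pi / (2 * R)) = Real.pi * κ * η * ell J / R := by
        field_simp
      linarith
    rwa [div_le_iff₀ hw0, mul_comm] at h6
  linarith

lemma ell_ratio {τ : ℝ} (hτ : 0 < τ) : ∃ J : ℕ, 0 < J ∧ 1 - τ ≤ ell J / (J + 1) := by
  have h1 : Tendsto (fun x : ℝ => (x - 1 - Real.log x) / (x + 1)) atTop (𝓝 1) := by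
    have h2 : Tendsto (fun x : ℝ => Real.log x / (x + 1)) atTop (𝓝 0) := by
      have h3 : Tendsto (fun x : ℝ => Real.log x / x) atTop (𝓝 0) := by
        simpa using Real.tendsto_pow_log_div_mul_add_atTop 1 0 1 one_ne_zero
      have h4 : Tendsto (fun x : ℝ => x / (x + 1)) atTop (𝓝 1) := by
        have h5 : Tendsto (fun x : ℝ => 1 - 1 / (x + 1)) atTop (𝓝 (1 - 0)) := by
          refine tendsto_const_nhds.sub ?_
          exact (tendsto_const_nhds (x := (1:ℝ))).div_atTop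
            (tendsto_atTop_add_const_right _ _ tendsto_id)
        rw [sub_zero] at h5
        refine h5.congr' ?_
        filter_upwards [eventually_gt_atTop 0] with x hx
        field_simp
        ring
      have h6 := h3.mul h4
      rw [zero_mul] at h6
      refine h6.congr' ?_
      filter_upwards [eventually_gt_atTop 0] with x hx
      field_simp
    have h7 : Tendsto (fun x : ℝ => (x - 1) / (x + 1)) atTop (𝓝 1) := by
      have h5 : Tendsto (fun x : ℝ => 1 - 2 / (x + 1)) atTop (𝓝 (1 - 0)) := by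
        refine tendsto_const_nhds.sub ?_
        exact (tendsto_const_nhds (x := (2:ℝ))).div_atTop
          (tendsto_atTop_add_const_right _ _ tendsto_id)
      rw [sub_zero] at h5
      refine h5.congr' ?_
      filter_upwards [eventually_gt_atTop 0] with x hx
      field_simp
      ring
    have h8 := h7.sub h2
    rw [sub_zero] at h8
    refine h8.congr fun x => ?_
    rw [← sub_div]
  have h2 := h1.comp tendsto_natCast_atTop_atTop
  have h3 : ∀ᶠ J : ℕ in atTop, 1 - τ < ((J : ℝ) - 1 - Real.log J) / (J + 1) :=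
    h2.eventually (lt_mem_nhds (by linarith))
  obtain ⟨J, hJ1, hJ2⟩ := (h3.and (eventually_gt_atTop 0)).exists
  refine ⟨J, hJ2, hJ1.le.trans ?_⟩
  have := ell_ge hJ2
  gcongr

/-- **Sampling theorem for families.** -/
theorem family_sampling {d A A0 e κ : ℝ} {k : ℕ} (h : Admissible F c d A k)
    (hedge : ∀ δ > 0, ∃ B : ℝ, ∀ (i : ι) (s : ℂ), s.re = 1 + δ → ‖F i s‖ ≤ B)
    (he : 0 ≤ e) (hκ : 0 < κ) (hκ1 : κ ≤ 1)
    (hS : ∀ ε > 0, ∃ η > 0, η ≤ ε ∧ Samples F c A0 (e + ε) κ η (Real.exp (-(ε / η)))) :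
    ∀ ε > 0, Bound F c (max e ((d - 2 * Real.pi * κ) / 4) + ε) := by
  intro ε₀ hε₀
  have hd := h.d_nonneg
  have hpi := Real.pi_pos
  set τ := ε₀ / (2 * Real.pi * κ) with hτ
  have hτ0 : 0 < τ := by positivity
  obtain ⟨J, hJ, hJr⟩ := ell_ratio hτ0
  have hJ0 : (0:ℝ) < J := by exact_mod_cast hJ
  set δ := ε₀ / (2 * d + 2) with hδ
  have hδ0 : 0 < δ := by positivity
  obtain ⟨B1, hB1⟩ := hedge δ hδ0
  have he1 : 1 ≤ Real.exp 1 := Real.one_le_exp (by norm_num)
  set L0 := Real.log (32 * Real.exp 1 ^ 2 / κ) with hL0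
  have hL00 : 0 ≤ L0 := by
    apply Real.log_nonneg
    rw [one_le_div hκ]
    nlinarith
  set W := 1 + 4 * J * κ * (L0 + 1) + (d / 2 + 4 * k) * (J + 1) with hW
  have hW0 : 0 < W := by positivity
  set ε := min (ε₀ / (2 * W)) (1 / (4 * (J + 1))) with hε
  have hεpos : 0 < ε := by
    rw [hε]
    apply lt_min <;> positivity
  obtain ⟨η, hη, hηε, hSη⟩ := hS ε hεpos
  set η' := (1 + 1 / J) * η with hη'
  have hJη' : J * η' = (J + 1) * η := by rw [hη']; field_simp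
  have hηη' : η < η' := by
    rw [hη']
    have : 0 < 1 / (J : ℝ) := by positivity
    nlinarith
  have hη'2 : η' ≤ 2 * η := by
    rw [hη']
    have : 1 / (J : ℝ) ≤ 1 := by
      rw [div_le_one hJ0]
      exact_mod_cast hJ
    gcongr
    linarith
  have hR4 : J * η' ≤ 1 / 4 := by
    rw [hJη']
    calc ((J : ℝ) + 1) * η ≤ (J + 1) * (1 / (4 * (J + 1))) := by
          gcongr
          exact hηε.trans (min_le_right _ _)
      _ = 1 / 4 := by field_simp
  set m := Real.exp (-(ε / η)) with hm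
  have hm0 : 0 < m := Real.exp_pos _
  have hm1 : m ≤ 1 := by
    rw [hm]
    apply Real.exp_le_one_iff.mpr
    have : 0 ≤ ε / η := by positivity
    linarith
  refine exponent_inf (w := 1 / 2 + δ) h (B1 := B1)
    (fun i s hs => hB1 i s (by rw [hs]; ring)) (by linarith) hJ hη hηη'
    hη'2 hR4 (add_nonneg he hεpos.le) hκ hκ1 hm0 hm1 hSη ?_ ?_
  · have hlog : Real.log (32 * Real.exp 1 ^ 2 / (m * κ)) = L0 + ε / η := by
      rw [hL0, mul_comm m κ, ← div_div, Real.log_div (by positivity) hm0.ne', hm, Real.log_exp]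
      ring
    unfold Eexp
    rw [hlog, hJη']
    have h1 : η * (L0 + ε / η) ≤ ε * (L0 + 1) := by
      have : η * (L0 + ε / η) = η * L0 + ε := by field_simp
      rw [this]
      nlinarith
    have h2 : 4 * J * κ * η * (L0 + ε / η) ≤ 4 * J * κ * (ε * (L0 + 1)) := by
      calc 4 * J * κ * η * (L0 + ε / η) = 4 * J * κ * (η * (L0 + ε / η)) := by ring
        _ ≤ _ := by gcongr
    have h3 : (d / 2 + 4 * k) * ((J + 1) * η) ≤ (d / 2 + 4 * k) * ((J + 1) * ε) := by gcongr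
    have h4 : ε * W ≤ ε₀ / 2 := by
      calc ε * W ≤ ε₀ / (2 * W) * W := by
            gcongr
            exact min_le_left _ _
        _ = ε₀ / 2 := by field_simp
    have h5 : ε * W = ε + 4 * J * κ * (ε * (L0 + 1)) + (d / 2 + 4 * k) * ((J + 1) * ε) := by
      rw [hW]; ring
    have h6 : e ≤ max e ((d - 2 * Real.pi * κ) / 4) := le_max_left _ _
    linarith
  · rw [hJη']
    have h1 : Real.pi * κ * η * ell J / ((J + 1) * η) = Real.pi * κ * (ell J / (J + 1)) := by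
      field_simp
    rw [h1]
    set x := ell J / ((J : ℝ) + 1) with hx
    have hx0 : 0 ≤ x := div_nonneg (ell_nonneg J) (by positivity)
    have h2 : (1 / 2 : ℝ) * (d / 2 - Real.pi * κ * x) ≤ (d - 2 * Real.pi * κ) / 4 + ε₀ / 4 := by
      have h3 : Real.pi * κ * (1 - τ) ≤ Real.pi * κ * x := by gcongr
      have h4 : Real.pi * κ * τ = ε₀ / 2 := by rw [hτ]; field_simp
      linarith
    have h3 : δ * (d / 2 - Real.pi * κ * x) ≤ ε₀ / 4 := by
      have h4 : 0 ≤ Real.pi * κ * x := by positivity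
      calc δ * (d / 2 - Real.pi * κ * x) ≤ δ * (d / 2) := by gcongr; linarith
        _ ≤ ε₀ / 4 := by
            rw [hδ, div_mul_eq_mul_div, div_le_iff₀ (by positivity)]
            nlinarith
    have h6 : (d - 2 * Real.pi * κ) / 4 ≤ max e ((d - 2 * Real.pi * κ) / 4) := le_max_right _ _
    have h7 : (1 / 2 + δ) * (d / 2 - Real.pi * κ * x) =
        1 / 2 * (d / 2 - Real.pi * κ * x) + δ * (d / 2 - Real.pi * κ * x) := by ring
    linarith

end Pool.Agent.H23.GLH
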