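import Mathlib

/-! An analytic function on a disc which is small at many well spaced points near the centre. -/

set_option autoImplicit false

open Complex Set Metric

namespace Pool.Agent.H23.GLH

/-- A function on a disc with prescribed zeros near the centre. -/
theorem norm_le_of_zeros {c : ℂ} {R r : ℝ} (hr : r < R) {U : Set ℂ}
    (hU : IsOpen U) (hcU : closedBall c R ⊆ U) (Z : Finset ℂ) :
    ∀ (h : ℂ → ℂ) (M : ℝ), DifferentiableOn ℂ h U → (∀ z ∈ closedBall c R, ‖h z‖ ≤ M) →
      (∀ w ∈ Z, w ∈ closedBall c r ∧ h w = 0) → ∀ z ∈ closedBall c R,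
      ‖h z‖ ≤ M * ∏ w ∈ Z, (‖z - w‖ / (R - r)) := by
  classical
  induction Z using Finset.induction_on with
  | empty =>
    intro h M _ hM _ z hz
    simpa using hM z hz
  | insert w Z hwZ ih =>
    intro h M hd hM hZ z hz
    obtain ⟨hw, hhw⟩ := hZ w (Finset.mem_insert_self w Z)
    have hRr : 0 < R - r := by linarith
    have hr0 : 0 ≤ r := dist_nonneg.trans hw
    have hR0 : 0 < R := by linarith
    have hwR : w ∈ closedBall c R := closedBall_subset_closedBall hr.le hw
    have hwU : U ∈ nhds w := hU.mem_nhds (hcU hwR)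
    set h1 := dslope h w with hh1
    have hd1 : DifferentiableOn ℂ h1 U := (Complex.differentiableOn_dslope hwU).mpr hd
    have hfac : ∀ z, h z = (z - w) * h1 z := by
      intro z
      have := sub_smul_dslope h w z
      rw [hhw, sub_zero, smul_eq_mul] at this
      exact this.symm
    have hM1 : ∀ z ∈ closedBall c R, ‖h1 z‖ ≤ M / (R - r) := by
      intro z hz
      have hdc : DiffContOnCl ℂ h1 (ball c R) :=
        (hd1.mono (by rw [closure_ball c hR0.ne']; exact hcU)).diffContOnCl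
      refine Complex.norm_le_of_forall_mem_frontier_norm_le isBounded_ball hdc ?_
        (by rw [closure_ball c hR0.ne']; exact hz)
      intro y hy
      rw [frontier_ball c hR0.ne'] at hy
      have hyR : dist y c = R := hy
      have h2 : R - r ≤ ‖y - w‖ := by
        have h3 : dist y c ≤ dist y w + dist w c := dist_triangle y w c
        have h4 : dist w c ≤ r := hw
        rw [← dist_eq_norm]
        linarith
      have h5 := hM y (by rw [mem_closedBall, hyR])
      rw [hfac y, norm_mul] at h5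
      rw [le_div_iff₀ hRr]
      calc ‖h1 y‖ * (R - r) ≤ ‖h1 y‖ * ‖y - w‖ := by gcongr
        _ = ‖y - w‖ * ‖h1 y‖ := mul_comm _ _
        _ ≤ M := h5
    have hZ1 : ∀ w' ∈ Z, w' ∈ closedBall c r ∧ h1 w' = 0 := by
      intro w' hw'
      obtain ⟨h2, h3⟩ := hZ w' (Finset.mem_insert_of_mem hw')
      refine ⟨h2, ?_⟩
      rw [hfac w'] at h3
      rcases mul_eq_zero.mp h3 with h4 | h4
      · exact absurd (sub_eq_zero.mp h4 ▸ hw') hwZ
      · exact h4
    have h6 := ih h1 (M / (R - r)) hd1 hM1 hZ1 z hz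
    rw [hfac z, norm_mul, Finset.prod_insert hwZ]
    calc ‖z - w‖ * ‖h1 z‖ ≤ ‖z - w‖ * (M / (R - r) * ∏ w ∈ Z, (‖z - w‖ / (R - r))) := by
          gcongr
      _ = _ := by ring

/-- The Lagrange interpolation polynomial, as a function. -/
noncomputable def lag (Z : Finset ℂ) (G : ℂ → ℂ) (w : ℂ) : ℂ :=
  ∑ j ∈ Z, G j * ∏ i ∈ Z.erase j, ((w - i) / (j - i))

lemma lag_apply (Z : Finset ℂ) (G : ℂ → ℂ) {w : ℂ} (hw : w ∈ Z) : lag Z G w = G w := by
  classical
  unfold lag
  rw [Finset.sum_eq_single w]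
  · have : ∏ i ∈ Z.erase w, ((w - i) / (w - i)) = 1 := by
      apply Finset.prod_eq_one
      intro i hi
      rw [div_self]
      exact sub_ne_zero.mpr (Finset.ne_of_mem_erase hi).symm
    rw [this, mul_one]
  · intro j _ hjw
    have : ∏ i ∈ Z.erase j, ((w - i) / (j - i)) = 0 := by
      apply Finset.prod_eq_zero (i := w)
      · exact Finset.mem_erase.mpr ⟨hjw.symm, hw⟩
      · simp
    rw [this, mul_zero]
  · intro h; exact absurd hw h

lemma differentiable_lag (Z : Finset ℂ) (G : ℂ → ℂ) : Differentiable ℂ (lag Z G) := by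
  classical
  unfold lag
  refine Differentiable.fun_sum fun j _ => ?_
  refine Differentiable.const_mul ?_ _
  refine Differentiable.fun_finsetProd fun i _ => ?_
  fun_prop

lemma norm_lag_le (Z : Finset ℂ) (G : ℂ → ℂ) {c : ℂ} {R r g M₀ : ℝ} (hg : 0 < g)
    (hZ : ∀ w ∈ Z, w ∈ closedBall c r) (hG : ∀ w ∈ Z, ‖G w‖ ≤ M₀)
    (hsep : ∀ j ∈ Z, g ^ (Z.card - 1) ≤ ∏ i ∈ Z.erase j, ‖j - i‖)
    {w : ℂ} (hw : w ∈ closedBall c R) :
    ‖lag Z G w‖ ≤ Z.card * (M₀ * ((R + r) / g) ^ (Z.card - 1)) := by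
  classical
  unfold lag
  refine (norm_sum_le _ _).trans ?_
  have key : ∀ j ∈ Z, ‖G j * ∏ i ∈ Z.erase j, ((w - i) / (j - i))‖ ≤
      M₀ * ((R + r) / g) ^ (Z.card - 1) := by
    intro j hj
    have hcard : (Z.erase j).card = Z.card - 1 := Finset.card_erase_of_mem hj
    have h1 : ∏ i ∈ Z.erase j, ‖w - i‖ ≤ (R + r) ^ (Z.card - 1) := by
      rw [← hcard, ← Finset.prod_const]
      refine Finset.prod_le_prod (fun i _ => norm_nonneg _) ?_
      intro i hi
      have h2 : dist w i ≤ dist w c + dist c i := dist_triangle w c i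
      have h3 : dist c i ≤ r := by rw [dist_comm]; exact hZ i (Finset.mem_of_mem_erase hi)
      have h4 : dist w c ≤ R := hw
      rw [← dist_eq_norm]
      linarith
    have h5 := hsep j hj
    have h6 : 0 < g ^ (Z.card - 1) := by positivity
    rw [norm_mul, norm_prod]
    have h7 : ∏ i ∈ Z.erase j, ‖(w - i) / (j - i)‖ =
        (∏ i ∈ Z.erase j, ‖w - i‖) / ∏ i ∈ Z.erase j, ‖j - i‖ := by
      rw [← Finset.prod_div_distrib]
      exact Finset.prod_congr rfl fun i _ => norm_div _ _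
    rw [h7, div_pow]
    have h8 : 0 ≤ ∏ i ∈ Z.erase j, ‖w - i‖ := Finset.prod_nonneg fun i _ => norm_nonneg _
    have h9 : 0 ≤ M₀ := (norm_nonneg _).trans (hG j hj)
    have h10 := hG j hj
    have h11 : 0 ≤ R + r := by
      have h12 : dist w c ≤ R := hw
      have h13 : dist j c ≤ r := hZ j hj
      have h14 := dist_nonneg (x := w) (y := c)
      have h15 := dist_nonneg (x := j) (y := c)
      linarith
    gcongr
  calc ∑ j ∈ Z, ‖G j * ∏ i ∈ Z.erase j, ((w - i) / (j - i))‖
      ≤ ∑ j ∈ Z, M₀ * ((R + r) / g) ^ (Z.card - 1) := Finset.sum_le_sum key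
    _ = _ := by rw [Finset.sum_const, nsmul_eq_mul]

/-- Two-constants theorem with finitely many points. -/
theorem disc_bound {c : ℂ} {R r g M₀ M₁ : ℝ} (hr : 0 ≤ r) (hrR : 2 * r ≤ R) (hR : 0 < R)
    (hg : 0 < g)
    {U : Set ℂ} (hU : IsOpen U) (hcU : closedBall c R ⊆ U) (G : ℂ → ℂ)
    (hGd : DifferentiableOn ℂ G U) (hG1 : ∀ z ∈ closedBall c R, ‖G z‖ ≤ M₁)
    (Z : Finset ℂ) (hZ : ∀ w ∈ Z, w ∈ closedBall c r) (hG0 : ∀ w ∈ Z, ‖G w‖ ≤ M₀)
    (hM₀ : 0 ≤ M₀)
    (hsep : ∀ j ∈ Z, g ^ (Z.card - 1) ≤ ∏ i ∈ Z.erase j, ‖j - i‖) :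
    ‖G c‖ ≤ 2 * (Z.card * (M₀ * ((R + r) / g) ^ (Z.card - 1))) +
      M₁ * (r / (R - r)) ^ Z.card := by
  set P := Z.card * (M₀ * ((R + r) / g) ^ (Z.card - 1)) with hP
  have hP0 : 0 ≤ P := by
    have : 0 ≤ (R + r) / g := by positivity
    positivity
  have hcR : c ∈ closedBall c R := mem_closedBall_self hR.le
  have hRr : 0 < R - r := by linarith
  have h1 : ∀ z ∈ closedBall c R, ‖lag Z G z‖ ≤ P := fun z hz =>
    norm_lag_le Z G hg hZ hG0 hsep hz
  have h2 := norm_le_of_zeros (show r < R by linarith) hU hcU Z (fun z => G z - lag Z G z)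
    (M₁ + P) (hGd.sub (differentiable_lag Z G).differentiableOn)
    (fun z hz => (norm_sub_le _ _).trans (add_le_add (hG1 z hz) (h1 z hz)))
    (fun w hw => ⟨hZ w hw, by rw [lag_apply Z G hw, sub_self]⟩) c hcR
  have hM₁ : 0 ≤ M₁ := (norm_nonneg _).trans (hG1 c hcR)
  have hq1 : r / (R - r) ≤ 1 := by rw [div_le_one hRr]; linarith
  have hq0 : 0 ≤ r / (R - r) := by positivity
  have h3 : ∏ w ∈ Z, (‖c - w‖ / (R - r)) ≤ (r / (R - r)) ^ Z.card := by
    rw [← Finset.prod_const]
    refine Finset.prod_le_prod (fun i _ => by positivity) ?_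
    intro w hw
    have : ‖c - w‖ ≤ r := by rw [← dist_eq_norm, dist_comm]; exact hZ w hw
    gcongr
  have h4 : ‖G c‖ ≤ ‖lag Z G c‖ + ‖G c - lag Z G c‖ := by
    calc ‖G c‖ = ‖lag Z G c + (G c - lag Z G c)‖ := by ring_nf
      _ ≤ _ := norm_add_le _ _
  have h5 : (M₁ + P) * ∏ w ∈ Z, (‖c - w‖ / (R - r)) ≤ (M₁ + P) * (r / (R - r)) ^ Z.card := by
    gcongr
  have h6 : P * (r / (R - r)) ^ Z.card ≤ P := by
    have := pow_le_one₀ hq0 hq1 (n := Z.card)
    nlinarith
  calc ‖G c‖ ≤ P + (M₁ + P) * (r / (R - r)) ^ Z.card := by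
        refine h4.trans (add_le_add (h1 c hcR) (h2.trans h5))
    _ = P + P * (r / (R - r)) ^ Z.card + M₁ * (r / (R - r)) ^ Z.card := by ring
    _ ≤ P + P + M₁ * (r / (R - r)) ^ Z.card := by gcongr
    _ = _ := by ring

/-! ### Well spaced points -/

lemma card_mul_le_max (g x : ℝ) (n : ℕ) : ∀ (W : Finset ℝ) (hW : W.Nonempty), W.card = n →
    (∀ w ∈ W, x + g ≤ w) → (∀ v ∈ W, ∀ w ∈ W, v ≠ w → g ≤ |v - w|) →
      n * g ≤ W.max' hW - x := by
  induction n with
  | zero =>
    intro W hW hc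
    exact absurd (Finset.card_eq_zero.mp hc) hW.ne_empty
  | succ n ih =>
    intro W hW hc h1 h2
    set m := W.max' hW with hm
    have hmW : m ∈ W := W.max'_mem hW
    rcases Nat.eq_zero_or_pos n with rfl | hn
    · have := h1 m hmW
      simp
      linarith
    · have hcard : (W.erase m).card = n := by rw [Finset.card_erase_of_mem hmW, hc]; rfl
      have hne : (W.erase m).Nonempty := by rw [← Finset.card_pos, hcard]; exact hn
      have h3 := ih (W.erase m) hne hcard (fun w hw => h1 w (Finset.mem_of_mem_erase hw))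
        (fun v hv w hw => h2 v (Finset.mem_of_mem_erase hv) w (Finset.mem_of_mem_erase hw))
      set m' := (W.erase m).max' hne with hm'
      have hm'W := (W.erase m).max'_mem hne
      rw [← hm'] at hm'W
      have h4 : m' ≤ m := W.le_max' _ (Finset.mem_of_mem_erase hm'W)
      have h5 := h2 m hmW m' (Finset.mem_of_mem_erase hm'W) (Finset.ne_of_mem_erase hm'W).symm
      rw [abs_of_nonneg (by linarith)] at h5
      push_cast
      linarith

lemma prod_sub_ge {g : ℝ} (hg : 0 ≤ g) (x : ℝ) (n : ℕ) : ∀ (W : Finset ℝ), W.card = n →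
    (∀ w ∈ W, x + g ≤ w) → (∀ v ∈ W, ∀ w ∈ W, v ≠ w → g ≤ |v - w|) →
      g ^ n * n.factorial ≤ ∏ w ∈ W, |x - w| := by
  induction n with
  | zero =>
    intro W hc _ _
    rw [Finset.card_eq_zero.mp hc]
    simp
  | succ n ih =>
    intro W hc h1 h2
    have hW : W.Nonempty := by rw [← Finset.card_pos, hc]; omega
    set m := W.max' hW with hm
    have hmW : m ∈ W := W.max'_mem hW
    have hcard : (W.erase m).card = n := by rw [Finset.card_erase_of_mem hmW, hc]; rfl
    have h3 := ih (W.erase m) hcard (fun w hw => h1 w (Finset.mem_of_mem_erase hw))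
        (fun v hv w hw => h2 v (Finset.mem_of_mem_erase hv) w (Finset.mem_of_mem_erase hw))
    have h4 := card_mul_le_max g x (n + 1) W hW hc h1 h2
    rw [← hm] at h4
    rw [← Finset.mul_prod_erase W _ hmW]
    have h5 : |x - m| = m - x := by
      have := h1 m hmW
      rw [abs_sub_comm, abs_of_nonneg (by linarith)]
    rw [h5]
    have h6 : 0 ≤ g ^ n * n.factorial := by positivity
    have h7 : 0 ≤ ((n + 1 : ℕ) : ℝ) * g := by positivity
    calc g ^ (n + 1) * (n + 1).factorial = (((n + 1 : ℕ) : ℝ) * g) * (g ^ n * n.factorial) := by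
          rw [Nat.factorial_succ]; push_cast; ring
      _ ≤ (m - x) * ∏ w ∈ W.erase m, |x - w| := by
          have h8 : 0 ≤ m - x := h7.trans h4
          gcongr

lemma prod_sub_ge' {g : ℝ} (hg : 0 ≤ g) (x : ℝ) (W : Finset ℝ)
    (h1 : ∀ w ∈ W, w + g ≤ x) (h2 : ∀ v ∈ W, ∀ w ∈ W, v ≠ w → g ≤ |v - w|) :
      g ^ W.card * W.card.factorial ≤ ∏ w ∈ W, |x - w| := by
  classical
  have h := prod_sub_ge hg (-x) W.card (W.image (fun w => -w))
    (Finset.card_image_of_injective _ neg_injective)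
    (by
      intro w hw
      obtain ⟨v, hv, rfl⟩ := Finset.mem_image.mp hw
      have := h1 v hv
      linarith)
    (by
      intro v hv w hw hvw
      obtain ⟨v', hv', rfl⟩ := Finset.mem_image.mp hv
      obtain ⟨w', hw', rfl⟩ := Finset.mem_image.mp hw
      have h3 := h2 v' hv' w' hw' (fun h => hvw (by rw [h]))
      have : -v' - -w' = -(v' - w') := by ring
      rwa [this, abs_neg])
  rw [Finset.prod_image (fun a _ b _ hab => neg_injective hab)] at h
  refine h.trans (le_of_eq (Finset.prod_congr rfl fun w _ => ?_))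
  have : -x - -w = -(x - w) := by ring
  rw [this, abs_neg]

/-- Lower bound for the product of the distances from one of `n` points with mutual distances at
least `g`. -/
theorem prod_dist_ge {g : ℝ} (hg : 0 ≤ g) (Z : Finset ℝ)
    (h2 : ∀ v ∈ Z, ∀ w ∈ Z, v ≠ w → g ≤ |v - w|) {x : ℝ} (hx : x ∈ Z) :
    (g * ((Z.card - 1 : ℕ) : ℝ) / (2 * Real.exp 1)) ^ (Z.card - 1) ≤
      ∏ w ∈ Z.erase x, |x - w| := by
  classical
  set n := Z.card - 1 with hn
  set A := (Z.erase x).filter (fun w => x < w) with hA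
  set B := (Z.erase x).filter (fun w => ¬ x < w) with hB
  have hcard : A.card + B.card = n := by
    rw [hA, hB, Finset.card_filter_add_card_filter_not, Finset.card_erase_of_mem hx]
  have hprod : ∏ w ∈ Z.erase x, |x - w| = (∏ w ∈ A, |x - w|) * ∏ w ∈ B, |x - w| := by
    rw [hA, hB, Finset.prod_filter_mul_prod_filter_not]
  have hsub : ∀ w ∈ Z.erase x, w ∈ Z ∧ w ≠ x := fun w hw =>
    ⟨Finset.mem_of_mem_erase hw, Finset.ne_of_mem_erase hw⟩
  have hAge : g ^ A.card * A.card.factorial ≤ ∏ w ∈ A, |x - w| := by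
    refine prod_sub_ge hg x A.card A rfl ?_ ?_
    · intro w hw
      obtain ⟨hw1, hw2⟩ := Finset.mem_filter.mp hw
      obtain ⟨hw3, hw4⟩ := hsub w hw1
      have := h2 w hw3 x hx hw4
      rw [abs_of_pos (by linarith)] at this
      linarith
    · intro v hv w hw hvw
      exact h2 v (hsub v (Finset.mem_filter.mp hv).1).1 w (hsub w (Finset.mem_filter.mp hw).1).1 hvw
  have hBge : g ^ B.card * B.card.factorial ≤ ∏ w ∈ B, |x - w| := by
    refine prod_sub_ge' hg x B ?_ ?_
    · intro w hw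
      obtain ⟨hw1, hw2⟩ := Finset.mem_filter.mp hw
      obtain ⟨hw3, hw4⟩ := hsub w hw1
      have h5 := h2 w hw3 x hx hw4
      have h6 : w ≤ x := not_lt.mp hw2
      rw [abs_of_nonpos (by linarith)] at h5
      linarith
    · intro v hv w hw hvw
      exact h2 v (hsub v (Finset.mem_filter.mp hv).1).1 w (hsub w (Finset.mem_filter.mp hw).1).1 hvw
  have hfac : ((n : ℝ) / (2 * Real.exp 1)) ^ n ≤ A.card.factorial * B.card.factorial := by
    have h3 : (n.factorial : ℝ) ≤ 2 ^ n * (A.card.factorial * B.card.factorial) := by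
      have h4 := Nat.add_choose_mul_factorial_mul_factorial A.card B.card
      rw [hcard] at h4
      have h5 : n.choose B.card ≤ 2 ^ n := Nat.choose_le_two_pow _ _
      rw [← h4]
      push_cast
      have h6 : (n.choose B.card : ℝ) ≤ 2 ^ n := by exact_mod_cast h5
      calc (n.choose B.card : ℝ) * A.card.factorial * B.card.factorial
          = n.choose B.card * (A.card.factorial * B.card.factorial) := by ring
        _ ≤ _ := by gcongr
    have h7 : (n : ℝ) ^ n ≤ Real.exp n * n.factorial := by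
      have := Real.pow_div_factorial_le_exp (n : ℝ) (Nat.cast_nonneg n) n
      rwa [div_le_iff₀ (by positivity)] at this
    have h8 : Real.exp (n : ℝ) = Real.exp 1 ^ n := by
      rw [← Real.exp_nat_mul, mul_one]
    rw [div_pow, div_le_iff₀ (by positivity)]
    calc (n : ℝ) ^ n ≤ Real.exp n * n.factorial := h7
      _ ≤ Real.exp 1 ^ n * (2 ^ n * (A.card.factorial * B.card.factorial)) := by
          rw [h8]; gcongr
      _ = _ := by rw [mul_pow]; ring
  rw [hprod]
  calc (g * (n : ℝ) / (2 * Real.exp 1)) ^ n = g ^ n * ((n : ℝ) / (2 * Real.exp 1)) ^ n := by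
        rw [mul_div_assoc, mul_pow]
    _ ≤ g ^ n * (A.card.factorial * B.card.factorial) := by gcongr
    _ = (g ^ A.card * A.card.factorial) * (g ^ B.card * B.card.factorial) := by
        rw [← hcard, pow_add]; ring
    _ ≤ _ := by
        gcongr

end Pool.Agent.H23.GLH
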