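import Mathlib

/-! Jensen's formula with a boundary bound which is exponential in `|Re z|`. -/

set_option autoImplicit false

open Complex Set Metric MeasureTheory Real MeromorphicOn

namespace Pool.Agent.H23.GLH

lemma integral_abs_cos : ∫ θ in (0:ℝ)..(2 * π), |Real.cos θ| = 4 := by
  have hc : Continuous fun θ : ℝ => |Real.cos θ| := Real.continuous_cos.abs
  have hpi := Real.pi_pos
  have h1 : ∫ θ in (0:ℝ)..(π / 2), |Real.cos θ| = 1 := by
    have : ∫ θ in (0:ℝ)..(π / 2), |Real.cos θ| = ∫ θ in (0:ℝ)..(π / 2), Real.cos θ := by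
      apply intervalIntegral.integral_congr
      intro θ hθ
      rw [uIcc_of_le (by positivity)] at hθ
      exact abs_of_nonneg (Real.cos_nonneg_of_neg_pi_div_two_le_of_le (by linarith [hθ.1]) hθ.2)
    rw [this, integral_cos]
    simp
  have h2 : ∫ θ in (π / 2)..(π / 2 + π), |Real.cos θ| = 2 := by
    have : ∫ θ in (π / 2)..(π / 2 + π), |Real.cos θ| =
        ∫ θ in (π / 2)..(π / 2 + π), -Real.cos θ := by
      apply intervalIntegral.integral_congr
      intro θ hθ
      rw [uIcc_of_le (by linarith)] at hθ
      exact abs_of_nonpos (Real.cos_nonpos_of_pi_div_two_le_of_le hθ.1 (by linarith [hθ.2]))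
    rw [this, intervalIntegral.integral_neg, integral_cos, Real.sin_add_pi, Real.sin_pi_div_two]
    norm_num
  have h3 : ∫ θ in (π / 2 + π)..(2 * π), |Real.cos θ| = 1 := by
    have : ∫ θ in (π / 2 + π)..(2 * π), |Real.cos θ| =
        ∫ θ in (π / 2 + π)..(2 * π), Real.cos θ := by
      apply intervalIntegral.integral_congr
      intro θ hθ
      rw [uIcc_of_le (by linarith)] at hθ
      apply abs_of_nonneg
      rw [← Real.cos_sub_two_pi]
      exact Real.cos_nonneg_of_neg_pi_div_two_le_of_le (by linarith [hθ.1]) (by linarith [hθ.2])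
    rw [this, integral_cos, Real.sin_two_pi, Real.sin_add_pi, Real.sin_pi_div_two]
    norm_num
  have i1 : IntervalIntegrable (fun θ => |Real.cos θ|) volume 0 (π / 2) :=
    hc.intervalIntegrable _ _
  have i2 : IntervalIntegrable (fun θ => |Real.cos θ|) volume (π / 2) (π / 2 + π) :=
    hc.intervalIntegrable _ _
  have i3 : IntervalIntegrable (fun θ => |Real.cos θ|) volume (π / 2 + π) (2 * π) :=
    hc.intervalIntegrable _ _
  rw [← intervalIntegral.integral_add_adjacent_intervals (i1.trans i2) i3,
    ← intervalIntegral.integral_add_adjacent_intervals i1 i2, h1, h2, h3]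
  norm_num

/-- The circle average of `|Re z|`. -/
lemma avg_abs_re {R : ℝ} (hR : 0 ≤ R) :
    circleAverage (fun z : ℂ => |z.re|) 0 R = 2 * R / π := by
  rw [circleAverage_def]
  have : ∀ θ : ℝ, |(circleMap 0 R θ).re| = R * |Real.cos θ| := by
    intro θ
    rw [circleMap_zero_re, abs_mul, abs_of_nonneg hR]
  simp only [this]
  rw [intervalIntegral.integral_const_mul, integral_abs_cos]
  have := Real.pi_pos.ne'
  rw [smul_eq_mul]
  field_simp
  ring

/-- Jensen's inequality. -/
theorem jensen_bound {R α β : ℝ} (hR : 0 < R) {H : ℂ → ℂ}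
    (hH : AnalyticOnNhd ℂ H (closedBall 0 R)) (h0 : H 0 ≠ 0)
    (hb : ∀ z ∈ sphere (0:ℂ) R, ‖H z‖ ≤ Real.exp (α + β * |z.re|))
    (hnn : ∀ z ∈ sphere (0:ℂ) R, 0 ≤ α + β * |z.re|)
    (Z : Finset ℂ) (hZ : ∀ z ∈ Z, z ∈ closedBall (0:ℂ) R ∧ H z = 0) :
    Real.log ‖H 0‖ + ∑ z ∈ Z, Real.log (R / ‖z‖) ≤ α + β * (2 * R / π) := by
  classical
  have habs : |R| = R := abs_of_pos hR
  have hH' : AnalyticOnNhd ℂ H (closedBall 0 |R|) := by rwa [habs]
  have hJ := AnalyticOnNhd.circleAverage_log_norm hR.ne' hH' h0
  rw [habs] at hJ
  -- upper bound of the average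
  have hint : CircleIntegrable (fun z : ℂ => Real.log ‖H z‖) 0 R :=
    (hH'.mono sphere_subset_closedBall).meromorphicOn.circleIntegrable_log_norm
  have hre : Continuous fun z : ℂ => β * |z.re| := by fun_prop
  have hcont : Continuous fun z : ℂ => α + β * |z.re| := by fun_prop
  have hup : circleAverage (fun z : ℂ => Real.log ‖H z‖) 0 R ≤
      circleAverage (fun z : ℂ => α + β * |z.re|) 0 R := by
    refine circleAverage_mono hint hcont.continuousOn.circleIntegrable' ?_
    intro z hz
    rw [habs] at hz
    rcases eq_or_ne (H z) 0 with h | h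
    · rw [h, norm_zero, Real.log_zero]
      exact hnn z hz
    · rw [← Real.log_exp (α + β * |z.re|)]
      exact Real.log_le_log (norm_pos_iff.mpr h) (hb z hz)
  have havg : circleAverage (fun z : ℂ => α + β * |z.re|) 0 R = α + β * (2 * R / π) := by
    rw [circleAverage_fun_add (circleIntegrable_const α 0 R) hre.continuousOn.circleIntegrable',
      circleAverage_const]
    have : circleAverage (fun z : ℂ => β * |z.re|) 0 R =
        β • circleAverage (fun z : ℂ => |z.re|) 0 R := by
      rw [← circleAverage_fun_smul]
      rfl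
    rw [this, avg_abs_re hR.le, smul_eq_mul]
  -- lower bound of the sum over the zeros
  set D := divisor H (closedBall 0 R) with hD
  have hfin : (D : ℂ → ℤ).support.Finite := D.finiteSupport (isCompact_closedBall 0 R)
  have hDnn : ∀ u, 0 ≤ D u := by
    intro u
    have := hH.divisor_nonneg
    exact this u
  have hsum : ∑ z ∈ Z, Real.log (R / ‖z‖) ≤ ∑ᶠ u, D u * Real.log (R * ‖0 - u‖⁻¹) := by
    have hsupp : (fun u => (D u : ℝ) * Real.log (R * ‖0 - u‖⁻¹)).support ⊆
        ↑(hfin.toFinset ∪ Z) := by
      intro u hu
      have : D u ≠ 0 := by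
        intro h
        apply hu
        simp [h]
      simp [this]
    rw [finsum_eq_sum_of_support_subset _ hsupp]
    have hterm : ∀ u ∈ hfin.toFinset ∪ Z, 0 ≤ (D u : ℝ) * Real.log (R * ‖0 - u‖⁻¹) := by
      intro u hu
      have huB : u ∈ closedBall (0:ℂ) R := by
        rcases Finset.mem_union.mp hu with h | h
        · have : D u ≠ 0 := by simpa using h
          exact D.supportWithinDomain this
        · exact (hZ u h).1
      have hu2 : ‖u‖ ≤ R := by simpa using huB
      have h1 : (0:ℝ) ≤ D u := by exact_mod_cast hDnn u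
      rcases eq_or_ne u 0 with rfl | hu0
      · simp
      · have h2 : 0 < ‖u‖ := norm_pos_iff.mpr hu0
        refine mul_nonneg h1 (Real.log_nonneg ?_)
        rw [zero_sub, norm_neg, ← div_eq_mul_inv, one_le_div h2]
        exact hu2
    calc ∑ z ∈ Z, Real.log (R / ‖z‖) ≤ ∑ u ∈ Z, (D u : ℝ) * Real.log (R * ‖0 - u‖⁻¹) := by
          apply Finset.sum_le_sum
          intro z hz
          obtain ⟨hzB, hz0⟩ := hZ z hz
          have hz2 : ‖z‖ ≤ R := by simpa using hzB
          have hzne : z ≠ 0 := by
            rintro rfl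
            exact h0 hz0
          have h2 : 0 < ‖z‖ := norm_pos_iff.mpr hzne
          have h3 : 0 ≤ Real.log (R / ‖z‖) := Real.log_nonneg (by rw [one_le_div h2]; exact hz2)
          rw [zero_sub, norm_neg, ← div_eq_mul_inv]
          have h4 : (1:ℝ) ≤ D z := by
            have h5 : 1 ≤ D z := by
              have h6 : D z ≠ 0 := by
                rw [hD, hH.divisor_apply hzB]
                intro h7
                have h8 : analyticOrderAt H z ≠ 0 :=
                  (hH z hzB).analyticOrderAt_ne_zero.mpr hz0
                have h9 : analyticOrderAt H z = ⊤ := by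
                  induction hx : analyticOrderAt H z using ENat.recTopCoe with
                  | top => rfl
                  | coe m =>
                    rw [hx] at h7 h8
                    exfalso
                    apply h8
                    simpa using h7
                have h11 : H =ᶠ[nhds z] 0 := analyticOrderAt_eq_top.mp h9
                have h12 := hH.eqOn_zero_of_preconnected_of_eventuallyEq_zero
                  (convex_closedBall (0:ℂ) R).isPreconnected hzB h11
                exact h0 (h12 (mem_closedBall_self hR.le))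
              have := hDnn z
              omega
            exact_mod_cast h5
          nlinarith
      _ ≤ _ := Finset.sum_le_sum_of_subset_of_nonneg Finset.subset_union_right
          fun u hu _ => hterm u hu
  have : circleAverage (fun z : ℂ => Real.log ‖H z‖) 0 R =
    ∑ᶠ u, D u * Real.log (R * ‖0 - u‖⁻¹) + Real.log ‖H 0‖ := hJ
  linarith

end Pool.Agent.H23.GLH
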