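import Pool.Agent.H23.GLH.Step
import Pool.Agent.H23.GLH.Disc
import Pool.Agent.H23.GLH.Jensen

/-! The convexity bound to the right of the critical line and its reflection, and the core estimate
with sample points. -/

set_option autoImplicit false

open Complex MeasureTheory Set Filter Topology Metric

namespace Pool.Agent.H23.GLH

section conv

variable {f : ℂ → ℂ} {Q A B a w : ℝ} {k : ℕ}

lemma norm_cexp_real_mul {Q : ℝ} (hQ0 : 0 < Q) (x : ℝ) (z : ℂ) :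
    ‖cexp (((x * Real.log Q : ℝ) : ℂ) * z)‖ = Q ^ (x * z.re) := by
  rw [Complex.norm_exp, Complex.re_ofReal_mul, Real.rpow_def_of_pos hQ0]
  congr 1; ring

/-- Convexity between the lines `Re z = 0` and `Re z = w`. -/
theorem conv_right (hf : ∀ z : ℂ, -(1 / 2) < z.re → DifferentiableAt ℂ f z) (hQ1 : 1 ≤ Q)
    (hA : 0 ≤ A) (hgrow : ∀ z : ℂ, -(1 / 4) ≤ z.re → ‖f z‖ ≤ A * (Q * (1 + |z.im|)) ^ k)
    (ha : 0 ≤ a) (hak : a ≤ k) (hB : 0 < B) (hw : 0 < w)
    (hline : ∀ v : ℝ, ‖f (v * I)‖ ≤ B * (Q * (1 + |v|)) ^ a)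
    (hedge : ∀ z : ℂ, z.re = w → ‖f z‖ ≤ B) {z : ℂ} (h0 : 0 ≤ z.re) (h1 : z.re ≤ w) :
    ‖f z‖ ≤ B * 2 ^ k * ‖1 + z‖ ^ k * Q ^ (a - a / w * z.re) := by
  have hQ0 : 0 < Q := by linarith
  set P := B * 2 ^ k * Q ^ a with hP
  set g : ℂ → ℂ := fun z => ((1 + z) ^ k)⁻¹ * f z * cexp (((a / w * Real.log Q : ℝ) : ℂ) * z)
    with hg
  have hnormg : ∀ z : ℂ, ‖g z‖ = ‖f z‖ / ‖1 + z‖ ^ k * Q ^ (a / w * z.re) := by
    intro z
    rw [hg]
    simp only
    rw [norm_mul, norm_mul, norm_inv, norm_pow, norm_cexp_real_mul hQ0, ← div_eq_inv_mul]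
  have hstrip : closure (re ⁻¹' Ioo 0 w) ⊆ re ⁻¹' Icc 0 w :=
    closure_minimal (preimage_mono Ioo_subset_Icc_self)
      (isClosed_Icc.preimage Complex.continuous_re)
  have hg_diff : DiffContOnCl ℂ g (re ⁻¹' Ioo 0 w) := by
    refine DifferentiableOn.diffContOnCl fun z hz => ?_
    have hz0 : 0 ≤ z.re := (hstrip hz).1
    have h1 : DifferentiableAt ℂ (fun z : ℂ => ((1 + z) ^ k)⁻¹) z :=
      DifferentiableAt.inv (by fun_prop) (one_add_pow_ne_zero hz0 k)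
    have h2 : DifferentiableAt ℂ
        (fun z : ℂ => cexp (((a / w * Real.log Q : ℝ) : ℂ) * z)) z := by fun_prop
    exact ((h1.mul (hf z (by linarith))).mul h2).differentiableWithinAt
  have hgbdd : ∀ z : ℂ, 0 ≤ z.re → z.re ≤ w → ‖g z‖ ≤ A * (Q * 2) ^ k * Q ^ a := by
    intro z hz hzw
    have hn := one_le_norm_one_add hz
    rw [hnormg]
    have e1 : Q ^ (a / w * z.re) ≤ Q ^ a := by
      apply Real.rpow_le_rpow_of_exponent_le hQ1
      calc a / w * z.re ≤ a / w * w := by gcongr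
        _ = a := by field_simp
    have e2 : ‖f z‖ / ‖1 + z‖ ^ k ≤ A * (Q * 2) ^ k := by
      rw [div_le_iff₀ (pow_pos (by linarith) k)]
      refine (hgrow z (by linarith)).trans ?_
      rw [mul_assoc A, ← mul_pow]
      have h1 := one_add_im_le hz
      have h3 : Q * (1 + |z.im|) ≤ Q * 2 * ‖1 + z‖ := by
        calc Q * (1 + |z.im|) ≤ Q * (2 * ‖1 + z‖) := by gcongr
          _ = _ := by ring
      gcongr
    gcongr
  have hle0 : ∀ z : ℂ, z.re = 0 → ‖g z‖ ≤ P := by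
    intro z hz
    have hzv : z = (z.im : ℂ) * I := by
      apply Complex.ext <;> simp [hz]
    set v := z.im with hv
    have hn : 1 ≤ ‖(1 : ℂ) + v * I‖ := one_le_norm_one_add (by simp)
    rw [hnormg, hz, mul_zero, Real.rpow_zero, mul_one, hzv, div_le_iff₀ (pow_pos (by linarith) k)]
    refine (hline v).trans ?_
    have hv1 : 1 ≤ 1 + |v| := by have := abs_nonneg v; linarith
    have h4 : (Q * (1 + |v|)) ^ a = Q ^ a * (1 + |v|) ^ a :=
      Real.mul_rpow hQ0.le (by linarith)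
    have h5 : (1 + |v|) ^ a ≤ (1 + |v|) ^ k := by
      rw [← Real.rpow_natCast]
      exact Real.rpow_le_rpow_of_exponent_le hv1 hak
    have h6 : (1 + |v|) ^ k ≤ (2 * ‖(1 : ℂ) + v * I‖) ^ k := by
      have := one_add_abs_le_norm v
      gcongr
    have hQx : 0 ≤ Q ^ a := by positivity
    calc B * (Q * (1 + |v|)) ^ a ≤ B * (Q ^ a * (2 * ‖(1 : ℂ) + v * I‖) ^ k) := by
          rw [h4]
          exact mul_le_mul_of_nonneg_left (mul_le_mul_of_nonneg_left (h5.trans h6) hQx) hB.le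
      _ = P * ‖(1 : ℂ) + v * I‖ ^ k := by rw [hP, mul_pow]; ring
  have hlew : ∀ z : ℂ, z.re = w → ‖g z‖ ≤ P := by
    intro z hz
    have hn := one_le_norm_one_add (z := z) (by rw [hz]; exact hw.le)
    rw [hnormg, hz]
    have e1 : a / w * w = a := by field_simp
    rw [e1, hP]
    have e2 : ‖f z‖ / ‖1 + z‖ ^ k ≤ B * 2 ^ k := by
      calc ‖f z‖ / ‖1 + z‖ ^ k ≤ ‖f z‖ := div_le_self (norm_nonneg _) (one_le_pow₀ hn)
        _ ≤ B := hedge z hz
        _ = B * 1 := (mul_one B).symm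
        _ ≤ B * 2 ^ k := by
            have : (1:ℝ) ≤ 2 ^ k := one_le_pow₀ (by norm_num)
            gcongr
    gcongr
  have hmain : ‖g z‖ ≤ P := by
    refine PhragmenLindelof.vertical_strip hg_diff ⟨0, ?_, 0, ?_⟩ hle0 hlew h0 h1
    · rw [sub_zero]; positivity
    · refine Asymptotics.IsBigO.of_bound (A * (Q * 2) ^ k * Q ^ a) ?_
      rw [Filter.eventually_inf_principal]
      refine Filter.Eventually.of_forall ?_
      intro z hz
      simpa using hgbdd z hz.1.le hz.2.le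
  rw [hnormg] at hmain
  have hn := one_le_norm_one_add h0
  have hnp : 0 < ‖1 + z‖ ^ k := pow_pos (by linarith) k
  have hq : 0 < Q ^ (a / w * z.re) := Real.rpow_pos_of_pos hQ0 _
  rw [div_mul_eq_mul_div, div_le_iff₀ hnp, ← le_div_iff₀ hq] at hmain
  refine hmain.trans (le_of_eq ?_)
  rw [Real.rpow_sub hQ0, hP]
  ring

/-- The two sided bound near the critical line. -/
theorem two_sided {d : ℝ} {D : ℕ} (hf : ∀ z : ℂ, -(1 / 2) < z.re → DifferentiableAt ℂ f z)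
    (hQ1 : 1 ≤ Q) (hA : 1 ≤ A)
    (hgrow : ∀ z : ℂ, -(1 / 4) ≤ z.re → ‖f z‖ ≤ A * (Q * (1 + |z.im|)) ^ k)
    (ha : 0 ≤ a) (hak : a ≤ k) (hB : 0 < B) (hw : 1 / 4 ≤ w)
    (hline : ∀ v : ℝ, ‖f (v * I)‖ ≤ B * (Q * (1 + |v|)) ^ a)
    (hedge : ∀ z : ℂ, z.re = w → ‖f z‖ ≤ B) (hd : 0 ≤ d) (hD : d ≤ D)
    (hrefl : ∀ x y : ℝ, 0 < x → x ≤ 1 / 4 → ‖f (((-x : ℝ) : ℂ) + y * I)‖ ≤
      A * (Q * (1 + |y|)) ^ (d * x) * ‖f (x + y * I)‖)
    {z : ℂ} (hz : ‖z‖ ≤ 1 / 4) :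
    ‖f z‖ * Q ^ (d / 2 * z.re) ≤ A * 2 ^ D * (4 ^ k * B) * Q ^ (a + (d / 2 - a / w) * |z.re|) := by
  have hQ0 : 0 < Q := by linarith
  have hA0 : 0 ≤ A := by linarith
  have hre := (Complex.abs_re_le_norm z).trans hz
  have him := (Complex.abs_im_le_norm z).trans hz
  have e4 : (4:ℝ) ^ k = 2 ^ k * 2 ^ k := by rw [← mul_pow]; norm_num
  have right : ∀ z : ℂ, ‖z‖ ≤ 1 / 4 → 0 ≤ z.re →
      ‖f z‖ ≤ 4 ^ k * B * Q ^ (a - a / w * z.re) := by
    intro z hz hz0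
    have h1 := (Complex.abs_re_le_norm z).trans hz
    rw [abs_of_nonneg hz0] at h1
    have h2 := conv_right hf hQ1 hA0 hgrow ha hak hB (by linarith) hline hedge hz0 (by linarith)
    have h3 : ‖1 + z‖ ≤ 2 := by
      have := norm_add_le (1:ℂ) z
      rw [norm_one] at this
      linarith
    calc ‖f z‖ ≤ B * 2 ^ k * ‖1 + z‖ ^ k * Q ^ (a - a / w * z.re) := h2
      _ ≤ B * 2 ^ k * 2 ^ k * Q ^ (a - a / w * z.re) := by gcongr
      _ = _ := by rw [e4]; ring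
  have h1A : 1 ≤ A * 2 ^ D := one_le_mul_of_one_le_of_one_le hA (one_le_pow₀ (by norm_num))
  rcases le_or_gt 0 z.re with h | h
  · rw [abs_of_nonneg h]
    have h1 := right z hz h
    have e1 : Q ^ (a - a / w * z.re) * Q ^ (d / 2 * z.re) =
        Q ^ (a + (d / 2 - a / w) * z.re) := by
      rw [← Real.rpow_add hQ0]; congr 1; ring
    calc ‖f z‖ * Q ^ (d / 2 * z.re) ≤ (4 ^ k * B * Q ^ (a - a / w * z.re)) * Q ^ (d / 2 * z.re) := by
          gcongr
      _ = 1 * (4 ^ k * B) * Q ^ (a + (d / 2 - a / w) * z.re) := by rw [← e1]; ring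
      _ ≤ _ := by gcongr
  · set x := -z.re with hx
    have hx0 : 0 < x := by linarith
    have hxabs : |z.re| = x := abs_of_neg h
    have hx4 : x ≤ 1 / 4 := by rw [← hxabs]; exact hre
    have hz' : z = ((-x : ℝ) : ℂ) + z.im * I := by
      rw [hx, neg_neg]; exact (re_add_im z).symm
    have h1 := hrefl x z.im hx0 hx4
    rw [← hz'] at h1
    have hnorm : ‖(x : ℂ) + z.im * I‖ = ‖z‖ := by
      rw [Complex.norm_eq_sqrt_sq_add_sq, Complex.norm_eq_sqrt_sq_add_sq]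
      congr 1
      simp [hx]
    have h2 := right (x + z.im * I) (by rw [hnorm]; exact hz) (by simp; exact hx0.le)
    have h3 : ((x : ℂ) + z.im * I).re = x := by simp
    rw [h3] at h2
    have h4 : (Q * (1 + |z.im|)) ^ (d * x) ≤ 2 ^ D * Q ^ (d * x) := by
      have hdx : 0 ≤ d * x := by positivity
      calc (Q * (1 + |z.im|)) ^ (d * x) ≤ (Q * 2) ^ (d * x) := by
            apply Real.rpow_le_rpow (by positivity) _ hdx
            gcongr
            linarith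
        _ = Q ^ (d * x) * 2 ^ (d * x) := Real.mul_rpow hQ0.le (by norm_num)
        _ ≤ Q ^ (d * x) * 2 ^ D := by
            rw [← Real.rpow_natCast 2 D]
            have : d * x ≤ D := by
              calc d * x ≤ d * 1 := by gcongr; linarith
                _ ≤ D := by rw [mul_one]; exact hD
            have := Real.rpow_le_rpow_of_exponent_le (x := (2:ℝ)) (by norm_num) this
            gcongr
        _ = _ := by ring
    rw [hxabs]
    have e5 : d / 2 * z.re = -(d / 2 * x) := by rw [hx]; ring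
    rw [e5]
    have e1 : Q ^ (d * x) * Q ^ (a - a / w * x) * Q ^ (-(d / 2 * x)) =
        Q ^ (a + (d / 2 - a / w) * x) := by
      rw [← Real.rpow_add hQ0, ← Real.rpow_add hQ0]; congr 1; ring
    calc ‖f z‖ * Q ^ (-(d / 2 * x)) ≤ (A * (Q * (1 + |z.im|)) ^ (d * x) * ‖f (x + z.im * I)‖) *
          Q ^ (-(d / 2 * x)) := by gcongr
      _ ≤ (A * (2 ^ D * Q ^ (d * x)) * (4 ^ k * B * Q ^ (a - a / w * x))) *
          Q ^ (-(d / 2 * x)) := by gcongr
      _ = A * 2 ^ D * (4 ^ k * B) * (Q ^ (d * x) * Q ^ (a - a / w * x) * Q ^ (-(d / 2 * x))) := by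
          ring
      _ = _ := by rw [e1]

end conv

/-- The core estimate: a function on a disc which is small at sample points. -/
theorem sample_core {G : ℂ → ℂ} {Q K₁ C₀ a s R E M₀ g : ℝ} (hQ1 : 1 ≤ Q) (hR : 0 < R)
    {U : Set ℂ} (hU : IsOpen U) (hsub : closedBall (0:ℂ) R ⊆ U) (hGd : DifferentiableOn ℂ G U)
    (hK₁ : 1 ≤ K₁) (hG : ∀ z ∈ closedBall (0:ℂ) R, ‖G z‖ ≤ K₁ * Q ^ (a + s * |z.re|))
    (Z : Finset ℂ) (hZ : ∀ z ∈ Z, z ∈ closedBall (0:ℂ) R) (hG0 : ∀ z ∈ Z, ‖G z‖ ≤ M₀)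
    (hg : 0 < g) (hsep : ∀ j ∈ Z, g ^ (Z.card - 1) ≤ ∏ i ∈ Z.erase j, ‖j - i‖)
    (hC₀ : 0 ≤ C₀) (hP : Z.card * (M₀ * ((R + R) / g) ^ (Z.card - 1)) ≤ C₀ * Q ^ E)
    (hE : 0 ≤ E) (hEa : E + |s| * R ≤ a) :
    ‖G 0‖ ≤ (K₁ + C₀) * Q ^ (a + s * (2 * R / Real.pi)) *
      Real.exp (-∑ z ∈ Z, Real.log (R / ‖z‖)) + C₀ * Q ^ E := by
  have hQ0 : 0 < Q := by linarith
  have h0R : (0:ℂ) ∈ closedBall (0:ℂ) R := mem_closedBall_self hR.le
  set P : ℂ → ℂ := lag Z G with hPdef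
  have hPb : ∀ z ∈ closedBall (0:ℂ) R, ‖P z‖ ≤ C₀ * Q ^ E := fun z hz =>
    (norm_lag_le Z G hg hZ hG0 hsep hz).trans hP
  set H : ℂ → ℂ := fun z => G z - P z with hH
  have hG0' : ‖G 0‖ ≤ ‖H 0‖ + C₀ * Q ^ E := by
    have : G 0 = H 0 + P 0 := by rw [hH]; ring
    rw [this]
    exact (norm_add_le _ _).trans (add_le_add le_rfl (hPb 0 h0R))
  refine hG0'.trans (add_le_add ?_ le_rfl)
  have hQE : 0 < Q ^ E := Real.rpow_pos_of_pos hQ0 _
  by_cases h0 : H 0 = 0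
  · rw [h0, norm_zero]; positivity
  have hHan : AnalyticOnNhd ℂ H (closedBall 0 R) := by
    have h1 : DifferentiableOn ℂ H U := hGd.sub (differentiable_lag Z G).differentiableOn
    exact (h1.analyticOnNhd hU).mono hsub
  have hsx : ∀ x : ℝ, 0 ≤ x → x ≤ R → E ≤ a + s * x := by
    intro x hx0 hxR
    have h1 : -(|s| * R) ≤ s * x := by
      have h2 : |s * x| ≤ |s| * R := by
        rw [abs_mul, abs_of_nonneg hx0]; gcongr
      exact (abs_le.mp h2).1
    linarith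
  have hlogQ : 0 ≤ Real.log Q := Real.log_nonneg hQ1
  have hKC : 1 ≤ K₁ + C₀ := by linarith
  have hexp : ∀ x : ℝ, (K₁ + C₀) * Q ^ (a + s * x) =
      Real.exp (Real.log (K₁ + C₀) + a * Real.log Q + s * Real.log Q * x) := by
    intro x
    rw [add_assoc, Real.exp_add, Real.exp_log (by linarith), Real.rpow_def_of_pos hQ0]
    congr 2; ring
  have hre : ∀ z ∈ closedBall (0:ℂ) R, |z.re| ≤ R := by
    intro z hz
    have : ‖z‖ ≤ R := by simpa using hz
    exact (Complex.abs_re_le_norm z).trans this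
  have hHb : ∀ z ∈ closedBall (0:ℂ) R, ‖H z‖ ≤ (K₁ + C₀) * Q ^ (a + s * |z.re|) := by
    intro z hz
    have h1 := hsx |z.re| (abs_nonneg _) (hre z hz)
    have h2 := Real.rpow_le_rpow_of_exponent_le hQ1 h1
    calc ‖H z‖ ≤ ‖G z‖ + ‖P z‖ := norm_sub_le _ _
      _ ≤ K₁ * Q ^ (a + s * |z.re|) + C₀ * Q ^ E := add_le_add (hG z hz) (hPb z hz)
      _ ≤ K₁ * Q ^ (a + s * |z.re|) + C₀ * Q ^ (a + s * |z.re|) := by gcongr
      _ = _ := by ring
  have hJ := jensen_bound (α := Real.log (K₁ + C₀) + a * Real.log Q) (β := s * Real.log Q) hR hHan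
    h0 (fun z hz => by rw [← hexp]; exact hHb z (sphere_subset_closedBall hz))
    (fun z hz => by
      have h1 := hsx |z.re| (abs_nonneg _) (hre z (sphere_subset_closedBall hz))
      have h2 : 0 ≤ Real.log (K₁ + C₀) := Real.log_nonneg hKC
      have h3 : 0 ≤ (a + s * |z.re|) * Real.log Q := mul_nonneg (hE.trans h1) hlogQ
      linarith)
    Z (fun z hz => ⟨hZ z hz, by rw [hH]; simp only; rw [hPdef, lag_apply Z G hz, sub_self]⟩)
  have hH0 : 0 < ‖H 0‖ := norm_pos_iff.mpr h0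
  rw [← Real.exp_log hH0, hexp, ← Real.exp_add]
  apply Real.exp_le_exp.mpr
  linarith

end Pool.Agent.H23.GLH
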