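import Mathlib

/-! Poisson kernel of the right half plane and the outer function of a bounded measurable set. -/

set_option autoImplicit false

open Complex MeasureTheory Set Filter Topology

namespace Pool.Agent.H23.GLH

/-- Poisson kernel of the right half-plane. -/
noncomputable def PK (a y : ℝ) : ℝ := a / (a ^ 2 + y ^ 2) / Real.pi

/-- The function whose real part is the harmonic measure of `G` seen from `z + κ`. -/
noncomputable def HH (G : Set ℝ) (κ : ℝ) (z : ℂ) : ℂ := (∫ v in G, (z + κ - v * I)⁻¹) / Real.pi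

lemma PK_nonneg {a : ℝ} (ha : 0 < a) (y : ℝ) : 0 ≤ PK a y := by
  unfold PK; positivity

lemma continuous_PK {a : ℝ} (ha : 0 < a) : Continuous (PK a) := by
  unfold PK
  refine Continuous.div_const (Continuous.div continuous_const (by fun_prop) ?_) _
  intro y; positivity

lemma PK_eq {a : ℝ} (ha : 0 < a) (y : ℝ) :
    PK a y = (1 / (a * Real.pi)) * (1 + (y / a) ^ 2)⁻¹ := by
  unfold PK
  have := Real.pi_pos
  field_simp

lemma integrable_PK {a : ℝ} (ha : 0 < a) : Integrable (PK a) := by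
  have h : Integrable (fun y : ℝ => (1 + y ^ 2)⁻¹) := integrable_inv_one_add_sq
  have h2 := (h.comp_div ha.ne').const_mul (1 / (a * Real.pi))
  refine h2.congr (Eventually.of_forall fun y => ?_)
  simp only
  rw [PK_eq ha]

lemma integral_PK {a : ℝ} (ha : 0 < a) : ∫ y, PK a y = 1 := by
  have e : (fun y => PK a y) = fun y => (1 / (a * Real.pi)) * (1 + (y / a) ^ 2)⁻¹ :=
    funext fun y => PK_eq ha y
  rw [e, integral_const_mul, Measure.integral_comp_div (fun y => (1 + y ^ 2)⁻¹) a,
    integral_univ_inv_one_add_sq, abs_of_pos ha, smul_eq_mul]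
  have := Real.pi_pos
  field_simp

lemma integrable_PK_sub {a : ℝ} (ha : 0 < a) (u : ℝ) : Integrable (fun v => PK a (u - v)) :=
  (integrable_PK ha).comp_sub_left u

lemma integral_PK_sub {a : ℝ} (ha : 0 < a) (u : ℝ) : ∫ v, PK a (u - v) = 1 := by
  rw [integral_sub_left_eq_self (PK a) volume u]
  exact integral_PK ha

lemma setIntegral_PK_le_one {a : ℝ} (ha : 0 < a) (u : ℝ) (G : Set ℝ) :
    ∫ v in G, PK a (u - v) ≤ 1 := by
  rw [← integral_PK_sub ha u]
  exact setIntegral_le_integral (integrable_PK_sub ha u)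
    (Eventually.of_forall fun v => PK_nonneg ha _)

lemma setIntegral_PK_nonneg {a : ℝ} (ha : 0 < a) (u : ℝ) (G : Set ℝ) :
    0 ≤ ∫ v in G, PK a (u - v) := integral_nonneg fun v => PK_nonneg ha _

/-- Far from `G` the harmonic measure is small. -/
lemma setIntegral_PK_le_far {a : ℝ} (ha : 0 < a) (u r : ℝ) (hr : 0 < r) (G : Set ℝ)
    (hG : MeasurableSet G) (hGf : volume G ≠ ⊤) (hfar : ∀ v ∈ G, r ≤ |u - v|) :
    ∫ v in G, PK a (u - v) ≤ a / (r ^ 2 * Real.pi) * (volume.real G) := by
  have hb : ∀ v ∈ G, PK a (u - v) ≤ a / (r ^ 2 * Real.pi) := by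
    intro v hv
    have h1 : r ^ 2 ≤ (u - v) ^ 2 := by
      rw [← sq_abs (u - v)]
      exact pow_le_pow_left₀ hr.le (hfar v hv) 2
    unfold PK
    rw [div_div]
    have hpi := Real.pi_pos
    apply div_le_div_of_nonneg_left ha.le (by positivity)
    nlinarith [sq_nonneg a]
  calc ∫ v in G, PK a (u - v) ≤ ∫ v in G, a / (r ^ 2 * Real.pi) := by
        refine setIntegral_mono_on (integrable_PK_sub ha u).integrableOn
          (integrableOn_const hGf) hG hb
    _ = _ := by
        rw [setIntegral_const, smul_eq_mul, mul_comm]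

/-- Lower bound for the harmonic measure at the scale of `G`. -/
lemma setIntegral_PK_ge {a η u : ℝ} (hη : 0 < η) (ha : η ≤ a) (ha2 : a ≤ 2 * η) (G : Set ℝ)
    (hG : MeasurableSet G) (hGs : G ⊆ Icc (-(η / 2)) (η / 2)) (hu : |u| ≤ 2 * η)
    (hGf : volume G ≠ ⊤) :
    (volume.real G) / (29 / 4 * η * Real.pi) ≤ ∫ v in G, PK a (u - v) := by
  have hpi := Real.pi_pos
  have ha0 : 0 < a := by linarith
  have hb : ∀ v ∈ G, 1 / (29 / 4 * η * Real.pi) ≤ PK a (u - v) := by
    intro v hv
    have hv' := hGs hv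
    have h1 : |u - v| ≤ 5 / 2 * η := by
      have h2 := abs_sub u v
      have h3 : |v| ≤ η / 2 := abs_le.mpr ⟨hv'.1, hv'.2⟩
      linarith
    have h2 : (u - v) ^ 2 ≤ 25 / 4 * η ^ 2 := by
      rw [← sq_abs (u - v)]
      calc |u - v| ^ 2 ≤ (5 / 2 * η) ^ 2 := pow_le_pow_left₀ (abs_nonneg _) h1 2
        _ = _ := by ring
    unfold PK
    rw [div_div, div_le_div_iff₀ (by positivity) (by positivity), one_mul]
    have h3 : a ^ 2 + (u - v) ^ 2 ≤ a * (29 / 4 * η) := by
      nlinarith [mul_nonneg (sub_nonneg.mpr ha) (sub_nonneg.mpr ha2), mul_pos hη hη,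
        mul_nonneg (sub_nonneg.mpr ha) hη.le]
    calc (a ^ 2 + (u - v) ^ 2) * Real.pi ≤ (a * (29 / 4 * η)) * Real.pi := by gcongr
      _ = _ := by ring
  calc volume.real G / (29 / 4 * η * Real.pi) = ∫ v in G, 1 / (29 / 4 * η * Real.pi) := by
        rw [setIntegral_const, smul_eq_mul]; ring
    _ ≤ _ := by
        refine setIntegral_mono_on (integrableOn_const hGf)
          (integrable_PK_sub ha0 u).integrableOn hG hb

lemma denom_ne_zero {κ : ℝ} {z : ℂ} (hz : 0 < z.re + κ) (v : ℝ) : z + κ - v * I ≠ 0 := by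
  intro h
  have := congrArg Complex.re h
  simp at this
  linarith

lemma norm_denom_ge {κ : ℝ} {z : ℂ} (v : ℝ) : z.re + κ ≤ ‖z + κ - v * I‖ := by
  have h1 := Complex.re_le_norm (z + κ - v * I)
  have h2 : (z + κ - v * I).re = z.re + κ := by simp
  rw [h2] at h1
  exact h1

lemma norm_inv_denom_le {κ : ℝ} {z : ℂ} (hz : 0 < z.re + κ) (v : ℝ) :
    ‖(z + κ - v * I)⁻¹‖ ≤ (z.re + κ)⁻¹ := by
  rw [norm_inv]
  exact inv_anti₀ hz (norm_denom_ge v)

lemma continuous_inv_denom {κ : ℝ} {z : ℂ} (hz : 0 < z.re + κ) :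
    Continuous fun v : ℝ => (z + κ - v * I)⁻¹ :=
  Continuous.inv₀ (by fun_prop) fun v => denom_ne_zero hz v

lemma integrableOn_inv_denom {κ : ℝ} {z : ℂ} (hz : 0 < z.re + κ) (G : Set ℝ)
    (hGf : volume G ≠ ⊤) : IntegrableOn (fun v : ℝ => (z + κ - v * I)⁻¹) G := by
  refine Measure.integrableOn_of_bounded hGf (continuous_inv_denom hz).aestronglyMeasurable
    (M := (z.re + κ)⁻¹) (Eventually.of_forall fun v => norm_inv_denom_le hz v)

lemma HH_re {κ : ℝ} {z : ℂ} (hz : 0 < z.re + κ) (G : Set ℝ) (hGf : volume G ≠ ⊤) :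
    (HH G κ z).re = ∫ v in G, PK (z.re + κ) (z.im - v) := by
  unfold HH
  have h1 := (integrableOn_inv_denom hz G hGf)
  rw [Complex.div_ofReal_re]
  have h2 : (∫ v in G, (z + κ - v * I)⁻¹).re = ∫ v in G, ((z + κ - v * I)⁻¹).re :=
    (integral_re h1).symm
  rw [h2, ← integral_div]
  refine integral_congr_ae (Eventually.of_forall fun v => ?_)
  simp only
  rw [Complex.inv_re, Complex.normSq_apply, PK]
  have e1 : (z + κ - v * I).re = z.re + κ := by simp
  have e2 : (z + κ - v * I).im = z.im - v := by simp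
  rw [e1, e2]
  ring_nf

lemma differentiableAt_HH {κ : ℝ} {z : ℂ} (hz : 0 < z.re + κ) (G : Set ℝ)
    (hGf : volume G ≠ ⊤) : DifferentiableAt ℂ (HH G κ) z := by
  set s : Set ℂ := {w | (z.re + κ) / 2 < w.re + κ} with hs
  have hso : IsOpen s := isOpen_lt continuous_const (by fun_prop)
  have hzs : z ∈ s := by simp only [hs, mem_setOf_eq]; linarith
  have hspos : ∀ w ∈ s, 0 < w.re + κ := by
    intro w hw
    simp only [hs, mem_setOf_eq] at hw
    linarith
  have key := hasDerivAt_integral_of_dominated_loc_of_deriv_le (𝕜 := ℂ)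
    (μ := volume.restrict G) (F := fun (w : ℂ) (v : ℝ) => (w + κ - v * I)⁻¹)
    (F' := fun (w : ℂ) (v : ℝ) => -1 / (w + κ - v * I) ^ 2) (x₀ := z) (s := s)
    (bound := fun _ => 1 / ((z.re + κ) / 2) ^ 2) (hso.mem_nhds hzs)
    (by
      filter_upwards [hso.mem_nhds hzs] with w hw
      exact (continuous_inv_denom (hspos w hw)).aestronglyMeasurable)
    (integrableOn_inv_denom hz G hGf)
    (by
      have : Continuous fun v : ℝ => -1 / (z + κ - v * I) ^ 2 :=
        Continuous.div continuous_const (by fun_prop) fun v => pow_ne_zero _ (denom_ne_zero hz v)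
      exact this.aestronglyMeasurable)
    (Eventually.of_forall fun v w hw => by
      rw [norm_div, norm_neg, norm_one, norm_pow]
      have h1 : (z.re + κ) / 2 ≤ ‖w + κ - v * I‖ := by
        have := norm_denom_ge (κ := κ) (z := w) v
        simp only [hs, mem_setOf_eq] at hw
        linarith
      have h2 : 0 < (z.re + κ) / 2 := by linarith
      gcongr)
    (by
      have : IntegrableOn (fun _ : ℝ => 1 / ((z.re + κ) / 2) ^ 2) G := integrableOn_const hGf
      exact this)
    (Eventually.of_forall fun v w hw => by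
      have h1 : HasDerivAt (fun w : ℂ => w + κ - v * I) 1 w :=
        ((hasDerivAt_id w).add_const _).sub_const _
      exact h1.inv (denom_ne_zero (hspos w hw) v))
  exact (key.2.div_const _).differentiableAt

end Pool.Agent.H23.GLH
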