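import Pool.Agent.H23.GLH.TwoConst

/-! One improvement step: from exponent `a` to `a - (2/3) ω (a - e₀) + d η / 2`. -/

set_option autoImplicit false

open Complex MeasureTheory Set Filter Topology

namespace Pool.Agent.H23.GLH

lemma one_add_abs_add_le (t v : ℝ) : 1 + |t + v| ≤ (1 + |t|) * (1 + |v|) := by
  have h := abs_add_le t v
  nlinarith [abs_nonneg t, abs_nonneg v, mul_nonneg (abs_nonneg t) (abs_nonneg v)]

lemma pow_mul_exp_le (n : ℕ) (u : ℝ) :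
    (1 + |u|) ^ n * Real.exp (-(4 * u ^ 2)) ≤ Real.exp ((n : ℝ) ^ 2 / 16) := by
  have h1 : (1 + |u|) ^ n ≤ Real.exp (n * |u|) := by
    have := Real.add_one_le_exp |u|
    have h2 : (1 + |u|) ^ n ≤ (Real.exp |u|) ^ n := by
      gcongr
      linarith
    rwa [← Real.exp_nat_mul] at h2
  calc (1 + |u|) ^ n * Real.exp (-(4 * u ^ 2)) ≤ Real.exp (n * |u|) * Real.exp (-(4 * u ^ 2)) := by
        gcongr
    _ = Real.exp (n * |u| - 4 * u ^ 2) := by rw [← Real.exp_add]; ring_nf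
    _ ≤ _ := by
        apply Real.exp_le_exp.mpr
        have : u ^ 2 = |u| ^ 2 := (sq_abs u).symm
        rw [this]
        nlinarith [sq_nonneg (2 * |u| - (n : ℝ) / 4)]

/-- `‖1 + v i‖` against `1 + |v|`. -/
lemma one_add_abs_le_norm (v : ℝ) : 1 + |v| ≤ 2 * ‖(1 : ℂ) + v * I‖ := by
  have h1 := Complex.abs_re_le_norm ((1 : ℂ) + v * I)
  have h2 := Complex.abs_im_le_norm ((1 : ℂ) + v * I)
  simp at h1 h2
  linarith

lemma one_le_norm_one_add {z : ℂ} (hz : 0 ≤ z.re) : 1 ≤ ‖1 + z‖ := by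
  have h1 := Complex.re_le_norm (1 + z)
  simp at h1
  linarith

lemma one_add_im_le {z : ℂ} (hz : 0 ≤ z.re) : 1 + |z.im| ≤ 2 * ‖1 + z‖ := by
  have h2 := Complex.abs_im_le_norm (1 + z)
  simp at h2
  have := one_le_norm_one_add hz
  linarith

lemma one_add_pow_ne_zero {z : ℂ} (hz : 0 ≤ z.re) (k : ℕ) : (1 + z) ^ k ≠ 0 := by
  apply pow_ne_zero
  intro h0
  have := congrArg Complex.re h0
  simp at this
  linarith

lemma norm_one_add_line_le {η : ℝ} (hη : 0 < η) (u : ℝ) :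
    ‖(1 : ℂ) + (η + u * I)‖ ≤ 1 + η + |u| := by
  have h1 : ‖(1 : ℂ) + (η + u * I)‖ ≤ ‖(1 : ℂ) + η‖ + ‖(u : ℂ) * I‖ := by
    rw [← add_assoc]; exact norm_add_le _ _
  have h2 : ‖(1 : ℂ) + η‖ = 1 + η := by
    have : (1 : ℂ) + η = ((1 + η : ℝ) : ℂ) := by push_cast; ring
    rw [this, Complex.norm_real, Real.norm_of_nonneg (by linarith)]
  have h3 : ‖(u : ℂ) * I‖ = |u| := by simp
  rw [h2, h3] at h1
  exact h1

lemma norm_cexp_quad (lam β x u : ℝ) :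
    ‖cexp (lam * ((x : ℂ) + u * I) ^ 2 + β * ((x : ℂ) + u * I))‖ =
      Real.exp (lam * (x ^ 2 - u ^ 2)) * Real.exp (β * x) := by
  rw [Complex.norm_exp, ← Real.exp_add]
  congr 1
  have e1 : ((x : ℂ) + u * I) ^ 2 = ((x ^ 2 - u ^ 2 : ℝ) : ℂ) + ((2 * x * u : ℝ) : ℂ) * I := by
    push_cast
    have := I_sq
    linear_combination (u : ℂ) ^ 2 * this
  rw [e1, add_re, re_ofReal_mul, re_ofReal_mul, add_re, add_re, ofReal_re, ofReal_re,
    re_ofReal_mul, re_ofReal_mul, I_re]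
  ring

lemma quad_far {lam η u κΛ : ℝ} (h1 : lam * η ^ 2 = κΛ) (hlam : 16 ≤ lam)
    (hu : 4 * η ^ 2 ≤ u ^ 2) : lam * (η ^ 2 - u ^ 2) ≤ -(2 * κΛ) + -(4 * u ^ 2) := by
  have h2 : lam * (4 * η ^ 2) ≤ lam * u ^ 2 := by
    apply mul_le_mul_of_nonneg_left hu; linarith
  have h3 : 16 * u ^ 2 ≤ lam * u ^ 2 := by
    apply mul_le_mul_of_nonneg_right hlam (sq_nonneg u)
  have h4 : lam * (4 * η ^ 2) = 4 * κΛ := by rw [← h1]; ring
  have h5 : lam * (η ^ 2 - u ^ 2) = κΛ - lam * u ^ 2 := by rw [← h1]; ring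
  rw [h5]
  linarith

lemma sixteen_le {η κΛ : ℝ} (hη : 0 < η) (hη4 : η ≤ 1 / 4) (h : 1 ≤ κΛ) :
    16 ≤ κΛ / η ^ 2 := by
  rw [le_div_iff₀ (by positivity)]
  have : η ^ 2 ≤ 1 / 16 := by nlinarith
  linarith

section halfplane

variable {f : ℂ → ℂ} {Q B a e0 ρ η : ℝ} {k D : ℕ}

/-- The half plane part: bound on the line `Re z = η`. -/
theorem right_line (hf : ∀ z : ℂ, -(1 / 2) < z.re → DifferentiableAt ℂ f z) (hQ1 : 1 ≤ Q)
    {A : ℝ} (hA : 0 ≤ A)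
    (hgrow : ∀ z : ℂ, -(1 / 4) ≤ z.re → ‖f z‖ ≤ A * (Q * (1 + |z.im|)) ^ k)
    (hη : 0 < η) (hη4 : η ≤ 1 / 4)
    (he0 : 0 ≤ e0) (hea : e0 < a) (hak : a ≤ k) (hB : 0 < B)
    (hline : ∀ v : ℝ, ‖f (v * I)‖ ≤ B * (Q * (1 + |v|)) ^ a)
    {G : Set ℝ} (hG : IsCompact G) (hGs : G ⊆ Icc (-(η / 2)) (η / 2))
    (hGp : ∀ v ∈ G, ‖f (v * I)‖ ≤ B * (Q * (1 + |v|)) ^ e0)
    (hvol : ρ * η ≤ volume.real G) (u : ℝ) :
    (‖f (η + u * I)‖ ≤ B * 4 ^ k * Q ^ a * (1 + |u|) ^ k) ∧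
    (|u| ≤ 2 * η → ‖f (η + u * I)‖ ≤
      2 * (B * 4 ^ k) * Q ^ (a - (a - e0) * (ρ / (29 / 4 * Real.pi)))) := by
  have hQ0 : 0 < Q := by linarith
  set P := B * 2 ^ k * Q ^ a with hP
  set p := B * 2 ^ k * Q ^ e0 with hp
  have hp0 : 0 < p := by positivity
  have hpP : p ≤ P := by
    rw [hp, hP]
    have := Real.rpow_le_rpow_of_exponent_le hQ1 hea.le
    gcongr
  have hP0 : 0 < P := by positivity
  set g : ℂ → ℂ := fun z => ((1 + z) ^ k)⁻¹ * f z with hg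
  have hnormg : ∀ z : ℂ, ‖g z‖ = ‖f z‖ / ‖1 + z‖ ^ k := by
    intro z
    rw [hg]
    simp only
    rw [norm_mul, norm_inv, norm_pow, ← div_eq_inv_mul]
  have hg_diff : DiffContOnCl ℂ g {z | 0 < z.re} := by
    refine DifferentiableOn.diffContOnCl fun z hz => ?_
    have hz0 : 0 ≤ z.re := closure_half_plane_subset hz
    have h1 : DifferentiableAt ℂ (fun z : ℂ => ((1 + z) ^ k)⁻¹) z :=
      DifferentiableAt.inv (by fun_prop) (one_add_pow_ne_zero hz0 k)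
    exact (h1.mul (hf z (by linarith))).differentiableWithinAt
  have hgbdd : ∀ z : ℂ, 0 ≤ z.re → ‖g z‖ ≤ A * (Q * 2) ^ k := by
    intro z hz
    have hn := one_le_norm_one_add hz
    rw [hnormg, div_le_iff₀ (pow_pos (by linarith) k)]
    refine (hgrow z (by linarith)).trans ?_
    rw [mul_assoc A, ← mul_pow]
    have h1 := one_add_im_le hz
    have h3 : Q * (1 + |z.im|) ≤ Q * 2 * ‖1 + z‖ := by
      calc Q * (1 + |z.im|) ≤ Q * (2 * ‖1 + z‖) := by gcongr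
        _ = _ := by ring
    gcongr
  have haxis : ∀ (v x : ℝ), 0 ≤ x → x ≤ k →
      ‖f (v * I)‖ ≤ B * (Q * (1 + |v|)) ^ x → ‖g (v * I)‖ ≤ B * 2 ^ k * Q ^ x := by
    intro v x hx hxk hfb
    have hn : 1 ≤ ‖(1 : ℂ) + v * I‖ := one_le_norm_one_add (by simp)
    rw [hnormg, div_le_iff₀ (pow_pos (by linarith) k)]
    refine hfb.trans ?_
    have hv1 : 1 ≤ 1 + |v| := by have := abs_nonneg v; linarith
    have h4 : (Q * (1 + |v|)) ^ x = Q ^ x * (1 + |v|) ^ x :=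
      Real.mul_rpow hQ0.le (by linarith)
    have h5 : (1 + |v|) ^ x ≤ (1 + |v|) ^ k := by
      rw [← Real.rpow_natCast]
      exact Real.rpow_le_rpow_of_exponent_le hv1 hxk
    have h6 : (1 + |v|) ^ k ≤ (2 * ‖(1 : ℂ) + v * I‖) ^ k := by
      have := one_add_abs_le_norm v
      gcongr
    have hQx : 0 ≤ Q ^ x := by positivity
    calc B * (Q * (1 + |v|)) ^ x ≤ B * (Q ^ x * (2 * ‖(1 : ℂ) + v * I‖) ^ k) := by
          rw [h4]
          exact mul_le_mul_of_nonneg_left (mul_le_mul_of_nonneg_left (h5.trans h6) hQx) hB.le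
      _ = B * 2 ^ k * Q ^ x * ‖(1 : ℂ) + v * I‖ ^ k := by rw [mul_pow]; ring
  have hgP : ∀ v : ℝ, ‖g (v * I)‖ ≤ P := fun v => haxis v a (by linarith) hak (hline v)
  have hgp : ∀ v ∈ G, ‖g (v * I)‖ ≤ p := fun v hv =>
    haxis v e0 he0 (by linarith) (hGp v hv)
  have hzre : 0 ≤ ((η : ℂ) + u * I).re := by simp; exact hη.le
  have hn := one_le_norm_one_add hzre
  have hfg : ‖f (η + u * I)‖ = ‖g (η + u * I)‖ * ‖(1 : ℂ) + (η + u * I)‖ ^ k := by
    rw [hnormg]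
    have : ‖(1 : ℂ) + (η + u * I)‖ ^ k ≠ 0 := (pow_pos (by linarith) k).ne'
    field_simp
  have hn2 := norm_one_add_line_le hη u
  have hu0 := abs_nonneg u
  have e4 : (4:ℝ) ^ k = 2 ^ k * 2 ^ k := by rw [← mul_pow]; norm_num
  constructor
  · have hfar : ‖g (η + u * I)‖ ≤ P := pl_half hg_diff hgbdd hgP hzre
    have h5 : ‖(1 : ℂ) + (η + u * I)‖ ^ k ≤ (2 * (1 + |u|)) ^ k := by
      have : ‖(1 : ℂ) + (η + u * I)‖ ≤ 2 * (1 + |u|) := by linarith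
      gcongr
    rw [hfg]
    calc ‖g (η + u * I)‖ * ‖(1 : ℂ) + (η + u * I)‖ ^ k ≤ P * (2 * (1 + |u|)) ^ k := by gcongr
      _ = _ := by rw [hP, mul_pow, e4]; ring
  · intro hu
    have h1 : ‖g (η + u * I)‖ ≤ 2 * P * (p / P) ^ (ρ / (29 / 4 * Real.pi)) :=
      two_const hg_diff hgbdd hp0 hpP hgP hG hGs hgp hη hvol hu
    have h2 : (p / P) ^ (ρ / (29 / 4 * Real.pi)) =
        Q ^ (-((a - e0) * (ρ / (29 / 4 * Real.pi)))) := by
      have : p / P = Q ^ (e0 - a) := by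
        rw [hp, hP, Real.rpow_sub hQ0]
        field_simp
      rw [this, ← Real.rpow_mul hQ0.le]
      congr 1
      ring
    have h5 : ‖(1 : ℂ) + (η + u * I)‖ ^ k ≤ 2 ^ k := by
      have : ‖(1 : ℂ) + (η + u * I)‖ ≤ 2 := by linarith
      gcongr
    rw [h2] at h1
    rw [hfg]
    have hQk : 0 ≤ Q ^ (-((a - e0) * (ρ / (29 / 4 * Real.pi)))) := by positivity
    calc ‖g (η + u * I)‖ * ‖(1 : ℂ) + (η + u * I)‖ ^ k
        ≤ (2 * P * Q ^ (-((a - e0) * (ρ / (29 / 4 * Real.pi))))) * 2 ^ k := by gcongr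
      _ = 2 * (B * 4 ^ k) * (Q ^ a * Q ^ (-((a - e0) * (ρ / (29 / 4 * Real.pi))))) := by
          rw [hP, e4]; ring
      _ = _ := by rw [← Real.rpow_add hQ0]; congr 2

/-- The same with the Gaussian weight. -/
theorem right_line_gauss {κ Λ lam Cst : ℝ} (hQ1 : 1 ≤ Q) (hΛ : Λ = Real.log Q)
    (hη : 0 < η) (hη4 : η ≤ 1 / 4) (hB : 0 < B) (hκ : 0 < κ) (hκΛ : 1 ≤ κ * Λ)
    (hlam : lam = κ * Λ / η ^ 2) {b : ℝ} (hb : b = a - 3 * κ)
    (hCst : Cst = 2 ^ (D + 1) + Real.exp (((k + D : ℕ) : ℝ) ^ 2 / 16)) (u : ℝ)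
    (h1 : ‖f (η + u * I)‖ ≤ B * 4 ^ k * Q ^ a * (1 + |u|) ^ k)
    (h2 : |u| ≤ 2 * η → ‖f (η + u * I)‖ ≤ 2 * (B * 4 ^ k) * Q ^ b) :
    (1 + |u|) ^ D * (‖f (η + u * I)‖ * Real.exp (lam * (η ^ 2 - u ^ 2))) ≤
        B * 4 ^ k * Cst * Q ^ (a - 2 * κ) := by
  have hQ0 : 0 < Q := by linarith
  have hu0 := abs_nonneg u
  have hΛ0 : 0 ≤ Λ := by rw [hΛ]; exact Real.log_nonneg hQ1
  have hlam16 : 16 ≤ lam := by rw [hlam]; exact sixteen_le hη hη4 hκΛ
  have hlam0 : 0 ≤ lam := by linarith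
  have hlamη : lam * η ^ 2 = κ * Λ := by rw [hlam]; field_simp
  have hQκ : Real.exp (κ * Λ) = Q ^ κ := by
    rw [Real.rpow_def_of_pos hQ0, ← hΛ, mul_comm]
  rcases le_or_gt (|u|) (2 * η) with hu | hu
  · have h3 : Real.exp (lam * (η ^ 2 - u ^ 2)) ≤ Q ^ κ := by
      rw [← hQκ]
      apply Real.exp_le_exp.mpr
      rw [← hlamη, mul_sub]
      have : 0 ≤ lam * u ^ 2 := by positivity
      linarith
    have h4 : (1 + |u|) ^ D ≤ 2 ^ D := by
      gcongr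
      linarith
    have h5 := h2 hu
    calc (1 + |u|) ^ D * (‖f (η + u * I)‖ * Real.exp (lam * (η ^ 2 - u ^ 2)))
        ≤ 2 ^ D * ((2 * (B * 4 ^ k) * Q ^ b) * Q ^ κ) := by gcongr
      _ = B * 4 ^ k * 2 ^ (D + 1) * (Q ^ b * Q ^ κ) := by rw [pow_succ]; ring
      _ = B * 4 ^ k * 2 ^ (D + 1) * Q ^ (a - 2 * κ) := by
          rw [← Real.rpow_add hQ0, hb]
          congr 2
          ring
      _ ≤ B * 4 ^ k * Cst * Q ^ (a - 2 * κ) := by
          have : (2:ℝ) ^ (D + 1) ≤ Cst := by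
            rw [hCst]
            have := Real.exp_pos (((k + D : ℕ) : ℝ) ^ 2 / 16)
            linarith
          gcongr
  · have hu2 : 4 * η ^ 2 ≤ u ^ 2 := by
      have : (2 * η) ^ 2 ≤ |u| ^ 2 := pow_le_pow_left₀ (by linarith) hu.le 2
      rw [sq_abs] at this
      calc 4 * η ^ 2 = (2 * η) ^ 2 := by ring
        _ ≤ _ := this
    have h3 : Real.exp (lam * (η ^ 2 - u ^ 2)) ≤ Q ^ (-(2 * κ)) * Real.exp (-(4 * u ^ 2)) := by
      have e1 : Q ^ (-(2 * κ)) = Real.exp (-(2 * (κ * Λ))) := by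
        rw [Real.rpow_def_of_pos hQ0, ← hΛ]; ring_nf
      rw [e1, ← Real.exp_add]
      exact Real.exp_le_exp.mpr (quad_far hlamη hlam16 hu2)
    have h9 := pow_mul_exp_le (k + D) u
    calc (1 + |u|) ^ D * (‖f (η + u * I)‖ * Real.exp (lam * (η ^ 2 - u ^ 2)))
        ≤ (1 + |u|) ^ D * ((B * 4 ^ k * Q ^ a * (1 + |u|) ^ k) *
          (Q ^ (-(2 * κ)) * Real.exp (-(4 * u ^ 2)))) := by gcongr
      _ = B * 4 ^ k * ((1 + |u|) ^ (k + D) * Real.exp (-(4 * u ^ 2))) *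
            (Q ^ a * Q ^ (-(2 * κ))) := by rw [pow_add]; ring
      _ = B * 4 ^ k * ((1 + |u|) ^ (k + D) * Real.exp (-(4 * u ^ 2))) * Q ^ (a - 2 * κ) := by
          rw [← Real.rpow_add hQ0]
          congr 2
      _ ≤ B * 4 ^ k * Cst * Q ^ (a - 2 * κ) := by
          have : (1 + |u|) ^ (k + D) * Real.exp (-(4 * u ^ 2)) ≤ Cst := by
            rw [hCst]
            have : (0:ℝ) ≤ 2 ^ (D + 1) := by positivity
            linarith
          gcongr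

/-- The strip part. -/
theorem strip_part {κ Λ lam Cst A d : ℝ}
    (hf : ∀ z : ℂ, -(1 / 2) < z.re → DifferentiableAt ℂ f z) (hQ1 : 1 ≤ Q)
    (hA : 1 ≤ A) (hgrow : ∀ z : ℂ, -(1 / 4) ≤ z.re → ‖f z‖ ≤ A * (Q * (1 + |z.im|)) ^ k)
    (hΛ : Λ = Real.log Q) (hd : 0 ≤ d)
    (hη : 0 < η) (hη4 : η ≤ 1 / 4) (hB : 0 < B) (hκ : 0 < κ) (hκΛ : 1 ≤ κ * Λ)
    (hlam : lam = κ * Λ / η ^ 2) (hCst0 : 0 < Cst)
    (hR : ∀ u : ℝ, (1 + |u|) ^ D * (‖f (η + u * I)‖ * Real.exp (lam * (η ^ 2 - u ^ 2))) ≤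
        B * 4 ^ k * Cst * Q ^ (a - 2 * κ))
    (hL : ∀ u : ℝ, ‖f (((-η : ℝ) : ℂ) + u * I)‖ ≤
          A * (Q ^ (d * η) * (1 + |u|) ^ D) * ‖f (η + u * I)‖) :
    ‖f 0‖ ≤ A * B * 4 ^ k * Cst * Q ^ (a - 2 * κ + d * η / 2) := by
  have hQ0 : 0 < Q := by linarith
  have hΛ0 : 0 ≤ Λ := by rw [hΛ]; exact Real.log_nonneg hQ1
  have hlam16 : 16 ≤ lam := by rw [hlam]; exact sixteen_le hη hη4 hκΛ
  have hlam0 : 0 ≤ lam := by linarith
  set β := d * Λ / 2 with hβ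
  have hβ0 : 0 ≤ β := by rw [hβ]; positivity
  have hβη : Real.exp (β * η) = Q ^ (d * η / 2) := by
    rw [Real.rpow_def_of_pos hQ0, ← hΛ, hβ]; ring_nf
  have hβη' : Real.exp (β * -η) = Q ^ (-(d * η / 2)) := by
    rw [Real.rpow_def_of_pos hQ0, ← hΛ, hβ]; ring_nf
  set h : ℂ → ℂ := fun z => f z * cexp (lam * z ^ 2 + β * z) with hh
  have hnormh : ∀ x u : ℝ, ‖h (x + u * I)‖ = ‖f (x + u * I)‖ *
      (Real.exp (lam * (x ^ 2 - u ^ 2)) * Real.exp (β * x)) := by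
    intro x u
    rw [hh]
    simp only
    rw [norm_mul, norm_cexp_quad]
  set M := A * B * 4 ^ k * Cst * Q ^ (a - 2 * κ + d * η / 2) with hM
  have hM0 : 0 < M := by positivity
  have hrpow : Q ^ (a - 2 * κ) * Q ^ (d * η / 2) = Q ^ (a - 2 * κ + d * η / 2) :=
    (Real.rpow_add hQ0 _ _).symm
  have hright : ∀ z ∈ re ⁻¹' {η}, ‖h z‖ ≤ M := by
    intro z hz
    have hzη : z.re = η := hz
    have hz' : z = (η : ℂ) + z.im * I := by
      rw [← hzη]; exact (re_add_im z).symm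
    rw [hz', hnormh, hβη]
    have h1 := hR z.im
    have h2 : (1:ℝ) ≤ (1 + |z.im|) ^ D := one_le_pow₀ (by have := abs_nonneg z.im; linarith)
    have h3 : ‖f (η + z.im * I)‖ * Real.exp (lam * (η ^ 2 - z.im ^ 2)) ≤
        B * 4 ^ k * Cst * Q ^ (a - 2 * κ) := by
      refine le_trans ?_ h1
      exact le_mul_of_one_le_left (by positivity) h2
    calc ‖f (η + z.im * I)‖ * (Real.exp (lam * (η ^ 2 - z.im ^ 2)) * Q ^ (d * η / 2))
        = (‖f (η + z.im * I)‖ * Real.exp (lam * (η ^ 2 - z.im ^ 2))) * Q ^ (d * η / 2) := by ring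
      _ ≤ (B * 4 ^ k * Cst * Q ^ (a - 2 * κ)) * Q ^ (d * η / 2) := by gcongr
      _ = 1 * (B * 4 ^ k * Cst * Q ^ (a - 2 * κ + d * η / 2)) := by rw [← hrpow]; ring
      _ ≤ A * (B * 4 ^ k * Cst * Q ^ (a - 2 * κ + d * η / 2)) := by gcongr
      _ = M := by rw [hM]; ring
  have hleft : ∀ z ∈ re ⁻¹' {-η}, ‖h z‖ ≤ M := by
    intro z hz
    have hzη : z.re = -η := hz
    have hz' : z = ((-η : ℝ) : ℂ) + z.im * I := by
      rw [← hzη]; exact (re_add_im z).symm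
    rw [hz', hnormh, hβη', neg_sq]
    set u := z.im with hu
    have h1 := hR u
    have h2 := hL u
    have hrp : Q ^ (d * η) * Q ^ (-(d * η / 2)) = Q ^ (d * η / 2) := by
      rw [← Real.rpow_add hQ0]; congr 1; ring
    calc ‖f (((-η : ℝ) : ℂ) + u * I)‖ * (Real.exp (lam * (η ^ 2 - u ^ 2)) *
          Q ^ (-(d * η / 2)))
        ≤ (A * (Q ^ (d * η) * (1 + |u|) ^ D) * ‖f (η + u * I)‖) *
          (Real.exp (lam * (η ^ 2 - u ^ 2)) * Q ^ (-(d * η / 2))) := by gcongr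
      _ = A * ((1 + |u|) ^ D * (‖f (η + u * I)‖ * Real.exp (lam * (η ^ 2 - u ^ 2)))) *
            (Q ^ (d * η) * Q ^ (-(d * η / 2))) := by ring
      _ ≤ A * (B * 4 ^ k * Cst * Q ^ (a - 2 * κ)) * Q ^ (d * η / 2) := by
          rw [hrp]
          gcongr
      _ = M := by rw [hM, ← hrpow]; ring
  have hηη : -η < η := by linarith
  have hdiffh : DiffContOnCl ℂ h (Complex.HadamardThreeLines.verticalStrip (-η) η) := by
    refine DifferentiableOn.diffContOnCl fun z hz => ?_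
    have hz0 : -η ≤ z.re := by
      have hcl : IsClosed {z : ℂ | -η ≤ z.re} :=
        isClosed_le continuous_const Complex.continuous_re
      have hsub : Complex.HadamardThreeLines.verticalStrip (-η) η ⊆ {z : ℂ | -η ≤ z.re} := by
        intro w hw
        have hw' : w.re ∈ Ioo (-η) η := hw
        exact hw'.1.le
      exact closure_minimal hsub hcl hz
    have h2 : DifferentiableAt ℂ f z := hf z (by linarith)
    have h3 : DifferentiableAt ℂ (fun z : ℂ => cexp (lam * z ^ 2 + β * z)) z := by fun_prop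
    exact (h2.mul h3).differentiableWithinAt
  have hbddh : BddAbove ((norm ∘ h) ''
      Complex.HadamardThreeLines.verticalClosedStrip (-η) η) := by
    refine ⟨A * Q ^ k * Real.exp ((k : ℝ) ^ 2 / 16) *
      (Real.exp (lam * η ^ 2) * Real.exp (β * η)), ?_⟩
    rintro _ ⟨z, hz, rfl⟩
    have hz' : z.re ∈ Icc (-η) η := hz
    have e0 : z = (z.re : ℂ) + z.im * I := (re_add_im z).symm
    show ‖h z‖ ≤ _
    rw [e0, hnormh, ← e0]
    have h1 := hgrow z (by linarith [hz'.1])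
    have h2 : Real.exp (lam * (z.re ^ 2 - z.im ^ 2)) ≤
        Real.exp (lam * η ^ 2) * Real.exp (-(4 * z.im ^ 2)) := by
      rw [← Real.exp_add]
      apply Real.exp_le_exp.mpr
      have h3 : z.re ^ 2 ≤ η ^ 2 := by
        have := abs_le.mpr ⟨hz'.1, hz'.2⟩
        rw [← sq_abs z.re]
        exact pow_le_pow_left₀ (abs_nonneg _) this 2
      have h4 : lam * z.re ^ 2 ≤ lam * η ^ 2 := by gcongr
      have h5 : 16 * z.im ^ 2 ≤ lam * z.im ^ 2 :=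
        mul_le_mul_of_nonneg_right hlam16 (sq_nonneg _)
      have h6 := sq_nonneg z.im
      rw [mul_sub]
      linarith
    have h3 : Real.exp (β * z.re) ≤ Real.exp (β * η) := by
      apply Real.exp_le_exp.mpr
      exact mul_le_mul_of_nonneg_left hz'.2 hβ0
    have h9 := pow_mul_exp_le k z.im
    calc ‖f z‖ * (Real.exp (lam * (z.re ^ 2 - z.im ^ 2)) * Real.exp (β * z.re))
        ≤ (A * (Q * (1 + |z.im|)) ^ k) * ((Real.exp (lam * η ^ 2) *
          Real.exp (-(4 * z.im ^ 2))) * Real.exp (β * η)) := by gcongr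
      _ = A * Q ^ k * ((1 + |z.im|) ^ k * Real.exp (-(4 * z.im ^ 2))) *
          (Real.exp (lam * η ^ 2) * Real.exp (β * η)) := by rw [mul_pow]; ring
      _ ≤ _ := by gcongr
  have h0mem : (0:ℂ) ∈ Complex.HadamardThreeLines.verticalClosedStrip (-η) η := by
    show (0:ℂ).re ∈ Icc (-η) η
    simp [hη.le]
  have hfin := Complex.HadamardThreeLines.norm_le_interp_of_mem_verticalClosedStrip' hηη h0mem
    hdiffh hbddh hleft hright
  rw [← Real.rpow_add hM0, sub_add_cancel, Real.rpow_one] at hfin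
  have e0 : ‖h 0‖ = ‖f 0‖ := by
    have := hnormh 0 0
    simpa using this
  rw [e0] at hfin
  exact hfin

end halfplane

end Pool.Agent.H23.GLH
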