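import Pool.Agent.H23.GLH.Outer

/-! Two-constants theorem in the right half plane with a compact set on the imaginary axis. -/

set_option autoImplicit false

open Complex MeasureTheory Set Filter Topology

namespace Pool.Agent.H23.GLH

lemma closure_half_plane_subset : closure {z : ℂ | 0 < z.re} ⊆ {z : ℂ | 0 ≤ z.re} := by
  have h : IsClosed {z : ℂ | 0 ≤ z.re} := isClosed_le continuous_const Complex.continuous_re
  exact closure_minimal (fun z (hz : 0 < z.re) => (le_of_lt hz : 0 ≤ z.re)) h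

lemma half_plane_subset_closure : {z : ℂ | 0 ≤ z.re} ⊆ closure {z : ℂ | 0 < z.re} := by
  rw [closure_setOfPred_lt_re]

lemma continuous_imag_axis {g : ℂ → ℂ} (hd : DiffContOnCl ℂ g {z | 0 < z.re}) :
    Continuous fun v : ℝ => g (v * I) := by
  have h1 : ContinuousOn g {z : ℂ | 0 ≤ z.re} := hd.continuousOn.mono half_plane_subset_closure
  refine h1.comp_continuous (by fun_prop) fun v => ?_
  simp

/-- Phragmen-Lindelof for bounded functions in the right half plane. -/
lemma pl_half {g : ℂ → ℂ} (hd : DiffContOnCl ℂ g {z | 0 < z.re}) {A : ℝ}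
    (hA : ∀ z : ℂ, 0 ≤ z.re → ‖g z‖ ≤ A) {P : ℝ} (hP : ∀ v : ℝ, ‖g (v * I)‖ ≤ P)
    {z : ℂ} (hz : 0 ≤ z.re) : ‖g z‖ ≤ P := by
  refine PhragmenLindelof.right_half_plane_of_bounded_on_real hd ⟨1, by norm_num, 0, ?_⟩ ?_ hP hz
  · refine Asymptotics.IsBigO.of_bound A ?_
    rw [eventually_inf_principal]
    refine Eventually.of_forall fun w hw => ?_
    have hw' : 0 < w.re := hw
    simpa using hA w hw'.le
  · refine ⟨A, ?_⟩
    rw [eventually_map]
    filter_upwards [eventually_ge_atTop (0:ℝ)] with x hx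
    exact hA x (by simpa using hx)

lemma two_const {g : ℂ → ℂ} (hd : DiffContOnCl ℂ g {z | 0 < z.re}) {A : ℝ}
    (hA : ∀ z : ℂ, 0 ≤ z.re → ‖g z‖ ≤ A) {P p η ρ : ℝ} (hp : 0 < p) (hpP : p ≤ P)
    (hP : ∀ v : ℝ, ‖g (v * I)‖ ≤ P) {G : Set ℝ} (hG : IsCompact G)
    (hGs : G ⊆ Icc (-(η / 2)) (η / 2)) (hGp : ∀ v ∈ G, ‖g (v * I)‖ ≤ p) (hη : 0 < η)
    (hvol : ρ * η ≤ volume.real G) {u : ℝ} (hu : |u| ≤ 2 * η) :
    ‖g (η + u * I)‖ ≤ 2 * P * (p / P) ^ (ρ / (29 / 4 * Real.pi)) := by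
  have hP0 : 0 < P := lt_of_lt_of_le hp hpP
  have hpi := Real.pi_pos
  have hGf : volume G ≠ ⊤ := hG.measure_lt_top.ne
  have hGm : MeasurableSet G := hG.measurableSet
  set Λ := Real.log (P / p) with hΛ
  have hΛ0 : 0 ≤ Λ := Real.log_nonneg (by rw [le_div_iff₀ hp]; linarith)
  have hexpΛ : Real.exp Λ = P / p := Real.exp_log (by positivity)
  -- the open neighbourhood of `G`
  have hcont := continuous_imag_axis hd
  have hU : IsOpen {v : ℝ | ‖g (v * I)‖ < 2 * p} := isOpen_lt hcont.norm continuous_const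
  have hGU : G ⊆ {v : ℝ | ‖g (v * I)‖ < 2 * p} := fun v hv => by
    have := hGp v hv
    show ‖g (v * I)‖ < 2 * p
    linarith
  obtain ⟨r, hr, hrU⟩ := hG.exists_thickening_subset_open hU hGU
  -- the choice of `κ`
  set V := volume.real G with hV
  have hV0 : 0 ≤ V := measureReal_nonneg
  obtain ⟨κ, hκ, hκη, hκs⟩ : ∃ κ : ℝ, 0 < κ ∧ κ ≤ η ∧
      Λ * (κ / (r ^ 2 * Real.pi) * V) ≤ Real.log 2 := by
    have hl2 : 0 < Real.log 2 := Real.log_pos (by norm_num)
    set D := Λ * V / (r ^ 2 * Real.pi) with hD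
    have hD0 : 0 ≤ D := by positivity
    refine ⟨min η (Real.log 2 / (D + 1)), lt_min hη (by positivity), min_le_left _ _, ?_⟩
    have h1 : min η (Real.log 2 / (D + 1)) ≤ Real.log 2 / (D + 1) := min_le_right _ _
    calc Λ * (min η (Real.log 2 / (D + 1)) / (r ^ 2 * Real.pi) * V)
        = D * min η (Real.log 2 / (D + 1)) := by rw [hD]; ring
      _ ≤ D * (Real.log 2 / (D + 1)) := by gcongr
      _ ≤ Real.log 2 := by
          rw [mul_div_assoc', div_le_iff₀ (by linarith)]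
          nlinarith
  set h : ℂ → ℂ := fun z => g z * cexp (Λ * HH G κ z) with hh
  have hdiff : DiffContOnCl ℂ h {z | 0 < z.re} := by
    have h2 : DiffContOnCl ℂ (fun z => cexp (Λ * HH G κ z)) {z | 0 < z.re} := by
      refine DifferentiableOn.diffContOnCl fun z hz => ?_
      have hz0 : 0 ≤ z.re := closure_half_plane_subset hz
      have h1 := differentiableAt_HH (κ := κ) (z := z) (by linarith) G hGf
      exact (h1.const_mul _).cexp.differentiableWithinAt
    exact hd.smul h2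
  have hnorm : ∀ z : ℂ, 0 ≤ z.re →
      ‖h z‖ = ‖g z‖ * Real.exp (Λ * ∫ v in G, PK (z.re + κ) (z.im - v)) := by
    intro z hz
    rw [hh]
    simp only
    rw [norm_mul, Complex.norm_exp, Complex.re_ofReal_mul, HH_re (by linarith) G hGf]
  have hA0 : 0 ≤ A := (norm_nonneg _).trans (hA 0 (by simp))
  have hbdd : ∀ z : ℂ, 0 ≤ z.re → ‖h z‖ ≤ A * Real.exp Λ := by
    intro z hz
    rw [hnorm z hz]
    have h1 := setIntegral_PK_le_one (a := z.re + κ) (by linarith) z.im G
    have h2 : Λ * ∫ v in G, PK (z.re + κ) (z.im - v) ≤ Λ := by nlinarith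
    have h3 := hA z hz
    gcongr
  have hbdry : ∀ v : ℝ, ‖h (v * I)‖ ≤ 2 * P := by
    intro v
    rw [hnorm (v * I) (by simp)]
    have e1 : ((v : ℂ) * I).re = 0 := by simp
    have e2 : ((v : ℂ) * I).im = v := by simp
    rw [e1, e2, zero_add]
    by_cases hv : v ∈ Metric.thickening r G
    · have h1 : ‖g (v * I)‖ < 2 * p := hrU hv
      have h2 := setIntegral_PK_le_one hκ v G
      have h3 : Λ * ∫ w in G, PK κ (v - w) ≤ Λ := by nlinarith
      calc ‖g (v * I)‖ * Real.exp (Λ * ∫ w in G, PK κ (v - w)) ≤ (2 * p) * Real.exp Λ := by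
            gcongr
        _ = 2 * P := by rw [hexpΛ]; field_simp
    · have hfar : ∀ w ∈ G, r ≤ |v - w| := by
        intro w hw
        by_contra hlt
        push Not at hlt
        exact hv (Metric.mem_thickening_iff.mpr ⟨w, hw, by rwa [Real.dist_eq]⟩)
      have h1 := setIntegral_PK_le_far hκ v r hr G hGm hGf hfar
      have h2 : Λ * ∫ w in G, PK κ (v - w) ≤ Real.log 2 :=
        (mul_le_mul_of_nonneg_left h1 hΛ0).trans hκs
      have h3 : Real.exp (Λ * ∫ w in G, PK κ (v - w)) ≤ 2 := by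
        rw [← Real.exp_log (show (0:ℝ) < 2 by norm_num)]
        exact Real.exp_le_exp.mpr h2
      calc ‖g (v * I)‖ * Real.exp (Λ * ∫ w in G, PK κ (v - w)) ≤ P * 2 := by
            gcongr
            exact hP v
        _ = _ := by ring
  have hz0 : (0:ℝ) ≤ ((η : ℂ) + u * I).re := by simp; exact hη.le
  have hmain := pl_half hdiff hbdd hbdry hz0
  rw [hnorm _ hz0] at hmain
  have e1 : ((η : ℂ) + u * I).re = η := by simp
  have e2 : ((η : ℂ) + u * I).im = u := by simp
  rw [e1, e2] at hmain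
  have hlow := setIntegral_PK_ge (a := η + κ) hη (by linarith) (by linarith) G hGm hGs hu hGf
  have hlow2 : ρ / (29 / 4 * Real.pi) ≤ ∫ v in G, PK (η + κ) (u - v) := by
    refine le_trans ?_ hlow
    rw [div_le_div_iff₀ (by positivity) (by positivity)]
    calc ρ * (29 / 4 * η * Real.pi) = (ρ * η) * (29 / 4 * Real.pi) := by ring
      _ ≤ _ := by gcongr
  have hexp : Real.exp (Λ * (ρ / (29 / 4 * Real.pi))) ≤
      Real.exp (Λ * ∫ v in G, PK (η + κ) (u - v)) := by gcongr
  have hfin : ‖g (η + u * I)‖ * Real.exp (Λ * (ρ / (29 / 4 * Real.pi))) ≤ 2 * P :=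
    (mul_le_mul_of_nonneg_left hexp (norm_nonneg _)).trans hmain
  have e3 : (p / P) ^ (ρ / (29 / 4 * Real.pi)) =
      (Real.exp (Λ * (ρ / (29 / 4 * Real.pi))))⁻¹ := by
    rw [Real.rpow_def_of_pos (by positivity), ← Real.exp_neg]
    congr 1
    rw [← neg_mul, hΛ, ← Real.log_inv, inv_div]
  rw [e3, ← div_eq_mul_inv, le_div_iff₀ (Real.exp_pos _)]
  exact hfin

end Pool.Agent.H23.GLH
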